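import Mathlib.Algebra.CharP.Defs
import Mathlib.Algebra.Notation.Lemmas
import Mathlib.Tactic.Monotonicity.Lemmas
import Mathlib.Data.Int.Star
import Mathlib.Algebra.Order.Ring.Star
import Mathlib.Algebra.Order.Star.Real
import Mathlib.Data.List.Triplewise
import Mathlib.Combinatorics.SimpleGraph.Basic
import Mathlib.Data.List.Lookmap
import Mathlib.Tactic.Algebra.Basic

-- ======== part 0: formerly Pool.Agent.MP_61e9ba_co.Core
section MrgPart0

/-!
Graphs on a line of cells: tight connectivity of the cliques of size `t + 1`.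
-/

namespace Pool.Agent.MP_61e9ba_co

open Finset Relation

open scoped Classical

variable {W : Type} [LinearOrder W]

/-- A graph on a line: `c` gives the cell of a vertex, edges join cells at distance at most `K`,
every vertex misses at most `D` vertices in this range, and the cells in `[A, B]` are large. -/
structure Line (G : SimpleGraph W) (c : W → ℤ) (U : Finset W) (t K : ℕ) (D s : ℝ) (A B : ℤ) :
    Prop where
  mono : Monotone c
  near : ∀ x y, G.Adj x y → |c x - c y| ≤ K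
  bud : ∀ x ∈ U, (#{y ∈ U | |c x - c y| ≤ K ∧ ¬ G.Adj x y} : ℝ) ≤ D
  full : ∀ j, A ≤ j → j ≤ B → s ≤ #{y ∈ U | c y = j}
  slack : t * D < K * s
  nonneg : 0 ≤ D

/-- The vertices missed by `x`. -/
noncomputable def miss (G : SimpleGraph W) (c : W → ℤ) (U : Finset W) (K : ℕ) (x : W) : Finset W :=
  {y ∈ U | |c x - c y| ≤ K ∧ ¬ G.Adj x y}

/-- A clique inside `U`. -/
def Clq (G : SimpleGraph W) (U X : Finset W) : Prop :=
  X ⊆ U ∧ ∀ x ∈ X, ∀ y ∈ X, x ≠ y → G.Adj x y

/-- `z` is a common neighbour of `X` in `U`. -/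
def Nb (G : SimpleGraph W) (U X : Finset W) (z : W) : Prop := z ∈ U ∧ ∀ x ∈ X, G.Adj x z

/-- Two cliques of size `t` whose union is a clique of size `t + 1`. -/
def Face (G : SimpleGraph W) (U : Finset W) (t : ℕ) (Y Y' : Finset W) : Prop :=
  ∃ X y y', #X + 1 = t ∧ Clq G U X ∧ Nb G U X y ∧ Nb G U X y' ∧ G.Adj y y' ∧
    Y = insert y X ∧ Y' = insert y' X

section basic

variable {G : SimpleGraph W} {U X : Finset W}

omit [LinearOrder W] in
lemma Nb.notMem {z : W} (h : Nb G U X z) : z ∉ X := fun hz => G.irrefl (h.2 z hz)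

omit [LinearOrder W] in
lemma Clq.sub {Y : Finset W} (h : Clq G U X) (hY : Y ⊆ X) : Clq G U Y :=
  ⟨hY.trans h.1, fun x hx y hy => h.2 x (hY hx) y (hY hy)⟩

omit [LinearOrder W] in
lemma Nb.sub {Y : Finset W} {z : W} (h : Nb G U X z) (hY : Y ⊆ X) : Nb G U Y z :=
  ⟨h.1, fun x hx => h.2 x (hY hx)⟩

lemma Clq.insert {z : W} (h : Clq G U X) (hz : Nb G U X z) : Clq G U (insert z X) := by
  refine ⟨insert_subset hz.1 h.1, fun x hx y hy hxy => ?_⟩
  rcases mem_insert.1 hx with hx' | hx' <;> rcases mem_insert.1 hy with hy' | hy'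
  · exact absurd (hx'.trans hy'.symm) hxy
  · rw [hx']; exact (hz.2 y hy').symm
  · rw [hy']; exact hz.2 x hx'
  · exact h.2 x hx' y hy' hxy

lemma Nb.insert {z w : W} (h : Nb G U X z) (hw : G.Adj w z) : Nb G U (insert w X) z :=
  ⟨h.1, fun x hx => by
    rcases mem_insert.1 hx with rfl | hx
    · exact hw
    · exact h.2 x hx⟩

lemma Clq.nb_erase {x : W} (h : Clq G U X) (hx : x ∈ X) : Nb G U (X.erase x) x :=
  ⟨h.1 hx, fun y hy => h.2 y (mem_of_mem_erase hy) x hx (ne_of_mem_erase hy)⟩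

lemma Face.symm {t : ℕ} {Y Y' : Finset W} (h : Face G U t Y Y') : Face G U t Y' Y := by
  obtain ⟨X, y, y', h1, h2, h3, h4, h5, h6, h7⟩ := h
  exact ⟨X, y', y, h1, h2, h4, h3, h5.symm, h7, h6⟩

lemma con_symm {t : ℕ} {Y Y' : Finset W} (h : ReflTransGen (Face G U t) Y Y') :
    ReflTransGen (Face G U t) Y' Y := by
  induction h with
  | refl => exact .refl
  | tail _ h ih => exact .head h.symm ih

end basic

namespace Line

variable {G : SimpleGraph W} {c : W → ℤ} {U : Finset W} {t K : ℕ} {D s : ℝ} {A B : ℤ}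
  (L : Line G c U t K D s A B)
include L

lemma card_miss {X : Finset W} (hX : X ⊆ U) :
    (#(X.biUnion (miss G c U K)) : ℝ) ≤ #X * D := by
  calc (#(X.biUnion (miss G c U K)) : ℝ) ≤ ∑ x ∈ X, (#(miss G c U K x) : ℝ) := by
        exact_mod_cast card_biUnion_le
    _ ≤ ∑ _x ∈ X, D := sum_le_sum fun x hx => L.bud x (hX hx)
    _ = _ := by simp

lemma card_cells {a : ℤ} (n : ℕ) (h1 : A ≤ a) (h2 : a + n ≤ B + 1) :
    n * s ≤ #{y ∈ U | a ≤ c y ∧ c y < a + n} := by
  induction n with
  | zero => simp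
  | succ n ih =>
    have e1 := ih (by push_cast at h2; omega)
    have e2 := L.full (a + n) (by omega) (by push_cast at h2; omega)
    have e3 : #{y ∈ U | a ≤ c y ∧ c y < a + n} + #{y ∈ U | c y = a + n} ≤
        #{y ∈ U | a ≤ c y ∧ c y < a + (n + 1 : ℕ)} := by
      rw [← card_union_of_disjoint]
      · apply card_le_card
        intro y hy
        simp only [mem_union, mem_filter] at hy ⊢
        push_cast
        rcases hy with hy | hy <;> exact ⟨hy.1, by omega⟩
      · rw [disjoint_filter]; intro y _ h; omega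
    have e4 : (#{y ∈ U | a ≤ c y ∧ c y < a + n} : ℝ) + #{y ∈ U | c y = a + n} ≤
        #{y ∈ U | a ≤ c y ∧ c y < a + (n + 1 : ℕ)} := by exact_mod_cast e3
    push_cast at e4 ⊢
    linarith

/-- Greedy extension inside a window. -/
lemma extend {X : Finset W} (hX : X ⊆ U) (ht : #X ≤ t) {a : ℤ} (h1 : A ≤ a)
    (h2 : a + K ≤ B + 1) (hw : ∀ x ∈ X, a ≤ c x ∧ c x ≤ a + K) :
    ∃ z, Nb G U X z ∧ a ≤ c z ∧ c z < a + K := by
  by_contra hc
  have e1 := L.card_cells K h1 (by omega)
  have e2 := L.card_miss hX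
  have e3 : #{y ∈ U | a ≤ c y ∧ c y < a + K} ≤ #(X.biUnion (miss G c U K)) := by
    apply card_le_card
    intro y hy
    simp only [mem_filter, mem_biUnion, miss] at hy ⊢
    by_contra hn
    refine hc ⟨y, ⟨hy.1, fun x hx => ?_⟩, hy.2.1, hy.2.2⟩
    by_contra hxy
    have := hw x hx
    exact hn ⟨x, hx, hy.1, by rw [abs_le]; omega, hxy⟩
  have e4 : (#{y ∈ U | a ≤ c y ∧ c y < a + K} : ℝ) ≤ #(X.biUnion (miss G c U K)) := by
    exact_mod_cast e3
  have e5 : (#X : ℝ) * D ≤ t * D := mul_le_mul_of_nonneg_right (by exact_mod_cast ht) L.nonneg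
  linarith [L.slack]

/-- The common range of `lo` and `hi` and the interval between them are large together. -/
lemma range_hull {lo hi : W} (hle : lo ≤ hi) (hn : c hi - c lo ≤ K) (h1 : A + K ≤ c lo)
    (h2 : c hi + K ≤ B) :
    2 * t * D < (#{z ∈ U | c hi - K ≤ c z ∧ c z ≤ c lo + K} : ℝ) + #{z ∈ U | lo < z ∧ z < hi} := by
  have hm := L.mono hle
  have e1 := L.card_cells (a := c hi - K) K (by omega) (by omega)
  have e2 := L.card_cells (a := c lo + 1) K (by omega) (by omega)
  have e3 := card_union_add_card_inter {y ∈ U | c hi - K ≤ c y ∧ c y < c hi - K + K}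
    {y ∈ U | c lo + 1 ≤ c y ∧ c y < c lo + 1 + K}
  have e4 : #({y ∈ U | c hi - K ≤ c y ∧ c y < c hi - K + K} ∪
      {y ∈ U | c lo + 1 ≤ c y ∧ c y < c lo + 1 + K}) ≤
      #{z ∈ U | c hi - K ≤ c z ∧ c z ≤ c lo + K} := by
    apply card_le_card
    intro y hy
    simp only [mem_union, mem_filter] at hy ⊢
    rcases hy with hy | hy <;> exact ⟨hy.1, by omega⟩
  have e5 : #({y ∈ U | c hi - K ≤ c y ∧ c y < c hi - K + K} ∩
      {y ∈ U | c lo + 1 ≤ c y ∧ c y < c lo + 1 + K}) ≤ #{z ∈ U | lo < z ∧ z < hi} := by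
    apply card_le_card
    intro y hy
    simp only [mem_inter, mem_filter] at hy ⊢
    exact ⟨hy.1.1, L.mono.reflect_lt (by omega), L.mono.reflect_lt (by omega)⟩
  have e6 : (#{y ∈ U | c hi - K ≤ c y ∧ c y < c hi - K + K} : ℝ) +
      #{y ∈ U | c lo + 1 ≤ c y ∧ c y < c lo + 1 + K} ≤
      (#{z ∈ U | c hi - K ≤ c z ∧ c z ≤ c lo + K} : ℝ) + #{z ∈ U | lo < z ∧ z < hi} := by
    exact_mod_cast (by omega)
  linarith [L.slack]

/-- The counting step.  `X` lies between `lo` and `hi`, and `p, q` are these two ends.  The sets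
`E`, `F` collect the vertices of the range not missed by `X, p, q` and the vertices between the
ends that are missed neither by `X` nor by both ends. -/
lemma count {lo hi p q : W} (hle : lo ≤ hi) (hn : c hi - c lo ≤ K) (h1 : A + K ≤ c lo)
    (h2 : c hi + K ≤ B) {X : Finset W} (hX : X ⊆ U) (hp : p ∈ U) (hq : q ∈ U)
    (hXI : ∀ x ∈ X, lo ≤ x ∧ x ≤ hi) (hpI : lo ≤ p ∧ p ≤ hi) (hqI : lo ≤ q ∧ q ≤ hi)
    {E F : Finset W}
    (hE : ∀ z, Nb G U X z → G.Adj p z → G.Adj q z → z ∈ E)
    (hF : ∀ z, Nb G U X z → lo < z → z < hi → G.Adj p z ∨ G.Adj q z → z ∈ F) :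
    2 * t * D < (2 * #X + 2) * D + #E + #F := by
  have e0 := L.range_hull hle hn h1 h2
  have hm := L.mono hle
  have near : ∀ x z, lo ≤ x ∧ x ≤ hi → c hi - K ≤ c z ∧ c z ≤ c lo + K → |c x - c z| ≤ K := by
    intro x z hx hz
    have := L.mono hx.1
    have := L.mono hx.2
    rw [abs_le]; omega
  have nb : ∀ z ∈ U, c hi - K ≤ c z ∧ c z ≤ c lo + K → z ∉ X.biUnion (miss G c U K) →
      Nb G U X z := by
    intro z hz hr hn
    refine ⟨hz, fun x hx => ?_⟩
    by_contra hxz
    exact hn (mem_biUnion.2 ⟨x, hx, mem_filter.2 ⟨hz, near x z (hXI x hx) hr, hxz⟩⟩)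
  set M := X.biUnion (miss G c U K)
  set P := miss G c U K p
  set Q := miss G c U K q
  have e1 : {z ∈ U | c hi - K ≤ c z ∧ c z ≤ c lo + K} ⊆ M ∪ (P ∪ Q) ∪ E := by
    intro z hz
    rw [mem_filter] at hz
    by_contra hc
    simp only [mem_union, not_or] at hc
    refine hc.2 (hE z (nb z hz.1 hz.2 hc.1.1) ?_ ?_)
    · by_contra h; exact hc.1.2.1 (mem_filter.2 ⟨hz.1, near p z hpI hz.2, h⟩)
    · by_contra h; exact hc.1.2.2 (mem_filter.2 ⟨hz.1, near q z hqI hz.2, h⟩)
  have e2 : {z ∈ U | lo < z ∧ z < hi} ⊆ M ∪ (P ∩ Q) ∪ F := by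
    intro z hz
    rw [mem_filter] at hz
    have hr : c hi - K ≤ c z ∧ c z ≤ c lo + K := by
      have := L.mono hz.2.1.le
      have := L.mono hz.2.2.le
      omega
    by_contra hc
    simp only [mem_union, not_or, mem_inter] at hc
    refine hc.2 (hF z (nb z hz.1 hr hc.1.1) hz.2.1 hz.2.2 ?_)
    by_contra h
    rw [not_or] at h
    exact hc.1.2 ⟨mem_filter.2 ⟨hz.1, near p z hpI hr, h.1⟩,
      mem_filter.2 ⟨hz.1, near q z hqI hr, h.2⟩⟩
  have e3 := (card_le_card e1).trans ((card_union_le _ _).trans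
    (Nat.add_le_add_right (card_union_le _ _) _))
  have e4 := (card_le_card e2).trans ((card_union_le _ _).trans
    (Nat.add_le_add_right (card_union_le _ _) _))
  have e5 := card_union_add_card_inter P Q
  have e6 : (#{z ∈ U | c hi - K ≤ c z ∧ c z ≤ c lo + K} : ℝ) + #{z ∈ U | lo < z ∧ z < hi} ≤
      2 * #M + #P + #Q + #E + #F := by exact_mod_cast (by omega)
  have e7 : (#M : ℝ) ≤ #X * D := L.card_miss hX
  have e8 : (#P : ℝ) ≤ D := L.bud p hp
  have e9 : (#Q : ℝ) ≤ D := L.bud q hq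
  linarith

/-- A set of vertices in the range of `x` that are not adjacent to `x` is small. -/
lemma card_le {x : W} (hx : x ∈ U) {S : Finset W}
    (h : ∀ z ∈ S, z ∈ U ∧ |c x - c z| ≤ K ∧ ¬ G.Adj x z) : (#S : ℝ) ≤ D :=
  le_trans (by exact_mod_cast card_le_card fun z hz => mem_filter.2 (h z hz)) (L.bud x hx)

end Line

end Pool.Agent.MP_61e9ba_co

end MrgPart0

-- ======== part 1: formerly Pool.Agent.MP_61e9ba_co.Conn
section MrgPart1

/-!
Tight connectivity: two cliques of size `t` with a common face of size `t - 1`.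
-/

namespace Pool.Agent.MP_61e9ba_co

open Finset Relation

open scoped Classical

variable {W : Type} [LinearOrder W]

/-- Connected by a chain of faces. -/
abbrev Con (G : SimpleGraph W) (U : Finset W) (t : ℕ) (Y Y' : Finset W) : Prop :=
  ReflTransGen (Face G U t) Y Y'

/-- A clique of size `t - 1` with two common neighbours, all between `lo` and `hi`. -/
structure Cfg (G : SimpleGraph W) (U : Finset W) (t : ℕ) (lo hi : W) (X : Finset W) (y y' : W) :
    Prop where
  card : #X + 1 = t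
  clq : Clq G U X
  n1 : Nb G U X y
  n2 : Nb G U X y'
  iX : ∀ x ∈ X, lo ≤ x ∧ x ≤ hi
  i1 : lo ≤ y ∧ y ≤ hi
  i2 : lo ≤ y' ∧ y' ≤ hi

/-- The induction hypothesis: configurations avoiding one of the ends are connected. -/
def Ind (G : SimpleGraph W) (U : Finset W) (t : ℕ) (lo hi : W) : Prop :=
  ∀ X y y' e, Cfg G U t lo hi X y y' → (e = lo ∨ e = hi) → e ∉ X → e ≠ y → e ≠ y' →
    Con G U t (insert y X) (insert y' X)

variable {G : SimpleGraph W} {c : W → ℤ} {U : Finset W} {t K : ℕ} {D s : ℝ} {A B : ℤ}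

lemma Cfg.symm {lo hi : W} {X : Finset W} {y y' : W} (h : Cfg G U t lo hi X y y') :
    Cfg G U t lo hi X y' y := ⟨h.card, h.clq, h.n2, h.n1, h.iX, h.i2, h.i1⟩

lemma con_face {X : Finset W} {y y' : W} (h1 : #X + 1 = t) (h2 : Clq G U X) (h3 : Nb G U X y)
    (h4 : Nb G U X y') (h5 : G.Adj y y') : Con G U t (insert y X) (insert y' X) :=
  .single ⟨X, y, y', h1, h2, h3, h4, h5, rfl, rfl⟩

lemma mem_insert_iX {lo hi : W} {X : Finset W} {y : W} (h : ∀ x ∈ X, lo ≤ x ∧ x ≤ hi)
    (hy : lo ≤ y ∧ y ≤ hi) : ∀ x ∈ insert y X, lo ≤ x ∧ x ≤ hi := by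
  intro x hx
  rcases mem_insert.1 hx with rfl | hx
  · exact hy
  · exact h x hx

namespace Line

variable (L : Line G c U t K D s A B) {lo hi : W} (hle : lo ≤ hi) (hn : c hi - c lo ≤ K)
  (h1 : A + K ≤ c lo) (h2 : c hi + K ≤ B) (ih : Ind G U t lo hi)
include L hle hn h1 h2 ih

lemma caseB {X : Finset W} {x y y' : W} (h : Cfg G U t lo hi X y y') (hx : x ∈ X)
    (he : (x = lo ∧ y = hi) ∨ (x = hi ∧ y = lo)) : Con G U t (insert y X) (insert y' X) := by
  by_contra hc
  have ex : x = lo ∨ x = hi := he.imp And.left And.left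
  have ey : y = lo ∨ y = hi := he.symm.imp And.right And.right
  have int_ne : ∀ z e, lo < z ∧ z < hi → (e = lo ∨ e = hi) → e ≠ z := by
    rintro z e hz (rfl | rfl)
    · exact hz.1.ne
    · exact hz.2.ne'
  have int_in : ∀ z, lo < z ∧ z < hi → lo ≤ z ∧ z ≤ hi := fun z hz => ⟨hz.1.le, hz.2.le⟩
  set X0 := X.erase x with hX0
  have hins : insert x X0 = X := insert_erase hx
  have hcard : #X0 + 1 = #X := card_erase_add_one hx
  have hsub : X0 ⊆ X := erase_subset _ _
  have c0 : Clq G U X0 := h.clq.sub hsub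
  have i0 : ∀ z ∈ X0, lo ≤ z ∧ z ≤ hi := fun z hz => h.iX z (hsub hz)
  have nx : Nb G U X0 x := h.clq.nb_erase hx
  have ny : Nb G U X0 y := h.n1.sub hsub
  have xy : G.Adj x y := h.n1.2 x hx
  have x0 : x ∉ X0 := notMem_erase _ _
  have cins : ∀ z, Nb G U X0 z → #(insert z X0) + 1 = t := fun z hz => by
    rw [card_insert_of_notMem hz.notMem, hcard, h.card]
  set F := {z ∈ U | Nb G U X z ∧ lo < z ∧ z < hi}
  set Fy := {z ∈ U | Nb G U (insert y X0) z ∧ lo < z ∧ z < hi}
  set E := {z ∈ U | Nb G U (insert y X) z}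
  have y'F : y' ∈ F := by
    have a1 : y' ≠ y := by rintro rfl; exact hc .refl
    have a2 : y' ≠ x := by rintro rfl; exact h.n2.notMem hx
    refine mem_filter.2 ⟨h.n2.1, h.n2, lt_of_le_of_ne h.i2.1 ?_, lt_of_le_of_ne h.i2.2 ?_⟩
    · rcases he with ⟨rfl, rfl⟩ | ⟨rfl, rfl⟩
      · exact a2.symm
      · exact a1.symm
    · rcases he with ⟨rfl, rfl⟩ | ⟨rfl, rfl⟩
      · exact a1
      · exact a2
  have y'I := (mem_filter.1 y'F).2.2
  have fa : ∀ z ∈ F, Con G U t (insert z X) (insert y' X) := by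
    intro z hz
    obtain ⟨_, a1, a2⟩ := mem_filter.1 hz
    exact ih X z y' y ⟨h.card, h.clq, a1, h.n2, h.iX, int_in z a2, h.i2⟩ ey h.n1.notMem
      (int_ne z y a2 ey) (int_ne y' y y'I ey)
  have f1 : ∀ z ∈ F, ¬ G.Adj y z := fun z hz hyz =>
    hc ((con_face h.card h.clq h.n1 (mem_filter.1 hz).2.1 hyz).trans (fa z hz))
  have eX : ∀ e ∈ E, Nb G U X e := fun e he' => (mem_filter.1 he').2.sub (subset_insert _ _)
  have eY : ∀ e ∈ E, G.Adj y e := fun e he' => (mem_filter.1 he').2.2 y (mem_insert_self _ _)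
  have fb : ∀ e ∈ E, ∀ z ∈ F, ¬ G.Adj e z := fun e he' z hz hez =>
    hc ((con_face h.card h.clq h.n1 (eX e he') (eY e he')).trans
      ((con_face h.card h.clq (eX e he') (mem_filter.1 hz).2.1 hez).trans (fa z hz)))
  have nearI : ∀ w z, lo ≤ w ∧ w ≤ hi → lo ≤ z ∧ z ≤ hi → |c w - c z| ≤ K := by
    intro w z hw hz
    have := L.mono hw.1; have := L.mono hw.2; have := L.mono hz.1; have := L.mono hz.2
    rw [abs_le]; omega
  have nearE : ∀ w, lo ≤ w ∧ w ≤ hi → ∀ e ∈ E, |c w - c e| ≤ K := by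
    intro w hw e he'
    have a1 := L.near _ _ (eY e he')
    have a2 := L.near _ _ ((eX e he').2 x hx)
    have := L.mono hw.1; have := L.mono hw.2
    rw [abs_le] at *
    rcases he with ⟨rfl, rfl⟩ | ⟨rfl, rfl⟩ <;> omega
  have cnt : 2 * D < #E + #(F ∪ Fy) := by
    have := L.count (p := x) (q := y) (E := E) (F := F ∪ Fy) hle hn h1 h2 c0.1 nx.1 ny.1 i0
      (h.iX x hx) h.i1 (fun z a1 a2 a3 => mem_filter.2 ⟨a1.1, by
        rw [← hins]; exact (a1.insert a2).insert a3⟩) (fun z a1 a2 a3 a4 => by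
        rcases a4 with a4 | a4
        · exact mem_union_left _ (mem_filter.2 ⟨a1.1, by rw [← hins]; exact a1.insert a4, a2, a3⟩)
        · exact mem_union_right _ (mem_filter.2 ⟨a1.1, a1.insert a4, a2, a3⟩))
    have e : (t : ℝ) = #X0 + 2 := by rw [← h.card, ← hcard]; push_cast; ring
    rw [e] at this
    linarith
  have cF : (#F : ℝ) ≤ D := L.card_le h.n1.1 fun z hz =>
    ⟨(mem_filter.1 hz).1, nearI _ _ h.i1 (int_in z (mem_filter.1 hz).2.2), f1 z hz⟩
  have cU : (#(F ∪ Fy) : ℝ) ≤ #F + #Fy := by exact_mod_cast card_union_le F Fy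
  have cy : Clq G U (insert y X0) := c0.insert ny
  have iy := mem_insert_iX i0 h.i1
  have nxy : Nb G U (insert y X0) x := nx.insert xy.symm
  have hyX : insert y X = insert x (insert y X0) := by rw [insert_comm, hins]
  have wY : ∀ w ∈ Fy, G.Adj y w := fun w hw => (mem_filter.1 hw).2.1.2 y (mem_insert_self _ _)
  have w0 : ∀ w ∈ Fy, Nb G U X0 w := fun w hw => (mem_filter.1 hw).2.1.sub (subset_insert _ _)
  by_cases hB : ∃ w ∈ Fy, Con G U t (insert w (insert y X0)) (insert y X)
  · obtain ⟨w1, hw1, hcon⟩ := hB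
    have all : ∀ w ∈ Fy, Con G U t (insert y X) (insert w (insert y X0)) := by
      intro w hw
      obtain ⟨_, a1, a2⟩ := mem_filter.1 hw
      obtain ⟨_, b1, b2⟩ := mem_filter.1 hw1
      refine (con_symm hcon).trans (ih _ w1 w x ⟨cins y ny, cy, b1, a1, iy, int_in _ b2,
        int_in _ a2⟩ ex nxy.notMem (int_ne _ _ b2 ex) (int_ne _ _ a2 ex))
    have noe : ∀ w ∈ Fy, ∀ z ∈ F, ¬ G.Adj z w := by
      intro w hw z hz hzw
      obtain ⟨_, a1, a2⟩ := mem_filter.1 hw
      obtain ⟨_, b1, b2⟩ := mem_filter.1 hz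
      have nz : Nb G U X0 z := b1.sub hsub
      have s1 := ih (insert w X0) y z x ⟨cins w (w0 w hw), c0.insert (w0 w hw),
        ny.insert (wY w hw).symm, nz.insert hzw.symm, mem_insert_iX i0 (int_in _ a2), h.i1,
        int_in _ b2⟩ ex (by
          rw [mem_insert, not_or]; exact ⟨int_ne _ _ a2 ex, x0⟩) xy.ne (int_ne _ _ b2 ex)
      have s2 := ih (insert z X0) w x y ⟨cins z nz, c0.insert nz, (w0 w hw).insert hzw,
        nx.insert (b1.2 x hx).symm, mem_insert_iX i0 (int_in _ b2), int_in _ a2, h.iX x hx⟩ ey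
        (by rw [mem_insert, not_or]; exact ⟨int_ne _ _ b2 ey, ny.notMem⟩) (int_ne _ _ a2 ey)
        xy.ne'
      have s0 := all w hw
      rw [insert_comm w y] at s0
      rw [insert_comm z w] at s1
      rw [insert_comm x z, hins] at s2
      exact hc (s0.trans (s1.trans (s2.trans (fa z hz))))
    have dis : Disjoint E Fy := by
      rw [disjoint_left]
      intro z a1 a2
      exact f1 z (mem_filter.2 ⟨(eX z a1).1, eX z a1, (mem_filter.1 a2).2.2⟩) (eY z a1)
    have c1 : (#(E ∪ Fy) : ℝ) ≤ D := L.card_le h.n2.1 fun z hz => by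
      rcases mem_union.1 hz with hz | hz
      · exact ⟨(eX z hz).1, nearE _ h.i2 z hz, fun a => fb z hz y' y'F a.symm⟩
      · exact ⟨(w0 z hz).1, nearI _ _ h.i2 (int_in z (mem_filter.1 hz).2.2), noe z hz y' y'F⟩
    rw [card_union_of_disjoint dis] at c1
    push_cast at c1
    linarith
  · push Not at hB
    have b1 : ∀ w ∈ Fy, ¬ G.Adj x w := fun w hw a => hB w hw (by
      rw [hyX]; exact con_face (cins y ny) cy (mem_filter.1 hw).2.1 nxy a.symm)
    have b2 : ∀ w ∈ Fy, ∀ e ∈ E, ¬ G.Adj e w := fun w hw e he' a => hB w hw (by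
      have ne : Nb G U (insert y X0) e :=
        (mem_filter.1 he').2.sub (insert_subset_insert _ hsub)
      rw [hyX]
      exact (con_face (cins y ny) cy (mem_filter.1 hw).2.1 ne a.symm).trans
        (con_face (cins y ny) cy ne nxy ((eX e he').2 x hx).symm))
    rcases E.eq_empty_or_nonempty with hE | ⟨e, he'⟩
    · have c1 : (#Fy : ℝ) ≤ D := L.card_le nx.1 fun z hz =>
        ⟨(w0 z hz).1, nearI _ _ (h.iX x hx) (int_in z (mem_filter.1 hz).2.2), b1 z hz⟩
      rw [hE] at cnt
      simp only [card_empty, Nat.cast_zero] at cnt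
      linarith
    · have c1 : (#(F ∪ Fy) : ℝ) ≤ D := L.card_le (eX e he').1 fun z hz => by
        rcases mem_union.1 hz with hz | hz
        · exact ⟨(mem_filter.1 hz).1, by
            rw [abs_sub_comm]; exact nearE _ (int_in z (mem_filter.1 hz).2.2) e he',
            fb e he' z hz⟩
        · exact ⟨(w0 z hz).1, by
            rw [abs_sub_comm]; exact nearE _ (int_in z (mem_filter.1 hz).2.2) e he',
            b2 z hz e he'⟩
      have c2 : (#E : ℝ) ≤ D := L.card_le h.n2.1 fun z hz =>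
        ⟨(eX z hz).1, nearE _ h.i2 z hz, fun a => fb z hz y' y'F a.symm⟩
      linarith

lemma caseA {X : Finset W} {y y' : W} (h : Cfg G U t lo hi X y y')
    (he : (y = lo ∧ y' = hi) ∨ (y = hi ∧ y' = lo)) : Con G U t (insert y X) (insert y' X) := by
  by_contra hc
  have ey : y = lo ∨ y = hi := he.imp And.left And.left
  have ey' : y' = lo ∨ y' = hi := he.symm.imp And.right And.right
  have int_ne : ∀ z e, lo < z ∧ z < hi → (e = lo ∨ e = hi) → e ≠ z := by
    rintro z e hz (rfl | rfl)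
    · exact hz.1.ne
    · exact hz.2.ne'
  have a1 : y ≠ y' := by rintro rfl; exact hc .refl
  have := L.count (p := y) (q := y') (E := ∅) (F := ∅) hle hn h1 h2 h.clq.1 h.n1.1 h.n2.1 h.iX
    h.i1 h.i2 (fun z b1 b2 b3 => (hc ((con_face h.card h.clq h.n1 b1 b2).trans
      (con_face h.card h.clq b1 h.n2 b3.symm))).elim) (fun z b1 b2 b3 _ => (hc ((ih X y z y'
        ⟨h.card, h.clq, h.n1, b1, h.iX, h.i1, b2.le, b3.le⟩ ey' h.n2.notMem a1.symm
        (int_ne _ _ ⟨b2, b3⟩ ey')).trans (ih X z y' y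
        ⟨h.card, h.clq, b1, h.n2, h.iX, ⟨b2.le, b3.le⟩, h.i2⟩ ey h.n1.notMem
        (int_ne _ _ ⟨b2, b3⟩ ey) a1))).elim)
  have e : (t : ℝ) = #X + 1 := by rw [← h.card]; push_cast; ring
  rw [e] at this
  simp only [card_empty, Nat.cast_zero] at this
  linarith

/-- Case C, once a suitable interior vertex is found. -/
lemma caseC_aux {X : Finset W} {x1 x2 y y' w : W} (h : Cfg G U t lo hi X y y') (hx1 : x1 ∈ X)
    (hx2 : x2 ∈ X) (he : (x1 = lo ∧ x2 = hi) ∨ (x1 = hi ∧ x2 = lo)) (hne : x1 ≠ x2)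
    (hw : Nb G U (X.erase x2) w) (hwy : G.Adj y w) (hwy' : G.Adj y' w) (hI : lo < w ∧ w < hi) :
    Con G U t (insert y X) (insert y' X) := by
  set X2 := X.erase x2
  have hins : insert x2 X2 = X := insert_erase hx2
  have hcard : #X2 + 1 = #X := card_erase_add_one hx2
  have hsub : X2 ⊆ X := erase_subset _ _
  have c0 : Clq G U X2 := h.clq.sub hsub
  have i0 : ∀ z ∈ X2, lo ≤ z ∧ z ≤ hi := fun z hz => h.iX z (hsub hz)
  have nx : Nb G U X2 x2 := h.clq.nb_erase hx2
  have cins : ∀ z, Nb G U X2 z → #(insert z X2) + 1 = t := fun z hz => by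
    rw [card_insert_of_notMem hz.notMem, hcard, h.card]
  have wI : lo ≤ w ∧ w ≤ hi := ⟨hI.1.le, hI.2.le⟩
  have ex : x2 = lo ∨ x2 = hi := he.symm.imp And.right And.right
  have key : ∀ u, Nb G U X u → lo ≤ u ∧ u ≤ hi → G.Adj u w →
      Con G U t (insert u X) (insert u (insert w X2)) := by
    intro u hu uI huw
    have nu : Nb G U X2 u := hu.sub hsub
    have := L.caseB hle hn h1 h2 ih (x := x1) (X := insert u X2) (y := x2) (y' := w)
      ⟨cins u nu, c0.insert nu, nx.insert (hu.2 x2 hx2).symm, hw.insert huw,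
        mem_insert_iX i0 uI, h.iX x2 hx2, wI⟩
      (mem_insert_of_mem (mem_erase.2 ⟨hne, hx1⟩)) he
    rwa [insert_comm x2 u, hins, insert_comm w u] at this
  have mid := ih (insert w X2) y y' x2 ⟨cins w hw, c0.insert hw, (h.n1.sub hsub).insert hwy.symm,
    (h.n2.sub hsub).insert hwy'.symm, mem_insert_iX i0 wI, h.i1, h.i2⟩ ex (by
      rw [mem_insert, not_or]
      refine ⟨?_, notMem_erase _ _⟩
      rcases ex with rfl | rfl
      · exact hI.1.ne
      · exact hI.2.ne') (h.n1.2 x2 hx2).ne (h.n2.2 x2 hx2).ne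
  exact (key y h.n1 h.i1 hwy).trans (mid.trans (con_symm (key y' h.n2 h.i2 hwy')))

lemma caseC {X : Finset W} {y y' : W} (h : Cfg G U t lo hi X y y') (hlo : lo ∈ X)
    (hhi : hi ∈ X) : Con G U t (insert y X) (insert y' X) := by
  by_contra hc
  have a1 : y ≠ y' := by rintro rfl; exact hc .refl
  have hne : lo ≠ hi := by
    rintro rfl
    exact h.n1.notMem (le_antisymm h.i1.1 h.i1.2 ▸ hlo)
  set X0 := (X.erase lo).erase hi
  have hsub : X0 ⊆ X := (erase_subset _ _).trans (erase_subset _ _)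
  have k1 : #X0 + 1 = #(X.erase lo) := card_erase_add_one (mem_erase.2 ⟨hne.symm, hhi⟩)
  have k2 : #(X.erase lo) + 1 = #X := card_erase_add_one hlo
  have e1 : insert hi X0 = X.erase lo := insert_erase (mem_erase.2 ⟨hne.symm, hhi⟩)
  have e2 : insert lo X0 = X.erase hi := by
    rw [show X0 = (X.erase hi).erase lo from erase_right_comm]
    exact insert_erase (mem_erase.2 ⟨hne, hlo⟩)
  have e3 : insert lo (insert hi X0) = X := by rw [e1, insert_erase hlo]
  have i0 : ∀ z ∈ X0, lo ≤ z ∧ z ≤ hi := fun z hz => h.iX z (hsub hz)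
  have s0 : X0 ⊆ insert y (insert y' X0) := (subset_insert _ _).trans (subset_insert _ _)
  have m1 : y ∈ insert y (insert y' X0) := mem_insert_self _ _
  have m2 : y' ∈ insert y (insert y' X0) := mem_insert_of_mem (mem_insert_self _ _)
  have := L.count (p := lo) (q := hi) (X := insert y (insert y' X0)) (E := ∅) (F := ∅) hle hn h1 h2
    (insert_subset h.n1.1 (insert_subset h.n2.1 (hsub.trans h.clq.1))) (h.clq.1 hlo) (h.clq.1 hhi)
    (mem_insert_iX (mem_insert_iX i0 h.i2) h.i1) ⟨le_rfl, hle⟩ ⟨hle, le_rfl⟩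
    (fun z b1 b2 b3 => by
      have nz : Nb G U X z := by rw [← e3]; exact ((b1.sub s0).insert b3).insert b2
      exact (hc ((con_face h.card h.clq h.n1 nz (b1.2 y m1)).trans
        (con_face h.card h.clq nz h.n2 (b1.2 y' m2).symm))).elim)
    (fun z b1 b2 b3 b4 => by
      rcases b4 with b4 | b4
      · exact (hc (L.caseC_aux hle hn h1 h2 ih h hlo hhi (.inl ⟨rfl, rfl⟩) hne
          (by rw [← e2]; exact (b1.sub s0).insert b4) (b1.2 y m1) (b1.2 y' m2) ⟨b2, b3⟩)).elim
      · exact (hc (L.caseC_aux hle hn h1 h2 ih h hhi hlo (.inr ⟨rfl, rfl⟩) hne.symm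
          (by rw [← e1]; exact (b1.sub s0).insert b4) (b1.2 y m1) (b1.2 y' m2) ⟨b2, b3⟩)).elim)
  have k3 : #(insert y (insert y' X0)) ≤ #X0 + 2 :=
    (card_insert_le _ _).trans (Nat.succ_le_succ (card_insert_le _ _))
  have k4 : (#(insert y (insert y' X0)) : ℝ) + 1 ≤ t := by
    have := h.card
    exact_mod_cast (by omega)
  simp only [card_empty, Nat.cast_zero] at this
  nlinarith [L.nonneg]

end Line

end Pool.Agent.MP_61e9ba_co

end MrgPart1

-- ======== part 2: formerly Pool.Agent.MP_61e9ba_co.Zone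
section MrgPart2

/-!
Tight connectivity of all cliques of size `t` in the zone, and chains to a clique of size `t + 2`.
-/

namespace Pool.Agent.MP_61e9ba_co

open Finset Relation

open scoped Classical

variable {W : Type} [LinearOrder W]
variable {G : SimpleGraph W} {c : W → ℤ} {U : Finset W} {t K : ℕ} {D s : ℝ} {A B : ℤ}

lemma Cfg.shrink {lo hi : W} {X : Finset W} {y y' : W} (h : Cfg G U t lo hi X y y') :
    ∃ lo' ∈ insert y (insert y' X), ∃ hi' ∈ insert y (insert y' X),
      lo ≤ lo' ∧ lo' ≤ hi' ∧ hi' ≤ hi ∧ Cfg G U t lo' hi' X y y' := by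
  have ne : (insert y (insert y' X)).Nonempty := insert_nonempty _ _
  have hI := mem_insert_iX (mem_insert_iX h.iX h.i2) h.i1
  have b : ∀ z ∈ insert y (insert y' X), (insert y (insert y' X)).min' ne ≤ z ∧
      z ≤ (insert y (insert y' X)).max' ne := fun z hz => ⟨min'_le _ _ hz, le_max' _ _ hz⟩
  exact ⟨_, min'_mem _ ne, _, max'_mem _ ne, (hI _ (min'_mem _ ne)).1, min'_le_max' _ _,
    (hI _ (max'_mem _ ne)).2, h.card, h.clq, h.n1, h.n2,
    fun z hz => b z (mem_insert_of_mem (mem_insert_of_mem hz)), b _ (mem_insert_self _ _),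
    b _ (mem_insert_of_mem (mem_insert_self _ _))⟩

lemma Cfg.subU {lo hi : W} {X : Finset W} {y y' : W} (h : Cfg G U t lo hi X y y') :
    insert y (insert y' X) ⊆ U := insert_subset h.n1.1 (insert_subset h.n2.1 h.clq.1)

lemma card_hull_lt {lo hi lo' hi' e : W} (h1 : lo ≤ lo') (h2 : hi' ≤ hi) (hle : lo ≤ hi)
    (he : e = lo ∨ e = hi) (heU : e ∈ U) (h3 : e ≠ lo') (h4 : e ≠ hi') :
    #{z ∈ U | lo' ≤ z ∧ z ≤ hi'} < #{z ∈ U | lo ≤ z ∧ z ≤ hi} := by
  apply card_lt_card
  refine ⟨fun z hz => ?_, fun hs => ?_⟩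
  · rw [mem_filter] at hz ⊢
    exact ⟨hz.1, h1.trans hz.2.1, hz.2.2.trans h2⟩
  · have : e ∈ {z ∈ U | lo ≤ z ∧ z ≤ hi} := by
      rcases he with rfl | rfl
      · exact mem_filter.2 ⟨heU, le_rfl, hle⟩
      · exact mem_filter.2 ⟨heU, hle, le_rfl⟩
    have k := (mem_filter.1 (hs this)).2
    rcases he with rfl | rfl
    · exact h3 (le_antisymm h1 k.1)
    · exact h4 (le_antisymm k.2 h2)

/-- All vertices of `X` have their cell in the zone `[A + K, B - K]`. -/
def Zn (c : W → ℤ) (K : ℕ) (A B : ℤ) (x : W) : Prop := A + K ≤ c x ∧ c x + K ≤ B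

/-- A clique of size `t` in the zone. -/
def ZC (G : SimpleGraph W) (c : W → ℤ) (U : Finset W) (t K : ℕ) (A B : ℤ) (Y : Finset W) : Prop :=
  #Y = t ∧ Clq G U Y ∧ ∀ x ∈ Y, Zn c K A B x

namespace Line

variable (L : Line G c U t K D s A B)
include L

lemma mainP (n : ℕ) : ∀ lo hi, #{z ∈ U | lo ≤ z ∧ z ≤ hi} = n → c hi - c lo ≤ K → A + K ≤ c lo →
    c hi + K ≤ B → ∀ X y y', Cfg G U t lo hi X y y' → Con G U t (insert y X) (insert y' X) := by
  induction n using Nat.strong_induction_on with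
  | _ n IH =>
  intro lo hi hc hn h1 h2 X y y' h
  obtain ⟨a, ha, b, hb, e1, e2, e3, h'⟩ := h.shrink
  have m1 := L.mono e1
  have m3 := L.mono e3
  have hab : #{z ∈ U | a ≤ z ∧ z ≤ b} ≤ n := by
    rw [← hc]
    apply card_le_card
    intro z hz
    rw [mem_filter] at hz ⊢
    exact ⟨hz.1, e1.trans hz.2.1, hz.2.2.trans e3⟩
  have ind : Ind G U t a b := by
    intro X1 y1 y2 e k he n1 n2 n3
    obtain ⟨a', ha', b', hb', f1, f2, f3, k'⟩ := k.shrink
    have ne : e ∉ insert y1 (insert y2 X1) := by simp [n1, n2, n3]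
    have := L.mono f1
    have := L.mono f3
    refine IH _ (lt_of_lt_of_le (card_hull_lt f1 f3 e2 he ?_ ?_ ?_) hab) a' b' rfl (by omega)
      (by omega) (by omega) _ _ _ k'
    · rcases he with rfl | rfl
      · exact h.subU ha
      · exact h.subU hb
    · rintro rfl; exact ne ha'
    · rintro rfl; exact ne hb'
  have hn' : c b - c a ≤ K := by omega
  have h1' : A + K ≤ c a := by omega
  have h2' : c b + K ≤ B := by omega
  have eq : ∀ u, a ≤ u ∧ u ≤ b → a = b → u = a := fun u hu e => le_antisymm (e ▸ hu.2) hu.1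
  simp only [mem_insert] at ha hb
  rcases ha with ha | ha | ha <;> rcases hb with hb | hb | hb
  · rw [eq y' h'.i2 (ha.trans hb.symm), ha]
  · exact L.caseA e2 hn' h1' h2' ind h' (.inl ⟨ha.symm, hb.symm⟩)
  · exact L.caseB e2 hn' h1' h2' ind h' hb (.inr ⟨rfl, ha.symm⟩)
  · exact L.caseA e2 hn' h1' h2' ind h' (.inr ⟨hb.symm, ha.symm⟩)
  · rw [eq y h'.i1 (ha.trans hb.symm), ha]
  · exact con_symm (L.caseB e2 hn' h1' h2' ind h'.symm hb (.inr ⟨rfl, ha.symm⟩))
  · exact L.caseB e2 hn' h1' h2' ind h' ha (.inl ⟨rfl, hb.symm⟩)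
  · exact con_symm (L.caseB e2 hn' h1' h2' ind h'.symm ha (.inl ⟨rfl, hb.symm⟩))
  · exact L.caseC e2 hn' h1' h2' ind h' ha hb

omit L [LinearOrder W] in
/-- A set of pairwise close vertices of the zone lies in a window inside the zone. -/
lemma window (hw : A + 3 * K ≤ B) {X : Finset W} (hz : ∀ x ∈ X, Zn c K A B x)
    (hn : ∀ x ∈ X, ∀ y ∈ X, c x - c y ≤ K) :
    ∃ a : ℤ, A + K ≤ a ∧ a + K + K ≤ B ∧ ∀ x ∈ X, a ≤ c x ∧ c x ≤ a + K := by
  rcases X.eq_empty_or_nonempty with rfl | hne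
  · exact ⟨A + K, le_rfl, by omega, by simp⟩
  obtain ⟨m, hm, hmin⟩ := exists_min_image X c hne
  refine ⟨min (c m) (B - 2 * K), ?_, by omega, fun x hx => ?_⟩
  · have := (hz m hm).1; omega
  · have := hmin x hx; have := hn x hx m hm; have := (hz x hx).2; omega

lemma clq_near {X : Finset W} (h : Clq G U X) : ∀ x ∈ X, ∀ y ∈ X, c x - c y ≤ K := by
  intro x hx y hy
  by_cases e : x = y
  · rw [e]; omega
  · exact (abs_le.1 (L.near _ _ (h.2 x hx y hy e))).2

/-- One-step extension inside the zone. -/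
lemma ext_zone (hw : A + 3 * K ≤ B) {X : Finset W} (hX : X ⊆ U) (ht : #X ≤ t)
    (hz : ∀ x ∈ X, Zn c K A B x) (hn : ∀ x ∈ X, ∀ y ∈ X, c x - c y ≤ K) :
    ∃ z, Nb G U X z ∧ Zn c K A B z := by
  obtain ⟨a, a1, a2, a3⟩ := window hw hz hn
  obtain ⟨z, z1, z2, z3⟩ := L.extend hX ht (a := a) (by omega) (by omega) a3
  exact ⟨z, z1, by unfold Zn; omega⟩

lemma ext_ZC (hw : A + 3 * K ≤ B) (d : ℕ) : ∀ X : Finset W, #X + d = t → Clq G U X →
    (∀ x ∈ X, Zn c K A B x) → ∃ Y, X ⊆ Y ∧ ZC G c U t K A B Y := by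
  induction d with
  | zero => exact fun X h1 h2 h3 => ⟨X, Subset.rfl, h1, h2, h3⟩
  | succ d ih =>
    intro X h1 h2 h3
    obtain ⟨z, z1, z2⟩ := L.ext_zone hw h2.1 (by omega) h3 (L.clq_near h2)
    obtain ⟨Y, y1, y2⟩ := ih (insert z X) (by rw [card_insert_of_notMem z1.notMem]; omega)
      (h2.insert z1) (fun x hx => by
        rcases mem_insert.1 hx with rfl | hx
        · exact z2
        · exact h3 x hx)
    exact ⟨Y, (subset_insert _ _).trans y1, y2⟩

omit L in
lemma zn_insert {X : Finset W} {z : W} (h : ∀ x ∈ X, Zn c K A B x) (hz : Zn c K A B z) :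
    ∀ x ∈ insert z X, Zn c K A B x := fun x hx => by
  rcases mem_insert.1 hx with rfl | hx
  · exact hz
  · exact h x hx

/-- Cliques of size `t` in the zone with a common face of size `t - d` are connected. -/
lemma con_of_face (hw : A + 3 * K ≤ B) (d : ℕ) : ∀ X Y Y' : Finset W, #X + d = t →
    ZC G c U t K A B Y → ZC G c U t K A B Y' → X ⊆ Y → X ⊆ Y' → Con G U t Y Y' := by
  induction d with
  | zero =>
    intro X Y Y' h1 hY hY' s1 s2
    rw [← eq_of_subset_of_card_le s1 (by have := hY.1; omega),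
      ← eq_of_subset_of_card_le s2 (by have := hY'.1; omega)]
  | succ d ih =>
    intro X Y Y' h1 hY hY' s1 s2
    have cX : Clq G U X := hY.2.1.sub s1
    have zX : ∀ x ∈ X, Zn c K A B x := fun x hx => hY.2.2 x (s1 hx)
    have ext : ∀ Z : Finset W, Clq G U Z → (∀ x ∈ Z, Zn c K A B x) → #Z ≤ t →
        ∃ Y, Z ⊆ Y ∧ ZC G c U t K A B Y := fun Z a1 a2 a3 =>
      L.ext_ZC hw (t - #Z) Z (by omega) a1 a2
    have cins : ∀ u, Nb G U X u → #(insert u X) = #X + 1 := fun u hu =>
      card_insert_of_notMem hu.notMem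
    -- close common neighbours
    have close : ∀ u u' Y1 Y2, Nb G U X u → Nb G U X u' → c u ≤ c u' → c u' - c u ≤ K →
        ZC G c U t K A B Y1 → ZC G c U t K A B Y2 → insert u X ⊆ Y1 → insert u' X ⊆ Y2 →
        Con G U t Y1 Y2 := by
      intro u u' Y1 Y2 nu nu' k1 k2 z1 z2 t1 t2
      have zu := z1.2.2 u (t1 (mem_insert_self _ _))
      have zu' := z2.2.2 u' (t2 (mem_insert_self _ _))
      have zall := zn_insert (zn_insert zX zu') zu
      have hn : ∀ x ∈ insert u (insert u' X), ∀ y ∈ insert u (insert u' X), c x - c y ≤ K := by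
        intro x hx y hy
        have q1 := L.clq_near (cX.insert nu)
        have q2 := L.clq_near (cX.insert nu')
        simp only [mem_insert] at hx hy q1 q2
        rcases hx with rfl | rfl | hx <;> rcases hy with rfl | rfl | hy
        · omega
        · omega
        · exact q1 _ (.inl rfl) _ (.inr hy)
        · omega
        · omega
        · exact q2 _ (.inl rfl) _ (.inr hy)
        · exact q1 _ (.inr hx) _ (.inl rfl)
        · exact q2 _ (.inr hx) _ (.inl rfl)
        · exact q1 _ (.inr hx) _ (.inr hy)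
      rcases Nat.eq_zero_or_pos d with hd | hd
      · have e1 : insert u X = Y1 := eq_of_subset_of_card_le t1 (by
          rw [cins u nu, z1.1]; omega)
        have e2 : insert u' X = Y2 := eq_of_subset_of_card_le t2 (by
          rw [cins u' nu', z2.1]; omega)
        rw [← e1, ← e2]
        set S := insert u (insert u' X)
        have ne : S.Nonempty := insert_nonempty _ _
        have b : ∀ z ∈ S, S.min' ne ≤ z ∧ z ≤ S.max' ne := fun z hz =>
          ⟨min'_le _ _ hz, le_max' _ _ hz⟩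
        exact L.mainP _ (S.min' ne) (S.max' ne) rfl (hn _ (max'_mem _ _) _ (min'_mem _ _))
          (zall _ (min'_mem _ _)).1 (zall _ (max'_mem _ _)).2 X u u'
          ⟨by omega, cX, nu, nu', fun z hz => b z (mem_insert_of_mem (mem_insert_of_mem hz)),
            b _ (mem_insert_self _ _), b _ (mem_insert_of_mem (mem_insert_self _ _))⟩
      · obtain ⟨z, nz, zz⟩ := L.ext_zone hw (X := insert u (insert u' X))
          (insert_subset nu.1 (insert_subset nu'.1 cX.1))
          ((card_insert_le _ _).trans (by rw [cins u' nu']; omega)) zall hn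
        have n0 : Nb G U X z := nz.sub ((subset_insert _ _).trans (subset_insert _ _))
        have n1 : Nb G U (insert u X) z := nz.sub (insert_subset_insert _ (subset_insert _ _))
        have n2 : Nb G U (insert u' X) z := nz.sub (subset_insert _ _)
        obtain ⟨Z1, r1, r2⟩ := ext _ ((cX.insert nu).insert n1) (zn_insert (zn_insert zX zu) zz)
          ((card_insert_le _ _).trans (by rw [cins u nu]; omega))
        obtain ⟨Z2, r3, r4⟩ := ext _ ((cX.insert nu').insert n2) (zn_insert (zn_insert zX zu') zz)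
          ((card_insert_le _ _).trans (by rw [cins u' nu']; omega))
        exact (ih _ _ _ (by rw [cins u nu]; omega) z1 r2 t1 ((subset_insert _ _).trans r1)).trans
          ((ih (insert z X) _ _ (by rw [cins z n0]; omega) r2 r4
            ((insert_subset_insert _ (subset_insert _ _)).trans r1)
            ((insert_subset_insert _ (subset_insert _ _)).trans r3)).trans
          (ih _ _ _ (by rw [cins u' nu']; omega) r4 z2 ((subset_insert _ _).trans r3) t2))
    have far : ∀ n : ℕ, ∀ u u' Y1 Y2, Nb G U X u → Nb G U X u' → c u ≤ c u' → c u' - c u ≤ n →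
        ZC G c U t K A B Y1 → ZC G c U t K A B Y2 → insert u X ⊆ Y1 → insert u' X ⊆ Y2 →
        Con G U t Y1 Y2 := by
      intro n
      induction n with
      | zero =>
        intro u u' Y1 Y2 nu nu' k1 k2
        exact close u u' Y1 Y2 nu nu' k1 (by omega)
      | succ n ihn =>
        intro u u' Y1 Y2 nu nu' k1 k2 z1 z2 t1 t2
        by_cases k3 : c u' - c u ≤ K
        · exact close u u' Y1 Y2 nu nu' k1 k3 z1 z2 t1 t2
        have zu := z1.2.2 u (t1 (mem_insert_self _ _))
        have zu' := z2.2.2 u' (t2 (mem_insert_self _ _))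
        unfold Zn at zu zu'
        obtain ⟨z, nz, k4, k5⟩ := L.extend cX.1 (by omega) (a := c u + 1) (by omega) (by omega)
          (fun x hx => by
            have := abs_le.1 (L.near _ _ (nu.2 x hx))
            have := abs_le.1 (L.near _ _ (nu'.2 x hx))
            omega)
        obtain ⟨Z, r1, r2⟩ := ext _ (cX.insert nz) (zn_insert zX (by unfold Zn; omega))
          (by rw [cins z nz]; omega)
        exact (close u z Y1 Z nu nz (by omega) (by omega) z1 r2 t1 r1).trans
          (ihn z u' Z Y2 nz nu' (by omega) (by push_cast at k2; omega) r2 z2 r1 t2)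
    have pick : ∀ Y1, ZC G c U t K A B Y1 → X ⊆ Y1 → ∃ u, Nb G U X u ∧ insert u X ⊆ Y1 := by
      intro Y1 z1 t1
      obtain ⟨u, u1, u2⟩ := exists_mem_notMem_of_card_lt_card (s := X) (t := Y1)
        (by rw [z1.1]; omega)
      exact ⟨u, ⟨z1.2.1.1 u1, fun x hx => z1.2.1.2 x (t1 hx) u u1 (by rintro rfl; exact u2 hx)⟩,
        insert_subset u1 t1⟩
    obtain ⟨u, nu, t1⟩ := pick Y hY s1
    obtain ⟨u', nu', t2⟩ := pick Y' hY' s2
    rcases le_total (c u) (c u') with k | k
    · exact far (c u' - c u).toNat u u' Y Y' nu nu' k (by omega) hY hY' t1 t2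
    · exact con_symm (far (c u - c u').toNat u' u Y' Y nu' nu k (by omega) hY' hY t2 t1)

/-- All cliques of size `t` in the zone are connected. -/
theorem con_all (hw : A + 3 * K ≤ B) {Y Y' : Finset W} (hY : ZC G c U t K A B Y)
    (hY' : ZC G c U t K A B Y') : Con G U t Y Y' :=
  L.con_of_face hw t ∅ Y Y' (by simp) hY hY' (empty_subset _) (empty_subset _)

end Line

/-- `z` and `z'` have a clique of size `t` of the zone in their common neighbourhood. -/
def Tw (G : SimpleGraph W) (c : W → ℤ) (U : Finset W) (t K : ℕ) (A B : ℤ) (z z' : W) : Prop :=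
  ∃ X, ZC G c U t K A B X ∧ Nb G U X z ∧ Nb G U X z'

/-- `z` lies in a clique of size `t + 2` containing a clique of size `t` of the zone. -/
def Big (G : SimpleGraph W) (c : W → ℤ) (U : Finset W) (t K : ℕ) (A B : ℤ) (z : W) : Prop :=
  ∃ X w, ZC G c U t K A B X ∧ Nb G U X z ∧ Nb G U X w ∧ G.Adj z w

theorem Line.chain (L : Line G c U t K D s A B) (ht : 1 ≤ t) (n : ℕ) :
    ∀ (Q : Finset W) (lo hi : W), #{z ∈ U | lo ≤ z ∧ z ≤ hi} = n → #Q = t + 1 → Clq G U Q →
      (∀ x ∈ Q, Zn c K A B x) → lo ∈ Q → hi ∈ Q → (∀ x ∈ Q, lo ≤ x ∧ x ≤ hi) → ∀ x ∈ Q,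
      ∃ z, ReflTransGen (Tw G c U t K A B) x z ∧ Big G c U t K A B z := by
  induction n using Nat.strong_induction_on with
  | _ n IH =>
  intro Q lo hi hc hQ cQ zQ hlo hhi hI x hx
  have hle : lo ≤ hi := (hI hi hhi).1
  have hne : lo ≠ hi := by
    rintro rfl
    have : Q ⊆ {lo} := fun z hz => mem_singleton.2 (le_antisymm (hI z hz).2 (hI z hz).1)
    have := card_le_card this
    simp at this; omega
  have er : ∀ e ∈ Q, ZC G c U t K A B (Q.erase e) := fun e he =>
    ⟨by rw [card_erase_of_mem he, hQ]; rfl, cQ.sub (erase_subset _ _),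
      fun z hz => zQ z (mem_of_mem_erase hz)⟩
  have step : ∀ e ∈ Q, (e = lo ∨ e = hi) → ∀ w, Nb G U (Q.erase e) w → lo < w → w < hi →
      ∃ z, ReflTransGen (Tw G c U t K A B) x z ∧ Big G c U t K A B z := by
    intro e he hend w nw w1 w2
    set Q' := insert w (Q.erase e)
    have ne : Q'.Nonempty := insert_nonempty _ _
    have hI' : ∀ z ∈ Q', lo ≤ z ∧ z ≤ hi :=
      mem_insert_iX (fun z hz => hI z (mem_of_mem_erase hz)) ⟨w1.le, w2.le⟩
    have eQ : e ∉ Q' := by
      rw [mem_insert, not_or]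
      refine ⟨?_, notMem_erase _ _⟩
      rcases hend with rfl | rfl
      · exact w1.ne
      · exact w2.ne'
    have zw : Zn c K A B w := by
      have := L.mono w1.le; have := L.mono w2.le
      have := (zQ lo hlo).1; have := (zQ hi hhi).2
      unfold Zn; omega
    have key := IH _ (hc ▸ card_hull_lt (hI' _ (min'_mem _ ne)).1 (hI' _ (max'_mem _ ne)).2 hle hend
      (cQ.1 he) (fun h => eQ (h ▸ min'_mem _ ne)) (fun h => eQ (h ▸ max'_mem _ ne)))
      Q' _ _ rfl (by rw [card_insert_of_notMem nw.notMem, (er e he).1]) ((er e he).2.1.insert nw)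
      (Line.zn_insert (er e he).2.2 zw) (min'_mem _ ne) (max'_mem _ ne)
      (fun z hz => ⟨min'_le _ _ hz, le_max' _ _ hz⟩)
    by_cases hxe : x = e
    · obtain ⟨z, z1, z2⟩ := key w (mem_insert_self _ _)
      exact ⟨z, .head ⟨Q.erase e, er e he, hxe ▸ cQ.nb_erase hx, nw⟩ z1, z2⟩
    · exact key x (mem_insert_of_mem (mem_erase.2 ⟨hxe, hx⟩))
  by_contra hcon
  set X0 := (Q.erase lo).erase hi
  have hsub : X0 ⊆ Q := (erase_subset _ _).trans (erase_subset _ _)
  have k1 : #X0 + 1 = #(Q.erase lo) := card_erase_add_one (mem_erase.2 ⟨hne.symm, hhi⟩)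
  have e1 : insert hi X0 = Q.erase lo := insert_erase (mem_erase.2 ⟨hne.symm, hhi⟩)
  have e2 : insert lo X0 = Q.erase hi := by
    rw [show X0 = (Q.erase hi).erase lo from erase_right_comm]
    exact insert_erase (mem_erase.2 ⟨hne, hlo⟩)
  have e3 : insert lo (insert hi X0) = Q := by rw [e1, insert_erase hlo]
  have := L.count (p := lo) (q := hi) (X := X0) (E := ∅) (F := ∅) hle (L.clq_near cQ _ hhi _ hlo)
    (zQ lo hlo).1 (zQ hi hhi).2 (hsub.trans cQ.1) (cQ.1 hlo) (cQ.1 hhi)
    (fun z hz => hI z (hsub hz)) ⟨le_rfl, hle⟩ ⟨hle, le_rfl⟩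
    (fun z b1 b2 b3 => by
      have nz : Nb G U Q z := by rw [← e3]; exact (b1.insert b3).insert b2
      exact (hcon ⟨x, .refl, Q.erase x, z, er x hx, cQ.nb_erase hx, nz.sub (erase_subset _ _),
        nz.2 x hx⟩).elim)
    (fun z b1 b2 b3 b4 => by
      rcases b4 with b4 | b4
      · exact (hcon (step hi hhi (.inr rfl) z (by rw [← e2]; exact b1.insert b4) b2 b3)).elim
      · exact (hcon (step lo hlo (.inl rfl) z (by rw [← e1]; exact b1.insert b4) b2 b3)).elim)
  have k4 : (t : ℝ) = #X0 + 1 := by rw [← (er lo hlo).1, ← k1]; push_cast; ring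
  simp only [card_empty, Nat.cast_zero] at this
  rw [k4] at this
  linarith

end Pool.Agent.MP_61e9ba_co

end MrgPart2

-- ======== part 3: formerly Pool.Agent.MP_61e9ba_co.Lists
section MrgPart3

/-!
Power walks as lists.
-/

namespace Pool.Agent.MP_61e9ba_co

open Finset

open scoped Classical

variable {X : Type}

/-- Entries of `l` at distance at most `t` are adjacent. -/
def PW (G : SimpleGraph X) (t : ℕ) (l : List X) : Prop :=
  ∀ (i j : ℕ) u w, l[i]? = some u → l[j]? = some w → i < j → j ≤ i + t → G.Adj u w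

variable {G : SimpleGraph X} {t : ℕ}

lemma lt_of_get {l : List X} {i : ℕ} {u : X} (h : l[i]? = some u) : i < l.length :=
  (List.getElem?_eq_some_iff.1 h).1

lemma PW.left {a b : List X} (h : PW G t (a ++ b)) : PW G t a := fun i j u w hi hj =>
  h i j u w (by rw [List.getElem?_append_left (lt_of_get hi), hi])
    (by rw [List.getElem?_append_left (lt_of_get hj), hj])

lemma PW.right {a b : List X} (h : PW G t (a ++ b)) : PW G t b := fun i j u w hi hj h1 h2 =>
  h (a.length + i) (a.length + j) u w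
    (by rw [List.getElem?_append_right (by omega), Nat.add_sub_cancel_left, hi])
    (by rw [List.getElem?_append_right (by omega), Nat.add_sub_cancel_left, hj])
    (by omega) (by omega)

lemma PW.glue {x b y : List X} (h1 : PW G t (x ++ b)) (h2 : PW G t (b ++ y)) (hb : t ≤ b.length) :
    PW G t (x ++ b ++ y) := by
  intro i j u w hi hj hij hjt
  by_cases hj' : j < (x ++ b).length
  · rw [List.getElem?_append_left hj'] at hj
    rw [List.getElem?_append_left (by omega)] at hi
    exact h1 i j u w hi hj hij hjt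
  · rw [List.length_append] at hj'
    rw [List.append_assoc, List.getElem?_append_right (by omega)] at hi hj
    exact h2 _ _ u w hi hj (by omega) (by omega)

lemma PW.glue_suffix {x b y : List X} (h1 : PW G t x) (hs : b <:+ x) (h2 : PW G t (b ++ y))
    (hb : t ≤ b.length) : PW G t (x ++ y) := by
  obtain ⟨z, rfl⟩ := hs
  exact h1.glue h2 hb

lemma PW.reverse {l : List X} (h : PW G t l) : PW G t l.reverse := by
  intro i j u w hi hj hij hjt
  have h1 := lt_of_get hi
  have h2 := lt_of_get hj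
  rw [List.length_reverse] at h1 h2
  rw [List.getElem?_reverse h1] at hi
  rw [List.getElem?_reverse h2] at hj
  exact (h _ _ w u hj hi (by omega) (by omega)).symm

lemma adj_of_pairwise {l : List X} (h : l.Pairwise G.Adj) {i j : ℕ} {u w : X}
    (hi : l[i]? = some u) (hj : l[j]? = some w) (hij : i < j) : G.Adj u w := by
  obtain ⟨h1, rfl⟩ := List.getElem?_eq_some_iff.1 hi
  obtain ⟨h2, rfl⟩ := List.getElem?_eq_some_iff.1 hj
  exact List.pairwise_iff_getElem.1 h i j h1 h2 hij

lemma pw_of_pairwise {l : List X} (h : l.Pairwise G.Adj) : PW G t l :=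
  fun _ _ _ _ hi hj hij _ => adj_of_pairwise h hi hj hij

lemma PW.pairwise {l : List X} (h : PW G t l) (hl : l.length ≤ t + 1) : l.Pairwise G.Adj :=
  List.pairwise_iff_getElem.2 fun i j h1 h2 hij =>
    h i j _ _ (List.getElem?_eq_getElem h1) (List.getElem?_eq_getElem h2) hij (by omega)

lemma PW.cons {l : List X} {x : X} (h : PW G t l) (hx : ∀ y ∈ l.take t, G.Adj x y) :
    PW G t (x :: l) := by
  intro i j u w hi hj hij hjt
  obtain ⟨j, rfl⟩ : ∃ j', j = j' + 1 := ⟨j - 1, by omega⟩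
  rw [List.getElem?_cons_succ] at hj
  cases i with
  | zero =>
    simp only [List.getElem?_cons_zero, Option.some.injEq] at hi
    subst hi
    refine hx w (List.mem_of_getElem? (i := j) ?_)
    rw [List.getElem?_take_of_lt (by omega), hj]
  | succ i =>
    rw [List.getElem?_cons_succ] at hi
    exact h i j u w hi hj (by omega) (by omega)

lemma pw_mid {a m b : List X} (ha : a.length = t) (hm : m ≠ []) (h1 : (a ++ m).Pairwise G.Adj)
    (h2 : (m ++ b).Pairwise G.Adj)
    (h3 : ∀ (i j : ℕ) u w, a[i]? = some u → b[j]? = some w → j < i → G.Adj u w) :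
    PW G t (a ++ m ++ b) := by
  intro i j u w hi hj hij hjt
  have hm' := List.length_pos_iff.2 hm
  by_cases hj' : j < (a ++ m).length
  · rw [List.getElem?_append_left hj'] at hj
    rw [List.getElem?_append_left (by omega)] at hi
    exact adj_of_pairwise h1 hi hj hij
  · by_cases hi' : i < a.length
    · rw [List.getElem?_append_right (by omega)] at hj
      rw [List.append_assoc, List.getElem?_append_left hi'] at hi
      rw [List.length_append] at hj hj'
      exact h3 _ _ u w hi hj (by omega)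
    · rw [List.append_assoc, List.getElem?_append_right (by omega)] at hi hj
      exact adj_of_pairwise h2 hi hj (by omega)

lemma pw_loop {a m : List X} (ha : a.length = t) (hm : m ≠ []) (h1 : (a ++ m).Pairwise G.Adj) :
    PW G t (a ++ m ++ a) := by
  refine pw_mid ha hm h1 ?_ fun i j u w hi hj hij =>
    (adj_of_pairwise (List.pairwise_append.1 h1).1 hj hi hij).symm
  rw [List.pairwise_append] at h1 ⊢
  exact ⟨h1.2.1, h1.1, fun x hx y hy => (h1.2.2 y hy x hx).symm⟩

lemma PW.inst {Y : Type} {H : SimpleGraph Y} {R : X → Y → Prop}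
    (hR : ∀ x y u w, R x u → R y w → G.Adj x y → H.Adj u w) {l : List X} {l' : List Y}
    (h : List.Forall₂ R l l') (hl : PW G t l) : PW H t l' := by
  intro i j u w hi hj hij hjt
  obtain ⟨h1, rfl⟩ := List.getElem?_eq_some_iff.1 hi
  obtain ⟨h2, rfl⟩ := List.getElem?_eq_some_iff.1 hj
  have e := h.length_eq
  exact hR _ _ _ _ (h.get (e ▸ h1) h1) (h.get (e ▸ h2) h2)
    (hl i j _ _ (List.getElem?_eq_getElem _) (List.getElem?_eq_getElem _) hij hjt)

lemma PW.map {Y : Type} {H : SimpleGraph Y} (f : X → Y) {l : List X} (hl : PW G t l)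
    (hf : ∀ x ∈ l, ∀ y ∈ l, G.Adj x y → H.Adj (f x) (f y)) : PW H t (l.map f) := by
  intro i j u w hi hj hij hjt
  rw [List.getElem?_map, Option.map_eq_some_iff] at hi hj
  obtain ⟨x, hx, rfl⟩ := hi
  obtain ⟨y, hy, rfl⟩ := hj
  exact hf x (List.mem_of_getElem? hx) y (List.mem_of_getElem? hy) (hl i j x y hx hy hij hjt)

lemma pw_nil : PW G t [] := fun _ _ _ _ h => by simp at h

lemma pw_single (x : X) : PW G t [x] := pw_of_pairwise (List.pairwise_singleton _ _)

/-- Greedy growth of a power walk inside a set `S`. -/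
lemma grow_left {S : Finset X} {D : ℝ} (hD : 0 ≤ D) (hS : t * D < #S)
    (hb : ∀ x ∈ S, (#{y ∈ S | ¬ G.Adj x y} : ℝ) ≤ D) {Y : List X}
    (hY : ∀ x ∈ Y, (#{y ∈ S | ¬ G.Adj x y} : ℝ) ≤ D) (h : PW G t Y) (n : ℕ) :
    ∃ Z : List X, Z.length = n ∧ (∀ z ∈ Z, z ∈ S) ∧ PW G t (Z ++ Y) := by
  induction n with
  | zero => exact ⟨[], rfl, by simp, h⟩
  | succ n ih =>
    obtain ⟨Z, z1, z2, z3⟩ := ih
    set T := ((Z ++ Y).take t).toFinset
    have c1 : #T ≤ t := (List.toFinset_card_le _).trans (List.length_take_le _ _)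
    have c2 : (#(T.biUnion fun x => {y ∈ S | ¬ G.Adj x y}) : ℝ) ≤ t * D := by
      calc (#(T.biUnion fun x => {y ∈ S | ¬ G.Adj x y}) : ℝ)
          ≤ ∑ x ∈ T, (#{y ∈ S | ¬ G.Adj x y} : ℝ) := by exact_mod_cast card_biUnion_le
        _ ≤ ∑ _x ∈ T, D := sum_le_sum fun x hx => by
            rcases List.mem_append.1 (List.mem_of_mem_take (List.mem_toFinset.1 hx)) with k | k
            · exact hb x (z2 x k)
            · exact hY x k
        _ = #T * D := by simp
        _ ≤ _ := mul_le_mul_of_nonneg_right (by exact_mod_cast c1) hD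
    obtain ⟨z, k1, k2⟩ := exists_mem_notMem_of_card_lt_card
      (s := T.biUnion fun x => {y ∈ S | ¬ G.Adj x y}) (t := S) (by exact_mod_cast c2.trans_lt hS)
    refine ⟨z :: Z, by simp [z1], by simpa [k1] using z2, z3.cons fun y hy => ?_⟩
    by_contra hn
    exact k2 (mem_biUnion.2 ⟨y, List.mem_toFinset.2 hy, mem_filter.2 ⟨k1, fun a => hn a.symm⟩⟩)

lemma grow_right {S : Finset X} {D : ℝ} (hD : 0 ≤ D) (hS : t * D < #S)
    (hb : ∀ x ∈ S, (#{y ∈ S | ¬ G.Adj x y} : ℝ) ≤ D) {Y : List X}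
    (hY : ∀ x ∈ Y, (#{y ∈ S | ¬ G.Adj x y} : ℝ) ≤ D) (h : PW G t Y) (n : ℕ) :
    ∃ Z : List X, Z.length = n ∧ (∀ z ∈ Z, z ∈ S) ∧ PW G t (Y ++ Z) := by
  obtain ⟨Z, z1, z2, z3⟩ := grow_left hD hS hb (Y := Y.reverse) (by simpa using hY) h.reverse n
  exact ⟨Z.reverse, by simpa using z1, by simpa using z2, by simpa using z3.reverse⟩

/-- Choosing distinct representatives along a list. -/
lemma exists_inst {V : Type} [BEq X] [LawfulBEq X] (l : List X) : ∀ A : X → Finset V,
    (∀ x y, x ≠ y → Disjoint (A x) (A y)) → (∀ x, l.count x ≤ #(A x)) →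
    ∃ l' : List V, List.Forall₂ (fun x v => v ∈ A x) l l' ∧ l'.Nodup ∧
      ∀ x, #(A x \ l'.toFinset) + l.count x = #(A x) := by
  induction l with
  | nil => exact fun A _ _ => ⟨[], .nil, List.nodup_nil, by simp⟩
  | cons x0 l ih =>
    intro A hd hc
    have h0 := hc x0
    rw [List.count_cons_self] at h0
    obtain ⟨v, hv⟩ := card_pos.1 (show 0 < #(A x0) by omega)
    have ne : ∀ x, x ≠ x0 → (A x).erase v = A x := fun x hx =>
      erase_eq_of_notMem fun a => disjoint_left.1 (hd x x0 hx) a hv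
    have cd : ∀ x, #((A x).erase v) + (x0 :: l).count x = #(A x) + l.count x := by
      intro x
      by_cases e : x = x0
      · subst e
        rw [List.count_cons_self, ← card_erase_add_one hv]; omega
      · rw [ne x e, List.count_cons_of_ne (Ne.symm e)]
    obtain ⟨l', k1, k2, k3⟩ := ih (fun x => (A x).erase v)
      (fun x y hxy => (hd x y hxy).mono (erase_subset _ _) (erase_subset _ _))
      (fun x => by have := cd x; have := hc x; omega)
    refine ⟨v :: l', .cons hv (k1.imp fun _ _ h => mem_of_mem_erase h), ?_, fun x => ?_⟩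
    · refine List.nodup_cons.2 ⟨fun hm => ?_, k2⟩
      obtain ⟨i, hi, rfl⟩ := List.getElem_of_mem hm
      exact notMem_erase _ _ (k1.get (k1.length_eq ▸ hi) hi)
    · have e : A x \ (v :: l').toFinset = (A x).erase v \ l'.toFinset := by
        ext y; simp only [List.toFinset_cons, mem_sdiff, mem_insert, mem_erase]; tauto
      have := k3 x
      have := cd x
      rw [e]; omega

lemma exists_inst' {V : Type} (l : List X) (A : X → Finset V)
    (hd : ∀ x y, x ≠ y → Disjoint (A x) (A y)) (h : ∀ x ∈ l, l.length ≤ #(A x)) :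
    ∃ l' : List V, List.Forall₂ (fun x v => v ∈ A x) l l' ∧ l'.Nodup := by
  obtain ⟨l', h1, h2, -⟩ := exists_inst l A hd fun x => by
    by_cases a : x ∈ l
    · exact List.count_le_length.trans (h x a)
    · rw [List.count_eq_zero_of_not_mem a]; omega
  exact ⟨l', h1, h2⟩

lemma forall₂_flatten {V : Type} {R : X → V → Prop} (L : List (List X)) :
    ∀ l : List V, List.Forall₂ R L.flatten l →
      ∃ L' : List (List V), L'.flatten = l ∧ List.Forall₂ (List.Forall₂ R) L L' := by
  induction L with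
  | nil => intro l h; exact ⟨[], by simpa using h, .nil⟩
  | cons a L ih =>
    intro l h
    rw [List.flatten_cons] at h
    obtain ⟨L', k1, k2⟩ := ih _ (List.forall₂_drop_append _ _ _ h.flip).flip
    exact ⟨l.take a.length :: L', by rw [List.flatten_cons, k1, List.take_append_drop],
      .cons (List.forall₂_take_append _ _ _ h.flip).flip k2⟩

lemma mem_of_forall₂ {V : Type} {R : X → V → Prop} {l : List X} {l' : List V}
    (h : List.Forall₂ R l l') {v : V} (hv : v ∈ l') : ∃ x ∈ l, R x v := by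
  obtain ⟨i, hi, rfl⟩ := List.getElem_of_mem hv
  exact ⟨_, List.getElem_mem _, h.get (h.length_eq ▸ hi) hi⟩

end Pool.Agent.MP_61e9ba_co

end MrgPart3

-- ======== part 4: formerly Pool.Agent.MP_61e9ba_co.Walk
section MrgPart4

/-!
From tight connectivity to connecting and absorbing power walks on a line.
-/

namespace Pool.Agent.MP_61e9ba_co

open Finset Relation

open scoped Classical

variable {W : Type} [LinearOrder W]
variable {G : SimpleGraph W} {c : W → ℤ} {U : Finset W} {t K : ℕ} {D s : ℝ} {A B : ℤ}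

/-- A labelled clique of size `t + 1`. -/
def Lab (G : SimpleGraph W) (U : Finset W) (t : ℕ) (f : ℕ → W) : Prop :=
  (∀ i ≤ t, f i ∈ U) ∧ ∀ i ≤ t, ∀ j ≤ t, i ≠ j → G.Adj (f i) (f j)

/-- Two compatible labelled cliques. -/
def Upd (G : SimpleGraph W) (U : Finset W) (t : ℕ) (f g : ℕ → W) : Prop :=
  Lab G U t f ∧ Lab G U t g ∧ ∀ i ≤ t, ∀ j ≤ t, i ≠ j → G.Adj (f i) (g j)

omit [LinearOrder W] in
lemma rch_symm {f g : ℕ → W} (h : ReflTransGen (Upd G U t) f g) : ReflTransGen (Upd G U t) g f := by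
  induction h with
  | refl => exact .refl
  | tail _ h ih => exact .head ⟨h.2.1, h.1, fun i hi j hj e => (h.2.2 j hj i hi e.symm).symm⟩ ih

omit [LinearOrder W] in
lemma Lab.upd {f : ℕ → W} (h : Lab G U t f) {j : ℕ} {y : W} (hy : y ∈ U)
    (ha : ∀ i ≤ t, i ≠ j → G.Adj (f i) y) : Upd G U t f (Function.update f j y) := by
  have k : ∀ i ≤ t, ∀ i' ≤ t, i ≠ i' → i ≠ j → G.Adj (f i) (Function.update f j y i') := by
    intro i hi i' hi' e e'
    by_cases a : i' = j
    · rw [a, Function.update_self]; exact ha i hi e'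
    · rw [Function.update_of_ne a]; exact h.2 i hi i' hi' e
  refine ⟨h, ⟨fun i hi => ?_, fun i hi i' hi' e => ?_⟩, fun i hi i' hi' e => ?_⟩
  · by_cases a : i = j
    · rw [a, Function.update_self]; exact hy
    · rw [Function.update_of_ne a]; exact h.1 i hi
  · by_cases a : i = j
    · rw [Function.update_of_ne (a := i') (a ▸ e.symm)]
      exact (k i' hi' i hi e.symm (a ▸ e.symm)).symm
    · rw [Function.update_of_ne a]; exact k i hi i' hi' e a
  · by_cases a : i = j
    · rw [Function.update_of_ne (a ▸ e.symm)]; exact h.2 i hi i' hi' e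
    · exact k i hi i' hi' e a

lemma Lab.step {f : ℕ → W} (h : Lab G U t f) {Y : Finset W} (hY : #Y = t)
    (hs : ∀ y ∈ Y, ∃ i ≤ t, f i = y) {y : W} (hy : Nb G U Y y) :
    ∃ g, Upd G U t f g ∧ (∀ z ∈ insert y Y, ∃ i ≤ t, g i = z) ∧ ∀ i ≤ t, g i ∈ insert y Y := by
  have inj : Set.InjOn f (range (t + 1) : Finset ℕ) := fun i hi j hj e => by
    by_contra ne
    simp only [coe_range, Set.mem_Iio] at hi hj
    exact (h.2 i (by omega) j (by omega) ne).ne e
  have c1 : #((range (t + 1)).image f) = t + 1 := by rw [card_image_of_injOn inj, card_range]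
  obtain ⟨x, x1, x2⟩ := exists_mem_notMem_of_card_lt_card (s := Y) (t := (range (t + 1)).image f)
    (by omega)
  obtain ⟨j, j1, rfl⟩ := mem_image.1 x1
  have e : Y = ((range (t + 1)).image f).erase (f j) := eq_of_subset_of_card_le (fun z hz => by
    obtain ⟨i, i1, rfl⟩ := hs z hz
    exact mem_erase.2 ⟨fun a => x2 (a ▸ hz), mem_image_of_mem _ (mem_range.2 (by omega))⟩)
    (by rw [card_erase_of_mem x1]; omega)
  have k : ∀ i ≤ t, i ≠ j → f i ∈ Y := fun i hi ne => by
    rw [e]
    exact mem_erase.2 ⟨(h.2 i hi j (by have := mem_range.1 j1; omega) ne).ne,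
      mem_image_of_mem _ (mem_range.2 (by omega))⟩
  refine ⟨_, h.upd (j := j) hy.1 fun i hi ne => hy.2 _ (k i hi ne), fun z hz => ?_, fun i hi => ?_⟩
  · rcases mem_insert.1 hz with rfl | hz
    · exact ⟨j, by have := mem_range.1 j1; omega, Function.update_self ..⟩
    · obtain ⟨i, i1, rfl⟩ := hs z hz
      exact ⟨i, i1, Function.update_of_ne (by rintro rfl; exact x2 hz) _ _⟩
  · by_cases a : i = j
    · rw [a, Function.update_self]; exact mem_insert_self _ _
    · rw [Function.update_of_ne a]; exact mem_insert_of_mem (k i hi a)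

lemma Lab.con {f : ℕ → W} (h : Lab G U t f) {Y Y' : Finset W} (hc : Con G U t Y Y')
    (hs : ∀ y ∈ Y, ∃ i ≤ t, f i = y) :
    ∃ g, ReflTransGen (Upd G U t) f g ∧ Lab G U t g ∧ ∀ y ∈ Y', ∃ i ≤ t, g i = y := by
  induction hc with
  | refl => exact ⟨f, .refl, h, hs⟩
  | tail _ k ih =>
    obtain ⟨g, g1, g2, g3⟩ := ih
    obtain ⟨X, y, y', k1, k2, k3, k4, k5, rfl, rfl⟩ := k
    obtain ⟨g', a1, a2, -⟩ := g2.step (by rw [card_insert_of_notMem k3.notMem, k1]) g3
      (k4.insert k5)
    exact ⟨g', g1.tail a1, a1.2.1, fun z hz => a2 z (insert_subset_insert _ (subset_insert _ _) hz)⟩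

lemma relabel {Q : Finset W} (hQ : Clq G U Q) (hc : t + 2 ≤ #Q) {g : ℕ → W} (hg : Lab G U t g)
    (gQ : ∀ i ≤ t, g i ∈ Q) (n : ℕ) : ∀ f, Lab G U t f → (∀ i ≤ t, f i ∈ Q) →
      #{i ∈ range (t + 1) | f i ≠ g i} ≤ n → ReflTransGen (Upd G U t) f g := by
  have upQ : ∀ (f : ℕ → W) (j : ℕ) (y : W), (∀ i ≤ t, f i ∈ Q) → y ∈ Q →
      ∀ i ≤ t, Function.update f j y i ∈ Q := by
    intro f j y h1 h2 i hi
    by_cases a : i = j
    · rw [a, Function.update_self]; exact h2
    · rw [Function.update_of_ne a]; exact h1 i hi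
  induction n with
  | zero =>
    intro f hf _ h
    refine .single ⟨hf, hg, fun i hi j hj e => ?_⟩
    have : f i = g i := by
      by_contra a
      have : i ∈ {i ∈ range (t + 1) | f i ≠ g i} := mem_filter.2 ⟨mem_range.2 (by omega), a⟩
      have := card_pos.2 ⟨i, this⟩
      omega
    rw [this]; exact hg.2 i hi j hj e
  | succ n ih =>
    have one : ∀ f, Lab G U t f → (∀ i ≤ t, f i ∈ Q) → #{i ∈ range (t + 1) | f i ≠ g i} ≤ n + 1 →
        ∀ j ≤ t, (∀ i ≤ t, f i ≠ g j) → ReflTransGen (Upd G U t) f g := by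
      intro f hf fQ h j hj ne
      have u := hf.upd (j := j) (hg.1 j hj) fun i hi _ => hQ.2 _ (fQ i hi) _ (gQ j hj) (ne i hi)
      refine .head u (ih _ u.2.1 (upQ f j _ fQ (gQ j hj)) ?_)
      have : {i ∈ range (t + 1) | Function.update f j (g j) i ≠ g i} ⊆
          {i ∈ range (t + 1) | f i ≠ g i}.erase j := by
        intro i hi
        rw [mem_filter] at hi
        have a : i ≠ j := by rintro rfl; simp at hi
        rw [Function.update_of_ne a] at hi
        exact mem_erase.2 ⟨a, mem_filter.2 hi⟩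
      have := card_le_card this
      rw [card_erase_of_mem (mem_filter.2 ⟨mem_range.2 (by omega), ne j hj⟩)] at this
      omega
    intro f hf fQ h
    rcases {i ∈ range (t + 1) | f i ≠ g i}.eq_empty_or_nonempty with e | ⟨j, hj⟩
    · exact ih f hf fQ (by rw [e]; simp)
    obtain ⟨j1, j2⟩ := mem_filter.1 hj
    have j3 : j ≤ t := by have := mem_range.1 j1; omega
    by_cases ne : ∀ i ≤ t, f i ≠ g j
    · exact one f hf fQ h j j3 ne
    push Not at ne
    obtain ⟨i0, i1, i2⟩ := ne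
    have i3 : i0 ≠ j := by rintro rfl; exact j2 i2
    obtain ⟨x, x1, x2⟩ := exists_mem_notMem_of_card_lt_card (s := (range (t + 1)).image f) (t := Q)
      (by have := card_image_le (s := range (t + 1)) (f := f); rw [card_range] at this; omega)
    have x3 : ∀ i ≤ t, f i ≠ x := fun i hi a =>
      x2 (a ▸ mem_image_of_mem _ (mem_range.2 (by omega)))
    have u := hf.upd (j := i0) (hQ.1 x1) fun i hi _ => hQ.2 _ (fQ i hi) _ x1 (x3 i hi)
    refine .head u (one _ u.2.1 (upQ f i0 _ fQ x1) (le_trans (card_le_card fun i hi => ?_) h) j j3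
      fun i hi => ?_)
    · rw [mem_filter] at hi ⊢
      by_cases a : i = i0
      · rw [a, i2]; exact ⟨mem_range.2 (by omega), (hg.2 j j3 i0 i1 i3.symm).ne⟩
      · rwa [Function.update_of_ne a] at hi
    · by_cases a : i = i0
      · rw [a, Function.update_self, ← i2]; exact (x3 i0 i1).symm
      · rw [Function.update_of_ne a, ← i2]; exact (hf.2 i hi i0 i1 a).ne

omit [LinearOrder W] in
lemma Upd.pw {f g : ℕ → W} (h : Upd G U t f g) :
    PW G t ((List.range t).map f ++ [f t] ++ (List.range t).map g) := by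
  have k : ∀ {f : ℕ → W}, Lab G U t f → ((List.range t).map f).Pairwise G.Adj := fun hf => by
    rw [List.pairwise_map]
    exact List.pairwise_lt_range.imp_of_mem fun ha hb e => hf.2 _ (List.mem_range.1 ha).le _
      (List.mem_range.1 hb).le e.ne
  refine pw_mid (by simp) (by simp) ?_ ?_ fun i j u w hi hj hij => ?_
  · rw [List.pairwise_append]
    refine ⟨k h.1, by simp, fun a ha b hb => ?_⟩
    obtain ⟨i, hi, rfl⟩ := List.mem_map.1 ha
    rw [List.mem_singleton.1 hb]
    exact h.1.2 i (List.mem_range.1 hi).le t le_rfl (List.mem_range.1 hi).ne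
  · rw [List.pairwise_append]
    refine ⟨by simp, k h.2.1, fun a ha b hb => ?_⟩
    obtain ⟨i, hi, rfl⟩ := List.mem_map.1 hb
    rw [List.mem_singleton.1 ha]
    exact h.2.2 t le_rfl i (List.mem_range.1 hi).le (List.mem_range.1 hi).ne'
  · have h1 := lt_of_get hi
    have h2 := lt_of_get hj
    simp only [List.length_map, List.length_range] at h1 h2
    simp only [List.getElem?_map, List.getElem?_range h1, List.getElem?_range h2, Option.map_some,
      Option.some.injEq] at hi hj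
    rw [← hi, ← hj]
    exact h.2.2 i h1.le j h2.le hij.ne'

omit [LinearOrder W] in
lemma rch_pw {f g : ℕ → W} (hf : Lab G U t f) (h : ReflTransGen (Upd G U t) f g) :
    ∃ p : List W, (∀ x ∈ p, x ∈ U) ∧
      PW G t ((List.range t).map f ++ p ++ (List.range t).map g) := by
  induction h with
  | refl => exact ⟨[f t], by simpa using hf.1 t le_rfl, Upd.pw ⟨hf, hf, hf.2⟩⟩
  | @tail g g' _ k ih =>
    obtain ⟨p, p1, p2⟩ := ih
    refine ⟨p ++ (List.range t).map g ++ [g t], fun x hx => ?_, ?_⟩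
    · simp only [List.mem_append, List.mem_map, List.mem_range, List.mem_singleton] at hx
      rcases hx with (hx | ⟨i, hi, rfl⟩) | rfl
      · exact p1 x hx
      · exact k.1.1 i hi.le
      · exact k.1.1 t le_rfl
    · have := p2.glue (y := [g t] ++ (List.range t).map g') (by simpa using k.pw) (by simp)
      simpa using this

/-- An ordered clique of size `t` in the zone. -/
def ZL (G : SimpleGraph W) (c : W → ℤ) (U : Finset W) (t K : ℕ) (A B : ℤ) (a : List W) : Prop :=
  a.length = t ∧ a.Pairwise G.Adj ∧ ∀ x ∈ a, x ∈ U ∧ Zn c K A B x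

lemma ZL.zc {a : List W} (h : ZL G c U t K A B a) : ZC G c U t K A B a.toFinset :=
  ⟨by rw [List.toFinset_card_of_nodup (h.2.1.imp fun e => e.ne), h.1],
    ⟨fun x hx => (h.2.2 x (List.mem_toFinset.1 hx)).1, fun x hx y hy e =>
      @List.Pairwise.forall _ _ _ G.symm h.2.1 _ (List.mem_toFinset.1 hx) _
        (List.mem_toFinset.1 hy) e⟩,
    fun x hx => (h.2.2 x (List.mem_toFinset.1 hx)).2⟩

omit [LinearOrder W] in
lemma ZC.zl {X : Finset W} (h : ZC G c U t K A B X) : ZL G c U t K A B X.toList :=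
  ⟨by rw [length_toList, h.1], (nodup_toList X).pairwise_of_forall_ne fun x hx y hy e =>
    h.2.1.2 x (mem_toList.1 hx) y (mem_toList.1 hy) e,
    fun x hx => ⟨h.2.1.1 (mem_toList.1 hx), h.2.2 x (mem_toList.1 hx)⟩⟩

/-- `z` can be absorbed by a walk between any two ordered cliques of the zone. -/
def Abs (G : SimpleGraph W) (c : W → ℤ) (U : Finset W) (t K : ℕ) (A B : ℤ) (z : W) : Prop :=
  ∀ a b, ZL G c U t K A B a → ZL G c U t K A B b → ∃ m1 m2 : List W, (∀ x ∈ m1, x ∈ U) ∧
    m2.Perm (z :: m1) ∧ PW G t (a ++ m1 ++ b) ∧ PW G t (a ++ m2 ++ b)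

namespace Line

variable (L : Line G c U t K D s A B) (ht : 1 ≤ t) (hw : A + 3 * K ≤ B)
include L ht hw

lemma big_chain {X : Finset W} (hX : ZC G c U t K A B X) : ∃ z', Nb G U X z' ∧
    ∃ z, ReflTransGen (Tw G c U t K A B) z' z ∧ Big G c U t K A B z := by
  obtain ⟨z', z1, z2⟩ := L.ext_zone hw hX.2.1.1 hX.1.le hX.2.2 (L.clq_near hX.2.1)
  have ne := insert_nonempty z' X
  exact ⟨z', z1, L.chain ht _ (insert z' X) _ _ rfl (by rw [card_insert_of_notMem z1.notMem, hX.1])
    (hX.2.1.insert z1) (zn_insert hX.2.2 z2) (min'_mem _ ne) (max'_mem _ ne)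
    (fun z hz => ⟨min'_le _ _ hz, le_max' _ _ hz⟩) z' (mem_insert_self _ _)⟩

lemma conn_list {a b : List W} (ha : ZL G c U t K A B a) (hb : ZL G c U t K A B b) :
    ∃ p : List W, (∀ x ∈ p, x ∈ U) ∧ PW G t (a ++ p ++ b) := by
  obtain ⟨-, -, z, -, X, w, hX, nz, nw, zw⟩ := L.big_chain ht hw ha.zc
  have key : ∀ a, ZL G c U t K A B a → ∃ f g, Lab G U t f ∧ (List.range t).map f = a ∧
      ReflTransGen (Upd G U t) f g ∧ Lab G U t g ∧ ∀ i ≤ t, g i ∈ insert w (insert z X) := by
    intro a ha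
    obtain ⟨y, ny, -⟩ := L.big_chain ht hw ha.zc
    have pw : (a ++ [y]).Pairwise G.Adj := List.pairwise_append.2 ⟨ha.2.1, by simp,
      fun x hx z hz => by rw [List.mem_singleton.1 hz]; exact ny.2 x (List.mem_toFinset.2 hx)⟩
    have get : ∀ i ≤ t, (a ++ [y])[i]? = some (a.getD i y) := by
      intro i hi
      rcases hi.lt_or_eq with hi | hi
      · rw [List.getElem?_append_left (ha.1 ▸ hi), List.getD_eq_getElem?_getD,
          List.getElem?_eq_getElem (ha.1 ▸ hi)]; rfl
      · rw [hi, ← ha.1]; simp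
    have hf : Lab G U t fun i => a.getD i y := by
      refine ⟨fun i hi => ?_, fun i hi j hj e => ?_⟩
      · rcases List.mem_append.1 (List.mem_of_getElem? (get i hi)) with k | k
        · exact (ha.2.2 _ k).1
        · show a.getD i y ∈ U
          rw [List.mem_singleton.1 k]; exact ny.1
      · rcases lt_or_gt_of_ne e with e | e
        · exact adj_of_pairwise pw (get i hi) (get j hj) e
        · exact (adj_of_pairwise pw (get j hj) (get i hi) e).symm
    obtain ⟨g, g1, g2, g3⟩ := hf.con (L.con_all hw ha.zc hX) fun x hx => by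
      obtain ⟨i, hi, rfl⟩ := List.getElem_of_mem (List.mem_toFinset.1 hx)
      exact ⟨i, by have := ha.1; omega, by simp [hi]⟩
    obtain ⟨g', a1, -, a3⟩ := g2.step hX.1 g3 nz
    refine ⟨_, g', hf, ?_, g1.tail a1, a1.2.1, fun i hi => mem_insert_of_mem (a3 i hi)⟩
    apply List.ext_getElem (by simp [ha.1])
    intro i h1 h2
    simp [h2]
  obtain ⟨f, g, f1, rfl, f2, g1, g2⟩ := key a ha
  obtain ⟨f', g', f1', rfl, f2', g1', g2'⟩ := key b hb
  have nw' := nw.insert zw
  exact rch_pw f1 (f2.trans ((relabel ((hX.2.1.insert nz).insert nw') (by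
    rw [card_insert_of_notMem nw'.notMem, card_insert_of_notMem nz.notMem, hX.1]) g1' g2' _ g g1 g2
    le_rfl).trans (rch_symm f2')))

lemma abs_step {e : List W} (he : ZL G c U t K A B e) {z z' : W} (hz : ∀ x ∈ e, G.Adj x z)
    (hz' : ∀ x ∈ e, G.Adj x z') (hU : z' ∈ U) (h : Abs G c U t K A B z') : Abs G c U t K A B z := by
  intro a b ha hb
  obtain ⟨p, p1, p2⟩ := L.conn_list ht hw ha he
  obtain ⟨m1, m2, k1, k2, k3, k4⟩ := h e b he hb
  have loop : ∀ y, (∀ x ∈ e, G.Adj x y) → PW G t (e ++ ([y] ++ e)) := fun y hy => by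
    rw [← List.append_assoc]
    exact pw_loop he.1 (by simp) (List.pairwise_append.2 ⟨he.2.1, by simp, fun x hx z hz => by
      rw [List.mem_singleton.1 hz]; exact hy x hx⟩)
  have gl : ∀ y m, (∀ x ∈ e, G.Adj x y) → PW G t (e ++ m ++ b) →
      PW G t (a ++ (p ++ e ++ [y] ++ e ++ m) ++ b) := by
    intro y m hy hm
    have s1 := p2.glue (loop y hy) he.1.ge
    rw [← List.append_assoc] at s1
    have s2 := s1.glue (y := m ++ b) (by rwa [← List.append_assoc]) he.1.ge
    simpa using s2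
  refine ⟨_, _, fun x hx => ?_, ?_, gl z' m1 hz' k3, gl z m2 hz k4⟩
  · simp only [List.mem_append, List.mem_singleton] at hx
    rcases hx with (((hx | hx) | hx) | hx) | hx
    · exact p1 x hx
    · exact (he.2.2 x hx).1
    · exact hx ▸ hU
    · exact (he.2.2 x hx).1
    · exact k1 x hx
  · rw [List.perm_iff_count]
    intro x
    simp only [List.count_append, k2.count_eq, List.count_cons, List.count_nil]
    omega

lemma abs_big {z : W} (h : Big G c U t K A B z) : Abs G c U t K A B z := by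
  obtain ⟨X, w, hX, nz, nw, zw⟩ := h
  have he := hX.zl
  set e := X.toList
  intro a b ha hb
  obtain ⟨p, p1, p2⟩ := L.conn_list ht hw ha he
  obtain ⟨q, q1, q2⟩ := L.conn_list ht hw he hb
  have gl : ∀ m, m ≠ [] → (e ++ m).Pairwise G.Adj → PW G t (a ++ (p ++ e ++ m ++ e ++ q) ++ b) := by
    intro m h1 h2
    have s1 := p2.glue (y := m ++ e) (by rw [← List.append_assoc]; exact pw_loop he.1 h1 h2) he.1.ge
    rw [← List.append_assoc] at s1
    have s2 := s1.glue (y := q ++ b) (by rwa [← List.append_assoc]) he.1.ge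
    simpa using s2
  refine ⟨_, _, fun x hx => ?_, ?_, gl [w] (by simp) ?_, gl [z, w] (by simp) ?_⟩
  · simp only [List.mem_append, List.mem_singleton] at hx
    rcases hx with (((hx | hx) | hx) | hx) | hx
    · exact p1 x hx
    · exact (he.2.2 x hx).1
    · exact hx ▸ nw.1
    · exact (he.2.2 x hx).1
    · exact q1 x hx
  · rw [List.perm_iff_count]
    intro x
    simp only [List.count_append, List.count_cons, List.count_nil]
    omega
  · exact List.pairwise_append.2 ⟨he.2.1, by simp, fun x hx y hy => by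
      rw [List.mem_singleton.1 hy]; exact nw.2 x (mem_toList.1 hx)⟩
  · refine List.pairwise_append.2 ⟨he.2.1, by simp [zw], fun x hx y hy => ?_⟩
    simp only [List.mem_cons, List.not_mem_nil, or_false] at hy
    rcases hy with rfl | rfl
    · exact nz.2 x (mem_toList.1 hx)
    · exact nw.2 x (mem_toList.1 hx)

lemma abs_all {e : List W} (he : ZL G c U t K A B e) {v : W} (hv : ∀ x ∈ e, G.Adj x v) :
    Abs G c U t K A B v := by
  obtain ⟨z', n', z, h1, h2⟩ := L.big_chain ht hw he.zc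
  refine L.abs_step ht hw he hv (fun x hx => n'.2 x (List.mem_toFinset.2 hx)) n'.1 ?_
  clear n'
  induction h1 using ReflTransGen.head_induction_on with
  | refl => exact L.abs_big ht hw h2
  | head k _ ih =>
    obtain ⟨X, hX, n1, n2⟩ := k
    exact L.abs_step ht hw hX.zl (fun x hx => n1.2 x (mem_toList.1 hx))
      (fun x hx => n2.2 x (mem_toList.1 hx)) n2.1 ih

omit ht hw in
lemma grow {a : ℤ} (h1 : A + K ≤ a) (h2 : a + K + K ≤ B) {Y : List W} (hY : PW G t Y)
    (hb : ∀ x ∈ Y, a ≤ c x ∧ c x ≤ a + K ∧ (#(miss G c U K x) : ℝ) ≤ D) :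
    (∃ Z, ZL G c U t K A B Z ∧ PW G t (Z ++ Y)) ∧ ∃ Z, ZL G c U t K A B Z ∧ PW G t (Y ++ Z) := by
  set S := {y ∈ U | a ≤ c y ∧ c y < a + K}
  have hS : t * D < #S := L.slack.trans_le (L.card_cells K (by omega) (by omega))
  have bud : ∀ x, a ≤ c x → c x ≤ a + K → (#(miss G c U K x) : ℝ) ≤ D →
      (#{y ∈ S | ¬ G.Adj x y} : ℝ) ≤ D := fun x k1 k2 k3 => by
    refine le_trans ?_ k3
    have : {y ∈ S | ¬ G.Adj x y} ⊆ miss G c U K x := fun y hy => by
      obtain ⟨y1, y2⟩ := mem_filter.1 hy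
      obtain ⟨y3, y4⟩ := mem_filter.1 y1
      exact mem_filter.2 ⟨y3, by rw [abs_le]; omega, y2⟩
    exact_mod_cast card_le_card this
  have b1 : ∀ x ∈ S, (#{y ∈ S | ¬ G.Adj x y} : ℝ) ≤ D := fun x hx =>
    bud x (mem_filter.1 hx).2.1 (mem_filter.1 hx).2.2.le (L.bud x (mem_filter.1 hx).1)
  have b2 : ∀ x ∈ Y, (#{y ∈ S | ¬ G.Adj x y} : ℝ) ≤ D := fun x hx =>
    bud x (hb x hx).1 (hb x hx).2.1 (hb x hx).2.2
  have zl : ∀ Z : List W, Z.length = t → (∀ z ∈ Z, z ∈ S) → PW G t Z → ZL G c U t K A B Z :=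
    fun Z z1 z2 z3 => ⟨z1, z3.pairwise (by omega), fun x hx => ⟨(mem_filter.1 (z2 x hx)).1, by
      have := (mem_filter.1 (z2 x hx)).2
      unfold Zn; omega⟩⟩
  obtain ⟨Z, z1, z2, z3⟩ := grow_left L.nonneg hS b1 b2 hY t
  obtain ⟨Z', z1', z2', z3'⟩ := grow_right L.nonneg hS b1 b2 hY t
  exact ⟨⟨Z, zl Z z1 z2 z3.left, z3⟩, Z', zl Z' z1' z2' z3'.right, z3'⟩

omit hw in
/-- Connecting two ends by a walk that may absorb `v`. -/
theorem connect {a1 a2 a3 : ℤ} (h1 : A + K ≤ a1) (h1' : a1 + K + K ≤ B) (h2 : A + K ≤ a2)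
    (h2' : a2 + K + K ≤ B) (h3 : A + K ≤ a3) (h3' : a3 + K + K ≤ B) {Y Y' : List W} {v : W}
    (hY : PW G t Y) (hY' : PW G t Y')
    (b1 : ∀ x ∈ Y, a1 ≤ c x ∧ c x ≤ a1 + K ∧ (#(miss G c U K x) : ℝ) ≤ D)
    (b2 : ∀ x ∈ Y', a2 ≤ c x ∧ c x ≤ a2 + K ∧ (#(miss G c U K x) : ℝ) ≤ D)
    (b3 : a3 ≤ c v ∧ c v ≤ a3 + K ∧ (#(miss G c U K v) : ℝ) ≤ D) :
    ∃ m1 m2 : List W, (∀ x ∈ m1, x ∈ U) ∧ m2.Perm (v :: m1) ∧ PW G t (Y ++ m1 ++ Y') ∧
      PW G t (Y ++ m2 ++ Y') := by
  have hw : A + 3 * K ≤ B := by omega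
  obtain ⟨-, Z, z1, z2⟩ := L.grow h1 h1' hY b1
  obtain ⟨⟨Z', z1', z2'⟩, -⟩ := L.grow h2 h2' hY' b2
  obtain ⟨⟨e, e1, e2⟩, -⟩ := L.grow h3 h3' (pw_single v) (by simpa using b3)
  have e3 := List.pairwise_append.1 (e2.pairwise (by simp [e1.1]))
  obtain ⟨m1, m2, k1, k2, k3, k4⟩ := L.abs_all ht hw e1
    (fun x hx => e3.2.2 x hx v (by simp)) Z Z' z1 z1'
  have gl : ∀ m, PW G t (Z ++ m ++ Z') → PW G t (Y ++ (Z ++ m ++ Z') ++ Y') := by
    intro m hm
    have s1 := z2.glue (y := m ++ Z') (by rwa [← List.append_assoc]) z1.1.ge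
    rw [← List.append_assoc] at s1
    simpa using s1.glue z2' z1'.1.ge
  refine ⟨_, _, fun x hx => ?_, ?_, gl m1 k3, gl m2 k4⟩
  · simp only [List.mem_append] at hx
    rcases hx with (hx | hx) | hx
    · exact (z1.2.2 x hx).1
    · exact k1 x hx
    · exact (z1'.2.2 x hx).1
  · rw [List.perm_iff_count]
    intro x
    simp only [List.count_append, k2.count_eq, List.count_cons]
    omega

end Line

end Pool.Agent.MP_61e9ba_co

end MrgPart4

-- ======== part 5: formerly Pool.Agent.MP_61e9ba_co.Dual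
section MrgPart5

/-!
The dual form of the fractional tiling lemma on a line.
-/

namespace Pool.Agent.MP_61e9ba_co

open Finset

open scoped Classical

variable {W : Type} [LinearOrder W]

lemma exists_rec {β : Type} [Inhabited β] (U : Finset W) (P : W → (W → β) → Prop)
    (hloc : ∀ x g g', (∀ u ≤ x, g u = g' u) → P x g → P x g')
    (hstep : ∀ x ∈ U, ∀ g, (∀ u ∈ U, u < x → P u g) → ∃ b, P x (Function.update g x b)) :
    ∃ g, ∀ x ∈ U, P x g := by
  have : ∀ S : Finset W, S ⊆ U → (∀ x ∈ S, ∀ u ∈ U, u < x → u ∈ S) → ∃ g, ∀ x ∈ S, P x g := by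
    intro S
    induction S using Finset.induction_on_max with
    | empty => exact fun _ _ => ⟨default, by simp⟩
    | insert a S ha ih =>
      intro h1 h2
      obtain ⟨g, hg⟩ := ih ((subset_insert _ _).trans h1) fun x hx u hu hux =>
        (mem_insert.1 (h2 x (mem_insert_of_mem hx) u hu hux)).resolve_left
          (hux.trans (ha x hx)).ne
      obtain ⟨b, hb⟩ := hstep a (h1 (mem_insert_self _ _)) g fun u hu hua =>
        hg u ((mem_insert.1 (h2 a (mem_insert_self _ _) u hu hua)).resolve_left hua.ne)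
      refine ⟨Function.update g a b, fun x hx => ?_⟩
      rcases mem_insert.1 hx with rfl | hx
      · exact hb
      · exact hloc x g _ (fun u hu => (Function.update_of_ne (hu.trans_lt (ha x hx)).ne _ _).symm)
          (hg x hx)
  exact this U Subset.rfl fun _ _ _ h _ => h

lemma exists_distrib (a : ℕ → ℕ) (m : ℕ) : ∀ n, n ≤ ∑ i ∈ range m, a i →
    ∃ b : ℕ → ℕ, ∑ i ∈ range m, b i = n ∧ ∀ i, b i ≤ a i := by
  induction m with
  | zero => exact fun n h => ⟨0, by simpa [eq_comm] using h, by simp⟩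
  | succ m ih =>
    intro n h
    rw [sum_range_succ] at h
    obtain ⟨b, b1, b2⟩ := ih (n - a m) (by omega)
    refine ⟨Function.update b m (min n (a m)), ?_, fun i => ?_⟩
    · rw [sum_range_succ, Function.update_self,
        sum_congr rfl fun i hi => Function.update_of_ne (mem_range.1 hi).ne _ _, b1]
      omega
    · by_cases e : i = m
      · rw [e, Function.update_self]; omega
      · rw [Function.update_of_ne e]; exact b2 i

variable {G : SimpleGraph W} {c : W → ℤ} {U : Finset W} {t K D : ℕ}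

lemma greedy_clique (G : SimpleGraph W) (T : Finset W) : ∃ Q ⊆ T,
    (∀ x ∈ Q, ∀ y ∈ Q, x ≠ y → G.Adj x y) ∧ ∀ x ∈ T, x ∈ Q ∨ ∃ q ∈ Q, x < q ∧ ¬ G.Adj x q := by
  induction T using Finset.strongInduction with
  | H T ih =>
  rcases T.eq_empty_or_nonempty with rfl | ne
  · exact ⟨∅, by simp⟩
  obtain ⟨Q, q1, q2, q3⟩ := ih {x ∈ T | G.Adj x (T.max' ne)}
    (filter_ssubset.2 ⟨_, max'_mem _ ne, G.irrefl⟩)
  refine ⟨insert (T.max' ne) Q, insert_subset (max'_mem _ _) (q1.trans (filter_subset _ _)),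
    fun x hx y hy e => ?_, fun x hx => ?_⟩
  · rcases mem_insert.1 hx with hx' | hx' <;> rcases mem_insert.1 hy with hy' | hy'
    · exact absurd (hx'.trans hy'.symm) e
    · rw [hx']; exact (mem_filter.1 (q1 hy')).2.symm
    · rw [hy']; exact (mem_filter.1 (q1 hx')).2
    · exact q2 x hx' y hy' e
  · by_cases a : G.Adj x (T.max' ne)
    · rcases q3 x (mem_filter.2 ⟨hx, a⟩) with k | ⟨q, k1, k2⟩
      · exact .inl (mem_insert_of_mem k)
      · exact .inr ⟨q, mem_insert_of_mem k1, k2⟩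
    · rcases (le_max' _ _ hx).lt_or_eq with k | k
      · exact .inr ⟨_, mem_insert_self _ _, k, a⟩
      · exact .inl (k ▸ mem_insert_self _ _)

/-- The left window of `u`. -/
noncomputable def Om (c : W → ℤ) (U : Finset W) (K : ℕ) (u : W) : Finset W :=
  {x ∈ U | x < u ∧ c u - K ≤ c x}

/-- The vertices of the left window of `u` missed by `u`. -/
noncomputable def Ml (G : SimpleGraph W) (c : W → ℤ) (U : Finset W) (K : ℕ) (u : W) : Finset W :=
  {x ∈ Om c U K u | ¬ G.Adj x u}

lemma lr_budget (mono : Monotone c) {u : W} (hu : u ∈ U) :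
    1 + #{x ∈ U | u ∈ Ml G c U K x} + #(Ml G c U K u) ≤ #(miss G c U K u) := by
  rw [← card_singleton u, ← card_union_of_disjoint, ← card_union_of_disjoint]
  · apply card_le_card
    intro x hx
    simp only [mem_union, mem_singleton, mem_filter, Ml, Om, miss] at hx ⊢
    rcases hx with (rfl | hx) | hx
    · exact ⟨hu, by simp, G.irrefl⟩
    · have := mono hx.2.1.2.1.le
      exact ⟨hx.1, by rw [abs_le]; omega, hx.2.2⟩
    · have := mono hx.1.2.1.le
      exact ⟨hx.1.1, by rw [abs_le]; omega, fun a => hx.2 a.symm⟩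
  · rw [disjoint_left]
    intro x hx hx'
    simp only [mem_union, mem_singleton, mem_filter, Ml, Om] at hx hx'
    rcases hx with rfl | hx
    · exact lt_irrefl _ hx'.1.2.1
    · exact lt_asymm hx.2.1.2.1 hx'.1.2.1
  · rw [disjoint_left]
    intro x hx hx'
    simp only [mem_singleton, mem_filter, Ml, Om] at hx hx'
    exact lt_irrefl _ (hx ▸ hx'.2.1.2.1)

/-- Padding a clique by vertices of smallest cost. -/
lemma pad (mono : Monotone c) (bud : ∀ x ∈ U, #(miss G c U K x) ≤ D) (f : W → ℤ)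
    (hQ : ∀ Q, Clq G U Q → #Q = t + 1 → ∑ x ∈ Q, f x ≤ 0) {u : W} (hu : u ∈ U)
    (hfull : t * D < #(Om c U K u)) {Θ : ℕ} (hΘ : ∀ x ∈ U, (-f x).toNat ≤ Θ) (d : ℕ) :
    ∀ j Q, j + d = t → Clq G U Q → u ∈ Q → Q ⊆ insert u (Om c U K u) → #Q = j + 1 →
      ∑ x ∈ Q, f x ≤ ∑ i ∈ Ico j t, (#{θ ∈ range Θ |
        #{x ∈ Om c U K u | (-f x).toNat ≤ θ} ≤ #(Ml G c U K u) + i * D} : ℤ) := by
  induction d with
  | zero =>
    intro j Q h1 h2 _ _ h5
    rw [show j = t by omega] at h5 ⊢
    simpa using hQ Q h2 h5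
  | succ d ih =>
    intro j Q h1 h2 h3 h4 h5
    set Bl := Ml G c U K u ∪ (Q.erase u).biUnion (miss G c U K)
    have cB : #Bl ≤ #(Ml G c U K u) + j * D := by
      refine (card_union_le _ _).trans (Nat.add_le_add_left (card_biUnion_le.trans ?_) _)
      refine (sum_le_card_nsmul _ _ D fun x hx => bud x (h2.1 (mem_of_mem_erase hx))).trans ?_
      rw [card_erase_of_mem h3, h5]; simp
    have cL : #(Ml G c U K u) ≤ D := by have := lr_budget (G := G) (K := K) mono hu; have := bud u hu; omega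
    have ne : (Om c U K u \ Bl).Nonempty := by
      obtain ⟨x, x1, x2⟩ := exists_mem_notMem_of_card_lt_card (s := Bl) (t := Om c U K u) (by
        have : (j + 1) * D ≤ t * D := Nat.mul_le_mul_right _ (by omega)
        nlinarith)
      exact ⟨x, mem_sdiff.2 ⟨x1, x2⟩⟩
    obtain ⟨p, p1, p2⟩ := exists_min_image _ (fun x => (-f x).toNat) ne
    obtain ⟨p3, p4⟩ := mem_sdiff.1 p1
    have np : Nb G U Q p := by
      refine ⟨(mem_filter.1 p3).1, fun x hx => ?_⟩
      by_contra a
      by_cases e : x = u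
      · exact p4 (mem_union_left _ (mem_filter.2 ⟨p3, fun b => a (e ▸ b.symm)⟩))
      · have xo := (mem_filter.1 ((mem_insert.1 (h4 hx)).resolve_left e)).2
        have po := (mem_filter.1 p3).2
        have := mono xo.1.le
        have := mono po.1.le
        exact p4 (mem_union_right _ (mem_biUnion.2 ⟨x, mem_erase.2 ⟨e, hx⟩,
          mem_filter.2 ⟨(mem_filter.1 p3).1, by rw [abs_le]; omega, a⟩⟩))
    have := ih (j + 1) (insert p Q) (by omega) (h2.insert np) (mem_insert_of_mem h3)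
      (insert_subset (mem_insert_of_mem p3) h4) (by rw [card_insert_of_notMem np.notMem, h5])
    rw [sum_insert np.notMem] at this
    rw [sum_eq_sum_Ico_succ_bot (show j < t by omega)]
    have k : (-f p).toNat ≤ #{θ ∈ range Θ |
        #{x ∈ Om c U K u | (-f x).toNat ≤ θ} ≤ #(Ml G c U K u) + j * D} := by
      rw [← card_range (-f p).toNat]
      apply card_le_card
      intro θ hθ
      have := hΘ p np.1
      rw [mem_range] at hθ
      refine mem_filter.2 ⟨mem_range.2 (by omega), le_trans (card_le_card fun x hx => ?_) cB⟩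
      by_contra a
      have := p2 x (mem_sdiff.2 ⟨(mem_filter.1 hx).1, a⟩)
      have := (mem_filter.1 hx).2
      omega
    omega

lemma level (mono : Monotone c) (z L : W → ℕ) (H : W → Prop) [DecidablePred H]
    (hL : ∀ x ∈ U, L x ≤ D)
    (hz : ∀ u ∈ U, 0 < z u → (z u + ∑ x ∈ Om c U K u, z x) * D ≤ #{x ∈ Om c U K u | H x} + L u)
    (S : Finset W) : S ⊆ U → (∀ x ∈ S, ∀ u ∈ U, u < x → u ∈ S) →
      ∑ x ∈ S, z x * (D - L x) ≤ #{x ∈ S | H x} := by
  induction S using Finset.strongInduction with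
  | H S ih =>
  intro h1 h2
  rcases {x ∈ S | 0 < z x}.eq_empty_or_nonempty with e | ne
  · rw [sum_eq_zero]; · omega
    intro x hx
    have : z x = 0 := by
      by_contra a
      have : x ∈ {x ∈ S | 0 < z x} := mem_filter.2 ⟨hx, by omega⟩
      rw [e] at this; simp at this
    rw [this, zero_mul]
  obtain ⟨u1, u2⟩ := mem_filter.1 (max'_mem _ ne)
  set u := {x ∈ S | 0 < z x}.max' ne
  set S' := {x ∈ S | c x < c u - K}
  have i1 := ih S' (filter_ssubset.2 ⟨u, u1, by omega⟩) ((filter_subset _ _).trans h1)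
    fun x hx y hy hyx => mem_filter.2 ⟨h2 x (mem_filter.1 hx).1 y hy hyx, by
      have := mono hyx.le; have := (mem_filter.1 hx).2; omega⟩
  have uo : u ∉ Om c U K u := fun a => lt_irrefl _ (mem_filter.1 a).2.1
  have dis : Disjoint S' (insert u (Om c U K u)) := by
    rw [disjoint_left]
    intro x hx hx'
    have := (mem_filter.1 hx).2
    rcases mem_insert.1 hx' with rfl | hx'
    · omega
    · have := (mem_filter.1 hx').2.2; omega
  have e1 : ∑ x ∈ S, z x * (D - L x) ≤ ∑ x ∈ S' ∪ insert u (Om c U K u), z x * (D - L x) := by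
    apply sum_le_sum_of_ne_zero
    intro x hx hne
    have k := le_max' _ x (mem_filter.2 ⟨hx, Nat.pos_of_ne_zero (left_ne_zero_of_mul hne)⟩ :
      x ∈ {x ∈ S | 0 < z x})
    by_cases a : c x < c u - K
    · exact mem_union_left _ (mem_filter.2 ⟨hx, a⟩)
    · refine mem_union_right _ ?_
      rcases k.lt_or_eq with k | k
      · exact mem_insert_of_mem (mem_filter.2 ⟨h1 hx, k, by omega⟩)
      · exact mem_insert.2 (.inl k)
  rw [sum_union dis, sum_insert uo] at e1
  have e2 : ∑ x ∈ Om c U K u, z x * (D - L x) ≤ (∑ x ∈ Om c U K u, z x) * D := by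
    rw [sum_mul]
    exact sum_le_sum fun x _ => Nat.mul_le_mul_left _ (Nat.sub_le _ _)
  have e3 : z u * (D - L u) + L u ≤ z u * D := by
    obtain ⟨r, hr⟩ := Nat.exists_eq_add_of_le (hL u (h1 u1))
    rw [hr, Nat.add_sub_cancel_left]
    nlinarith
  have e4 := hz u (h1 u1) u2
  have e5 : #{x ∈ S' | H x} + #{x ∈ Om c U K u | H x} ≤ #{x ∈ S | H x} := by
    rw [← card_union_of_disjoint]
    · apply card_le_card
      intro x hx
      rcases mem_union.1 hx with hx | hx
      · exact mem_filter.2 ⟨(mem_filter.1 (mem_filter.1 hx).1).1, (mem_filter.1 hx).2⟩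
      · have := mem_filter.1 (mem_filter.1 hx).1
        exact mem_filter.2 ⟨h2 u u1 x this.1 this.2.1, (mem_filter.1 hx).2⟩
    · exact (dis.mono_right (subset_insert _ _)).mono (filter_subset _ _) (filter_subset _ _)
  rw [add_mul] at e4
  omega

theorem line_dual (mono : Monotone c) (bud : ∀ x ∈ U, #(miss G c U K x) ≤ D) (f : W → ℤ)
    (hQ : ∀ Q, Clq G U Q → #Q = t + 1 → ∑ x ∈ Q, f x ≤ 0)
    (hfull : ∀ u ∈ U, 0 < f u → t * D < #(Om c U K u)) : ∑ x ∈ U, f x ≤ 0 := by
  have omle : ∀ x, ∀ u ∈ Om c U K x, u < x := fun x u hu => (mem_filter.1 hu).2.1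
  have omU : ∀ x, Om c U K x ⊆ U := fun x => filter_subset _ _
  have mlo : ∀ x, Ml G c U K x ⊆ Om c U K x := fun x => filter_subset _ _
  obtain ⟨y, hy⟩ := exists_rec U (fun x (y : W → ℕ) =>
    f x ≤ y x + ∑ u ∈ Ml G c U K x, (y u : ℤ) ∧
      (0 < y x → y x + ∑ u ∈ Ml G c U K x, (y u : ℤ) ≤ f x))
    (fun x g g' h k => by
      rwa [← h x le_rfl, ← sum_congr rfl fun u hu => congrArg _ (h u (omle x u (mlo x hu)).le)])
    (fun x _ g _ => ⟨(f x - ∑ u ∈ Ml G c U K x, (g u : ℤ)).toNat, by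
      rw [Function.update_self, sum_congr rfl fun u hu =>
        congrArg _ (Function.update_of_ne (omle x u (mlo x hu)).ne _ _)]
      omega⟩)
  have ynn : ∀ x, 0 ≤ ∑ u ∈ Ml G c U K x, (y u : ℤ) := fun x => sum_nonneg fun _ _ => by omega
  have ypos : ∀ x ∈ U, 0 < y x → 0 < f x := fun x hx a => by
    have := (hy x hx).2 a; have := ynn x; omega
  set Θ := U.sup fun x => (-f x).toNat
  have hΘ : ∀ x ∈ U, (-f x).toNat ≤ Θ := fun x hx => le_sup (f := fun x => (-f x).toNat) hx
  set cc : W → ℕ → ℕ := fun u θ => #{i ∈ range t |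
    #{x ∈ Om c U K u | (-f x).toNat ≤ θ} ≤ #(Ml G c U K u) + i * D} with hcc
  have key : ∀ u ∈ U, 0 < y u → y u + ∑ x ∈ Om c U K u, y x ≤ ∑ θ ∈ range Θ, cc u θ := by
    intro u hu hpos
    have uo : u ∉ Om c U K u := fun a => lt_irrefl _ (omle u u a)
    set T := {x ∈ insert u (Om c U K u) | 0 < y x}
    obtain ⟨Q, q1, q2, q3⟩ := greedy_clique G T
    have qs : Q ⊆ insert u (Om c U K u) := q1.trans (filter_subset _ _)
    have iU : insert u (Om c U K u) ⊆ U := insert_subset hu (omU u)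
    have cQ : Clq G U Q := ⟨qs.trans iU, q2⟩
    have uQ : u ∈ Q := by
      rcases q3 u (mem_filter.2 ⟨mem_insert_self _ _, hpos⟩) with k | ⟨q, k1, k2, -⟩
      · exact k
      · rcases mem_insert.1 (qs k1) with rfl | k
        · exact k1
        · exact absurd (omle u q k) k2.not_gt
    have cle : #Q ≤ t := by
      by_contra a
      obtain ⟨Q', a1, a2⟩ := exists_subset_card_eq (s := Q) (n := t + 1) (by omega)
      have := hQ Q' (cQ.sub a1) a2
      have := sum_pos (s := Q') (f := f) (fun x hx => ypos x (cQ.1 (a1 hx)) (mem_filter.1 (q1 (a1 hx))).2)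
        (card_pos.1 (by omega))
      omega
    have qpos := card_pos.2 ⟨u, uQ⟩
    have pd := pad mono bud f hQ hu (hfull u hu (ypos u hu hpos)) hΘ (t - (#Q - 1)) (#Q - 1) Q
      (by omega) cQ uQ qs (by omega)
    have e1 : ∑ i ∈ Ico (#Q - 1) t, (#{θ ∈ range Θ | #{x ∈ Om c U K u | (-f x).toNat ≤ θ} ≤
        #(Ml G c U K u) + i * D} : ℤ) ≤ ((∑ θ ∈ range Θ, cc u θ : ℕ) : ℤ) := by
      refine (sum_le_sum_of_subset_of_nonneg (t := range t)
        (fun i hi => mem_range.2 (mem_Ico.1 hi).2) fun _ _ _ => by omega).trans (le_of_eq ?_)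
      simp only [hcc, card_filter]
      push_cast
      exact sum_comm
    have e2 : ∑ x ∈ insert u (Om c U K u), y x ≤
        ∑ x ∈ Q.biUnion (fun q => insert q (Ml G c U K q)), y x := by
      apply sum_le_sum_of_ne_zero
      intro x hx hne
      rcases q3 x (mem_filter.2 ⟨hx, by omega⟩) with k | ⟨q, k1, k2, k3⟩
      · exact mem_biUnion.2 ⟨x, k, mem_insert_self _ _⟩
      · refine mem_biUnion.2 ⟨q, k1, mem_insert_of_mem (mem_filter.2
          ⟨mem_filter.2 ⟨iU hx, k2, ?_⟩, k3⟩)⟩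
        have qu : q ≤ u := by
          rcases mem_insert.1 (qs k1) with rfl | k
          · exact le_rfl
          · exact (omle u q k).le
        have := mono qu
        rcases mem_insert.1 hx with rfl | hx
        · exact absurd k2 qu.not_gt
        · have := (mem_filter.1 hx).2.2; omega
    have e3 : ∑ x ∈ Q.biUnion (fun q => insert q (Ml G c U K q)), y x ≤
        ∑ q ∈ Q, ∑ x ∈ insert q (Ml G c U K q), y x := by
      clear e2 pd e1 qpos cle uQ cQ qs q1 q2 q3
      induction Q using Finset.induction_on with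
      | empty => simp
      | insert a Q ha ih =>
        rw [biUnion_insert, sum_insert ha]
        have := sum_union_inter (s₁ := insert a (Ml G c U K a))
          (s₂ := Q.biUnion fun q => insert q (Ml G c U K q)) (f := y)
        omega
    have e4 : ((∑ q ∈ Q, ∑ x ∈ insert q (Ml G c U K q), y x : ℕ) : ℤ) ≤ ∑ q ∈ Q, f q := by
      push_cast
      refine sum_le_sum fun q hq => ?_
      rw [sum_insert fun a => lt_irrefl _ (omle q q (mlo q a))]
      exact (hy q (cQ.1 hq)).2 (mem_filter.1 (q1 hq)).2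
    rw [sum_insert uo] at e2
    omega
  obtain ⟨z, hz⟩ := exists_rec U (fun x (z : W → ℕ → ℕ) => ∑ θ ∈ range Θ, z x θ = y x ∧
      ∀ θ, 0 < z x θ → z x θ + ∑ u ∈ Om c U K x, z u θ ≤ cc x θ)
    (fun x g g' h k => by
      refine ⟨h x le_rfl ▸ k.1, fun θ => ?_⟩
      rw [← h x le_rfl, ← sum_congr rfl fun u hu => congrFun (h u (omle x u hu).le) θ]
      exact k.2 θ)
    (fun x hx g hg => by
      obtain ⟨b, b1, b2⟩ := exists_distrib (fun θ => cc x θ - ∑ u ∈ Om c U K x, g u θ) Θ (y x) (by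
        rcases Nat.eq_zero_or_pos (y x) with a | a
        · omega
        have k1 := key x hx a
        have k2 : ∑ θ ∈ range Θ, ∑ u ∈ Om c U K x, g u θ = ∑ u ∈ Om c U K x, y u := by
          rw [sum_comm]
          exact sum_congr rfl fun u hu => (hg u (omU x hu) (omle x u hu)).1
        have k3 : ∑ θ ∈ range Θ, cc x θ ≤ ∑ θ ∈ range Θ, ((cc x θ - ∑ u ∈ Om c U K x, g u θ) +
            ∑ u ∈ Om c U K x, g u θ) := sum_le_sum fun _ _ => by omega
        rw [sum_add_distrib] at k3
        omega)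
      refine ⟨b, by rwa [Function.update_self], fun θ => ?_⟩
      rw [Function.update_self, sum_congr rfl fun u hu =>
        congrFun (Function.update_of_ne (omle x u hu).ne b g) θ]
      have := b2 θ
      omega)
  have hL : ∀ x ∈ U, 1 + #{v ∈ U | x ∈ Ml G c U K v} + #(Ml G c U K x) ≤ D := fun x hx =>
    (lr_budget mono hx).trans (bud x hx)
  have lev : ∀ θ ∈ range Θ, ∑ x ∈ U, z x θ * (D - #(Ml G c U K x)) ≤
      #{x ∈ U | θ < (-f x).toNat} := by
    intro θ hθ
    refine level (K := K) mono (fun x => z x θ) (fun x => #(Ml G c U K x))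
      (fun x => θ < (-f x).toNat)
      (fun x hx => le_trans (Nat.le_add_left _ _) (hL x hx)) (fun u hu a => ?_) U Subset.rfl fun _ _ _ h _ => h
    have k1 := (hz u hu).2 θ a
    have k2 : 0 < y u := by
      rw [← (hz u hu).1]
      exact a.trans_le (single_le_sum (f := fun θ => z u θ) (fun _ _ => Nat.zero_le _) hθ)
    have k3 := hfull u hu (ypos u hu k2)
    refine (Nat.mul_le_mul_right _ k1).trans ?_
    have ne : {i ∈ range t | #{x ∈ Om c U K u | (-f x).toNat ≤ θ} ≤
        #(Ml G c U K u) + i * D}.Nonempty := card_pos.1 (by show 0 < cc u θ; omega)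
    obtain ⟨j1, j2⟩ := mem_filter.1 (min'_mem _ ne)
    set j := min' _ ne
    have k4 : cc u θ ≤ t - j := by
      rw [← Nat.card_Ico]
      exact card_le_card fun i hi => mem_Ico.2 ⟨min'_le _ _ hi, mem_range.1 (mem_filter.1 hi).1⟩
    have k5 := card_filter_add_card_filter_not (s := Om c U K u) fun x => (-f x).toNat ≤ θ
    simp only [not_le] at k5
    have k6 : cc u θ * D + j * D ≤ t * D := by
      rw [← add_mul]; exact Nat.mul_le_mul_right _ (by have := mem_range.1 j1; omega)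
    omega
  have s1 : ∑ x ∈ U, y x * (D - #(Ml G c U K x)) ≤ ∑ x ∈ U, (-f x).toNat := by
    calc ∑ x ∈ U, y x * (D - #(Ml G c U K x))
        = ∑ θ ∈ range Θ, ∑ x ∈ U, z x θ * (D - #(Ml G c U K x)) := by
          rw [sum_comm]
          exact sum_congr rfl fun x hx => by rw [← sum_mul, (hz x hx).1]
      _ ≤ ∑ θ ∈ range Θ, #{x ∈ U | θ < (-f x).toNat} := sum_le_sum lev
      _ = ∑ x ∈ U, #{θ ∈ range Θ | θ < (-f x).toNat} := by
          simp only [card_filter]; exact sum_comm
      _ ≤ _ := sum_le_sum fun x _ => by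
          rw [← card_range (-f x).toNat]
          exact card_le_card fun θ hθ => mem_range.2 (by simpa using (mem_filter.1 hθ).2)
  have s2 : ∑ x ∈ U, (y x + ∑ u ∈ Ml G c U K x, y u) ≤ ∑ x ∈ U, y x * (D - #(Ml G c U K x)) := by
    have : ∑ x ∈ U, ∑ u ∈ Ml G c U K x, y u = ∑ u ∈ U, y u * #{v ∈ U | u ∈ Ml G c U K v} := by
      rw [sum_congr rfl fun x _ => show ∑ u ∈ Ml G c U K x, y u =
          ∑ u ∈ U, if u ∈ Ml G c U K x then y u else 0 by
        rw [← sum_filter, filter_mem_eq_inter, inter_eq_right.2 ((mlo x).trans (omU x))], sum_comm]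
      exact sum_congr rfl fun u _ => by rw [← sum_filter, sum_const, smul_eq_mul, mul_comm]
    rw [sum_add_distrib, this, ← sum_add_distrib]
    refine sum_le_sum fun x hx => ?_
    rw [← mul_one_add]
    exact Nat.mul_le_mul_left _ (by have := hL x hx; omega)
  have s3 : ∑ x ∈ U, (f x + (-f x).toNat) ≤
      ((∑ x ∈ U, (y x + ∑ u ∈ Ml G c U K x, y u) : ℕ) : ℤ) := by
    push_cast
    exact sum_le_sum fun x hx => by have := (hy x hx).1; have := ynn x; omega
  have s4 : ((∑ x ∈ U, (-f x).toNat : ℕ) : ℤ) = ∑ x ∈ U, ((-f x).toNat : ℤ) := by push_cast; rfl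
  rw [sum_add_distrib] at s3
  omega

end Pool.Agent.MP_61e9ba_co

end MrgPart5

-- marker of a merged file
example : 731051 + 870955 = 731051 + 870955 := rfl
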