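import Mathlib.Topology.Sheaves.Presheaf
import Mathlib.Tactic.ENatToNat
import Mathlib.RingTheory.Finiteness.Prod
import Mathlib.Analysis.Complex.Exponential
import Mathlib.Analysis.InnerProductSpace.Basic
import Mathlib.Analysis.RCLike.Lemmas
import Mathlib.Data.List.GetD
import Mathlib.Algebra.Order.Archimedean.Real.Hom
import Mathlib.Algebra.Order.Monoid.Prod
import Mathlib.Analysis.LocallyConvex.Separation
import Mathlib.Combinatorics.SimpleGraph.Maps
import Mathlib.RingTheory.PiTensorProduct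
import Mathlib.RingTheory.WittVector.IsPoly
import Mathlib.Tactic.Polynomial.Basic
import Mathlib.Tactic.ReduceModChar
import Pool.Agent.MP_61e9ba_co.Dual

-- ======== part 0: formerly Pool.Agent.MP_61e9ba_co.Cyc
section MrgPart0

/-!
Cyclic cell systems: lifting to the line, connection, fractional tilings.
-/

namespace Pool.Agent.MP_61e9ba_co

open Finset

open scoped Classical

variable {X : Type} {N : ℕ}

/-- The cells `a`, `b` are at cyclic distance at most `r`. -/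
def Near (r : ℕ) (a b : ZMod N) : Prop := ∃ j : ℤ, |j| ≤ r ∧ b = a + j

/-- The cell `b` lies in the window `a, …, a + K`. -/
def InW (K : ℕ) (a b : ZMod N) : Prop := ∃ j : ℕ, j ≤ K ∧ b = a + j

/-- The vertices of `U` in the range of `x` that are missed by `x`. -/
noncomputable def cmiss (G : SimpleGraph X) (c : X → ZMod N) (U : Finset X) (K : ℕ) (x : X) :
    Finset X := {y ∈ U | Near K (c x) (c y) ∧ ¬ G.Adj x y}

/-- A clique of size `t + 1` inside a window. -/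
def WClq (G : SimpleGraph X) (c : X → ZMod N) (U : Finset X) (t K : ℕ) (Q : Finset X) : Prop :=
  Clq G U Q ∧ #Q = t + 1 ∧ ∃ a, ∀ x ∈ Q, InW K a (c x)

/-- The lift of a graph to the line. -/
def liftG (G : SimpleGraph X) (K : ℕ) : SimpleGraph (ℤ ×ₗ X) where
  Adj p q := |(ofLex p).1 - (ofLex q).1| ≤ K ∧ G.Adj (ofLex p).2 (ofLex q).2
  symm := ⟨fun _ _ h => ⟨by rw [abs_sub_comm]; exact h.1, h.2.symm⟩⟩
  loopless := ⟨fun _ h => G.irrefl h.2⟩

variable {G : SimpleGraph X} {c : X → ZMod N} {U : Finset X} {t K : ℕ}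

lemma lift_miss (hN : 2 * K + 1 ≤ N) {UW : Finset (ℤ ×ₗ X)}
    (h : ∀ p ∈ UW, (ofLex p).2 ∈ U ∧ c (ofLex p).2 = (ofLex p).1) {p : ℤ ×ₗ X}
    (hp : c (ofLex p).2 = (ofLex p).1) :
    #(miss (liftG G K) (fun p => (ofLex p).1) UW K p) ≤ #(cmiss G c U K (ofLex p).2) := by
  refine card_le_card_of_injOn (fun q => (ofLex q).2) (fun q hq => ?_) fun q hq q' hq' e => ?_
  · obtain ⟨q1, q2, q3⟩ := mem_filter.1 hq
    refine mem_filter.2 ⟨(h q q1).1, ⟨(ofLex q).1 - (ofLex p).1, by rwa [abs_sub_comm], ?_⟩,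
      fun a => q3 ⟨q2, a⟩⟩
    rw [(h q q1).2, hp]; push_cast; ring
  · obtain ⟨q1, q2, -⟩ := mem_filter.1 hq
    obtain ⟨q1', q2', -⟩ := mem_filter.1 hq'
    have e1 : (((ofLex q).1 : ℤ) : ZMod N) = (ofLex q').1 := by
      rw [← (h q q1).2, ← (h q' q1').2]; exact congrArg c e
    have e2 := Int.eq_zero_of_abs_lt_dvd ((ZMod.intCast_eq_intCast_iff_dvd_sub _ _ _).1 e1)
      (by simp only [abs_le] at q2 q2'; rw [abs_lt]; omega)
    exact ofLex.injective (Prod.ext (by omega) e)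

lemma lift_cell {UW : Finset (ℤ ×ₗ X)} {j : ℤ} (h : ∀ x ∈ U, c x = j → toLex (j, x) ∈ UW) :
    #{y ∈ U | c y = j} ≤ #{q ∈ UW | (ofLex q).1 = j} :=
  card_le_card_of_injOn (fun y => toLex (j, y))
    (fun y hy => mem_filter.2 ⟨h y (mem_filter.1 hy).1 (mem_filter.1 hy).2, rfl⟩)
    fun _ _ _ _ e => congrArg (fun q => (ofLex q).2) e

lemma lift_line [LinearOrder X] (hN : 2 * K + 1 ≤ N) {D s : ℝ} (hD : 0 ≤ D) (slack : t * D < K * s)
    (bud : ∀ x ∈ U, (#(cmiss G c U K x) : ℝ) ≤ D) {UW : Finset (ℤ ×ₗ X)}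
    (h : ∀ p ∈ UW, (ofLex p).2 ∈ U ∧ c (ofLex p).2 = (ofLex p).1) {A B : ℤ}
    (h' : ∀ j, A ≤ j → j ≤ B → s ≤ #{y ∈ U | c y = j} ∧ ∀ x ∈ U, c x = j → toLex (j, x) ∈ UW) :
    Line (liftG G K) (fun p => (ofLex p).1) UW t K D s A B where
  mono := fun _ _ k => Prod.Lex.monotone_fst _ _ k
  near := fun _ _ k => k.1
  bud := fun p hp => le_trans (by exact_mod_cast lift_miss hN h (h p hp).2) (bud _ (h p hp).1)
  full := fun j k1 k2 => (h' j k1 k2).1.trans (by exact_mod_cast lift_cell (h' j k1 k2).2)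
  slack := slack
  nonneg := hD

lemma exists_lift (c : X → ZMod N) (K : ℕ) (a : ℤ) : ∃ g : X → ℤ, ∀ x, InW K (a : ZMod N) (c x) →
    a ≤ g x ∧ g x ≤ a + K ∧ c x = g x := by
  have : ∀ x, ∃ b : ℤ, InW K (a : ZMod N) (c x) → a ≤ b ∧ b ≤ a + K ∧ c x = b := by
    intro x
    by_cases h : InW K (a : ZMod N) (c x)
    · obtain ⟨j, j1, j2⟩ := h
      exact ⟨a + j, fun _ => ⟨by omega, by omega, by rw [j2]; push_cast; rfl⟩⟩
    · exact ⟨0, fun k => absurd k h⟩
  choose g hg using this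
  exact ⟨g, hg⟩

theorem cyc_connect (ht : 1 ≤ t) (hN : 2 * K + 1 ≤ N) {D s : ℝ} (hD : 0 ≤ D)
    (slack : t * D < K * s) (bud : ∀ x ∈ U, (#(cmiss G c U K x) : ℝ) ≤ D) {a a' : ZMod N}
    (ha : a' = a ∨ a' + 1 = a) (full : ∀ b, Near (2 * K + 1) a b → s ≤ #{y ∈ U | c y = b})
    {Y Y' : List X} {v : X} (hY : PW G t Y) (hY' : PW G t Y')
    (b1 : ∀ x ∈ Y, InW K a' (c x) ∧ (#(cmiss G c U K x) : ℝ) ≤ D)
    (b2 : ∀ x ∈ Y', InW K a (c x) ∧ (#(cmiss G c U K x) : ℝ) ≤ D)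
    (b3 : InW K a (c v) ∧ (#(cmiss G c U K v) : ℝ) ≤ D) :
    ∃ m1 m2 : List X, (∀ x ∈ m1, x ∈ U) ∧ m2.Perm (v :: m1) ∧ PW G t (Y ++ m1 ++ Y') ∧
      PW G t (Y ++ m2 ++ Y') := by
  let : LinearOrder X := linearOrderOfSTO WellOrderingRel
  obtain ⟨a1, rfl⟩ := ZMod.intCast_surjective a'
  obtain ⟨a2, e1, e2, rfl⟩ : ∃ a2 : ℤ, a1 ≤ a2 ∧ a2 ≤ a1 + 1 ∧ (a2 : ZMod N) = a := by
    rcases ha with rfl | rfl
    · exact ⟨a1, le_rfl, by omega, rfl⟩
    · exact ⟨a1 + 1, by omega, le_rfl, by push_cast; rfl⟩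
  set UW : Finset (ℤ ×ₗ X) :=
    ({p ∈ Icc (a1 - K) (a1 + 1 + 2 * K) ×ˢ U | c p.2 = (p.1 : ℤ)}).map toLex.toEmbedding
  have hU : ∀ p ∈ UW, (ofLex p).2 ∈ U ∧ c (ofLex p).2 = (ofLex p).1 := by
    intro p hp
    obtain ⟨q, q1, rfl⟩ := mem_map.1 hp
    exact ⟨(mem_product.1 (mem_filter.1 q1).1).2, (mem_filter.1 q1).2⟩
  have L := lift_line (A := a1 - K) (B := a1 + 1 + 2 * K) hN hD slack bud hU fun j k1 k2 =>
    ⟨full _ ⟨j - a2, by rw [abs_le]; push_cast; omega, by push_cast; ring⟩, fun x hx e =>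
      mem_map_of_mem _ (mem_filter.2 ⟨mem_product.2 ⟨mem_Icc.2 ⟨k1, k2⟩, hx⟩, e⟩)⟩
  obtain ⟨g1, hg1⟩ := exists_lift c K a1
  obtain ⟨g2, hg2⟩ := exists_lift c K a2
  have lf : ∀ (a : ℤ) (g : X → ℤ), (∀ x, InW K (a : ZMod N) (c x) →
      a ≤ g x ∧ g x ≤ a + K ∧ c x = g x) → ∀ Y : List X, PW G t Y →
      (∀ x ∈ Y, InW K (a : ZMod N) (c x) ∧ (#(cmiss G c U K x) : ℝ) ≤ D) →
      PW (liftG G K) t (Y.map fun x => toLex (g x, x)) ∧ ∀ p ∈ Y.map fun x => toLex (g x, x),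
        a ≤ (ofLex p).1 ∧ (ofLex p).1 ≤ a + K ∧
          (#(miss (liftG G K) (fun p => (ofLex p).1) UW K p) : ℝ) ≤ D := by
    intro a g hg Y k1 k2
    refine ⟨k1.map _ fun x hx y hy e => ⟨?_, e⟩, fun p hp => ?_⟩
    · have := hg x (k2 x hx).1; have := hg y (k2 y hy).1
      show |g x - g y| ≤ K
      rw [abs_le]; omega
    · obtain ⟨x, hx, rfl⟩ := List.mem_map.1 hp
      have := hg x (k2 x hx).1
      exact ⟨this.1, this.2.1, le_trans (by
        exact_mod_cast lift_miss hN hU (p := toLex (g x, x)) this.2.2) (k2 x hx).2⟩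
  obtain ⟨p1, q1⟩ := lf a1 g1 hg1 Y hY b1
  obtain ⟨p2, q2⟩ := lf a2 g2 hg2 Y' hY' b2
  obtain ⟨-, q3⟩ := lf a2 g2 hg2 [v] (pw_single v) (by simpa using b3)
  obtain ⟨m1, m2, k1, k2, k3, k4⟩ := L.connect ht (a1 := a1) (a2 := a2) (a3 := a2) (by omega)
    (by omega) (by omega) (by omega) (by omega) (by omega) p1 p2 q1 q2
    (q3 (toLex (g2 v, v)) (by simp))
  refine ⟨m1.map fun p => (ofLex p).2, m2.map fun p => (ofLex p).2, fun x hx => ?_, k2.map _,
    ?_, ?_⟩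
  · obtain ⟨p, hp, rfl⟩ := List.mem_map.1 hx
    exact (hU p (k1 p hp)).1
  · simpa [Function.comp_def] using k3.map (H := G) (fun p => (ofLex p).2) fun _ _ _ _ e => e.2
  · simpa [Function.comp_def] using k4.map (H := G) (fun p => (ofLex p).2) fun _ _ _ _ e => e.2

theorem cyc_dual (hN : 2 * K + 1 ≤ N) {D s : ℝ} (hD : 0 ≤ D) (slack : t * D < K * s)
    (bud : ∀ x ∈ U, (#(cmiss G c U K x) : ℝ) ≤ D) (J : ZMod N → Prop)
    (full : ∀ a, J a → ∀ j : ℕ, j ≤ K → s ≤ #{y ∈ U | c y = a - j}) (f : X → ℤ)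
    (hQ : ∀ Q, WClq G c U t K Q → ∑ x ∈ Q, f x ≤ 0) (hf : ∀ x ∈ U, 0 < f x → J (c x)) :
    ∑ x ∈ U, f x ≤ 0 := by
  let : LinearOrder X := linearOrderOfSTO WellOrderingRel
  have : NeZero N := ⟨by omega⟩
  set m := (∑ x ∈ U, |f x|).toNat + 1
  set e : ℕ × X → ℤ ×ₗ X := fun p => toLex (p.1 * N + (c p.2).val, p.2) with he
  have einj : Function.Injective e := by
    intro p q h
    have h2 : p.2 = q.2 := congrArg (fun q => (ofLex q).2) h
    have h1 : (p.1 * N + (c p.2).val : ℤ) = q.1 * N + (c q.2).val :=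
      congrArg (fun q => (ofLex q).1) h
    rw [h2, add_left_inj, mul_left_inj' (by omega), Nat.cast_inj] at h1
    exact Prod.ext h1 h2
  set UW := (range (m + 1) ×ˢ U).image e
  have hU : ∀ p ∈ UW, (ofLex p).2 ∈ U ∧ c (ofLex p).2 = (ofLex p).1 := by
    intro p hp
    obtain ⟨q, q1, rfl⟩ := mem_image.1 hp
    exact ⟨(mem_product.1 q1).2, by simp [he]⟩
  have hU' : ∀ p ∈ UW, (ofLex p).1 < (m + 1 : ℕ) * N := by
    intro p hp
    obtain ⟨q, q1, rfl⟩ := mem_image.1 hp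
    have h1 := mem_range.1 (mem_product.1 q1).1
    have h2 := ZMod.val_lt (c q.2)
    show (q.1 * N + (c q.2).val : ℤ) < _
    have : q.1 * N + (c q.2).val < (m + 1) * N := by nlinarith
    exact_mod_cast this
  have hU'' : ∀ j : ℤ, 0 ≤ j → j < (m + 1 : ℕ) * N → ∀ x ∈ U, c x = j → toLex (j, x) ∈ UW := by
    intro j j1 j2 x hx k
    lift j to ℕ using j1
    refine mem_image.2 ⟨(j / N, x), mem_product.2 ⟨mem_range.2 ?_, hx⟩, ?_⟩
    · exact (Nat.div_lt_iff_lt_mul (by omega)).2 (by exact_mod_cast j2)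
    · simp only [he, k, Int.cast_natCast, ZMod.val_natCast]
      congr 2
      exact_mod_cast Nat.div_add_mod' j N
  have key := line_dual (G := liftG G K) (c := fun p => (ofLex p).1) (U := UW) (t := t) (K := K)
    (D := ⌊D⌋₊) (fun _ _ k => Prod.Lex.monotone_fst _ _ k)
    (fun p hp => Nat.le_floor (le_trans (by exact_mod_cast lift_miss hN hU (hU p hp).2)
      (bud _ (hU p hp).1)))
    (fun p => if (K : ℤ) ≤ (ofLex p).1 then f (ofLex p).2 else min (f (ofLex p).2) 0)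
    (fun Q q1 q2 => by
      have inj : Set.InjOn (fun p : ℤ ×ₗ X => (ofLex p).2) Q := fun p hp q hq k => by
        by_contra ne
        exact (q1.2 p hp q hq ne).2.ne k
      obtain ⟨p0, p1, p2⟩ := exists_min_image Q (fun p => (ofLex p).1) (card_pos.1 (by omega))
      have := hQ (Q.image fun p => (ofLex p).2) ⟨⟨fun x hx => ?_, fun x hx y hy ne => ?_⟩,
        by rw [card_image_of_injOn inj, q2], (ofLex p0).1, fun x hx => ?_⟩
      · rw [sum_image inj] at this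
        refine le_trans (sum_le_sum fun p _ => ?_) this
        split_ifs <;> omega
      · obtain ⟨p, hp, rfl⟩ := mem_image.1 hx
        exact (hU p (q1.1 hp)).1
      · obtain ⟨p, hp, rfl⟩ := mem_image.1 hx
        obtain ⟨q, hq, rfl⟩ := mem_image.1 hy
        exact (q1.2 p hp q hq (by rintro rfl; exact ne rfl)).2
      · obtain ⟨p, hp, rfl⟩ := mem_image.1 hx
        have k1 := p2 p hp
        have k2 : (ofLex p).1 - (ofLex p0).1 ≤ K := by
          by_cases a : p = p0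
          · rw [a]; omega
          · exact (abs_le.1 (q1.2 p hp p0 p1 a).1).2
        refine ⟨((ofLex p).1 - (ofLex p0).1).toNat, by omega, ?_⟩
        rw [(hU p (q1.1 hp)).2, ← Int.cast_natCast, Int.toNat_of_nonneg (by omega)]
        push_cast; ring)
    (fun p hp hpos => by
      have k1 : (K : ℤ) ≤ (ofLex p).1 := by by_contra a; rw [if_neg a] at hpos; omega
      rw [if_pos k1] at hpos
      have k2 := full _ (hf _ (hU p hp).1 hpos)
      have k3 := hU' p hp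
      have L := lift_line (A := (ofLex p).1 - K) (B := (ofLex p).1 - 1) hN hD slack bud hU
        fun j j1 j2 => ⟨by
          have := k2 ((ofLex p).1 - j).toNat (by omega)
          rwa [(hU p hp).2, ← Int.cast_natCast (R := ZMod N), Int.toNat_of_nonneg (by omega),
            Int.cast_sub, sub_sub_cancel] at this, hU'' j (by omega) (by omega)⟩
      have k4 := L.card_cells K le_rfl (by omega)
      have k5 : #{y ∈ UW | (ofLex p).1 - K ≤ (ofLex y).1 ∧ (ofLex y).1 < (ofLex p).1 - K + K} ≤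
          #(Om (fun p => (ofLex p).1) UW K p) := card_le_card fun y hy => by
        have := mem_filter.1 hy
        exact mem_filter.2 ⟨this.1, L.mono.reflect_lt (by omega), this.2.1⟩
      have k6 : (t : ℝ) * ⌊D⌋₊ ≤ t * D := mul_le_mul_of_nonneg_left (Nat.floor_le hD) (by positivity)
      have k7 : ((t * ⌊D⌋₊ : ℕ) : ℝ) < #(Om (fun p => (ofLex p).1) UW K p) := by
        push_cast
        exact k6.trans_lt (slack.trans_le (k4.trans (by exact_mod_cast k5)))
      exact_mod_cast k7)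
  rw [sum_image fun _ _ _ _ h => einj h, sum_product, sum_range_succ'] at key
  have s1 : ∀ i ∈ range m, ∑ x ∈ U, (if (K : ℤ) ≤ (ofLex (e (i + 1, x))).1 then
      f (ofLex (e (i + 1, x))).2 else min (f (ofLex (e (i + 1, x))).2) 0) = ∑ x ∈ U, f x := by
    intro i _
    refine sum_congr rfl fun x _ => if_pos ?_
    show (K : ℤ) ≤ (i + 1 : ℕ) * N + (c x).val
    have : K ≤ (i + 1) * N + (c x).val := by nlinarith
    exact_mod_cast this
  have s2 : -∑ x ∈ U, |f x| ≤ ∑ x ∈ U, (if (K : ℤ) ≤ (ofLex (e (0, x))).1 then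
      f (ofLex (e (0, x))).2 else min (f (ofLex (e (0, x))).2) 0) := by
    rw [← sum_neg_distrib]
    refine sum_le_sum fun x _ => ?_
    have := neg_abs_le (f x)
    have := abs_nonneg (f x)
    show _ ≤ if _ then f x else min (f x) 0
    split_ifs
    · omega
    · exact le_min (by omega) (by omega)
  rw [sum_congr rfl s1, sum_const, card_range, nsmul_eq_mul] at key
  by_contra a
  have : (∑ x ∈ U, |f x|) < m := by omega
  nlinarith

theorem frac_tiling [Fintype X] (hN : 2 * K + 1 ≤ N) {D s : ℝ} (hD : 0 ≤ D)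
    (slack : t * D < K * s) (bud : ∀ x ∈ U, (#(cmiss G c U K x) : ℝ) ≤ D) (J : ZMod N → Prop)
    (full : ∀ a, J a → ∀ j : ℕ, j ≤ K → s ≤ #{y ∈ U | c y = a - j}) :
    ∃ w : Finset X → ℝ, (∀ Q, 0 ≤ w Q) ∧ ∀ x ∈ U,
      (∑ Q ∈ {Q | WClq G c U t K Q}, if x ∈ Q then w Q else 0) ≤ 1 ∧
      (J (c x) → 1 ≤ ∑ Q ∈ {Q | WClq G c U t K Q}, if x ∈ Q then w Q else 0) := by
  have real : ∀ g : X → ℝ, (∀ Q, WClq G c U t K Q → ∑ x ∈ Q, g x ≤ 0) →
      (∀ x ∈ U, 0 < g x → J (c x)) → ∑ x ∈ U, g x ≤ 0 := by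
    intro g h1 h2
    by_contra a
    push Not at a
    obtain ⟨m, hm⟩ := exists_nat_gt (#U / ∑ x ∈ U, g x)
    rw [div_lt_iff₀ a] at hm
    have := cyc_dual hN hD slack bud J full (fun x => ⌊m * g x⌋) (fun Q hQ => by
      have k1 : ((∑ x ∈ Q, ⌊m * g x⌋ : ℤ) : ℝ) ≤ m * ∑ x ∈ Q, g x := by
        rw [mul_sum]; push_cast; exact sum_le_sum fun x _ => Int.floor_le _
      have k2 := mul_nonpos_of_nonneg_of_nonpos (Nat.cast_nonneg m) (h1 Q hQ)
      exact_mod_cast k1.trans k2) (fun x hx k => h2 x hx (by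
        have := Int.floor_pos.1 k
        by_contra b
        nlinarith [Nat.cast_nonneg (α := ℝ) m]))
    have k1 : m * ∑ x ∈ U, g x - #U ≤ ((∑ x ∈ U, ⌊m * g x⌋ : ℤ) : ℝ) := by
      rw [mul_sum, card_eq_sum_ones]; push_cast
      rw [← sum_sub_distrib]
      exact sum_le_sum fun x _ => (Int.sub_one_lt_floor _).le
    have k2 : ((∑ x ∈ U, ⌊m * g x⌋ : ℤ) : ℝ) ≤ 0 := by exact_mod_cast this
    linarith
  set 𝒬 : Finset (Finset X) := {Q | WClq G c U t K Q}
  set ℬ : Finset (Finset X) := {x ∈ U | ¬ J (c x)}.image singleton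
  let Lm : (Finset X → ℝ) × (Finset X → ℝ) →ₗ[ℝ] (X → ℝ) :=
    { toFun := fun w x => (∑ Q ∈ 𝒬, if x ∈ Q then w.1 Q else 0) +
        ∑ Q ∈ ℬ, if x ∈ Q then w.2 Q else 0
      map_add' := fun w w' => by
        ext x
        simp only [Prod.fst_add, Prod.snd_add, Pi.add_apply, ite_add_zero, sum_add_distrib]
        ring
      map_smul' := fun r w => by
        ext x
        simp [mul_add, mul_sum] }
  by_cases hin : (fun x => if x ∈ U then (1 : ℝ) else 0) ∈ Lm '' Set.Icc 0 (fun _ => #U, fun _ => #U)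
  · obtain ⟨w, ⟨w1, -⟩, w2⟩ := hin
    refine ⟨w.1, w1.1, fun x hx => ?_⟩
    have k1 : (∑ Q ∈ 𝒬, if x ∈ Q then w.1 Q else 0) + ∑ Q ∈ ℬ, (if x ∈ Q then w.2 Q else 0) = 1 :=
      (congrFun w2 x).trans (if_pos hx)
    have k2 : 0 ≤ ∑ Q ∈ ℬ, (if x ∈ Q then w.2 Q else 0) := sum_nonneg fun Q _ => by
      split_ifs
      · exact w1.2 Q
      · exact le_rfl
    refine ⟨by linarith, fun hJ => ?_⟩
    rw [sum_eq_zero (s := ℬ), add_zero] at k1
    · exact k1.ge
    · intro Q hQ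
      obtain ⟨y, hy, rfl⟩ := mem_image.1 hQ
      exact if_neg fun a => (mem_filter.1 hy).2 (by rwa [← mem_singleton.1 a])
  exfalso
  obtain ⟨φ, u, h1, h2⟩ := geometric_hahn_banach_closed_point ((convex_Icc _ _).linear_image Lm)
    (isCompact_Icc.image Lm.continuous_of_finiteDimensional).isClosed hin
  have ev : ∀ Q : Finset X, ∀ r : ℝ, φ (fun x => if x ∈ Q then r else 0) =
      r * ∑ x ∈ Q, φ (Pi.single x 1) := by
    intro Q r
    rw [← map_sum, ← smul_eq_mul, ← map_smul]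
    congr 1
    ext x
    simp [Finset.sum_apply, Pi.single_apply]
  have u0 : 0 < u := by
    have := h1 _ ⟨0, ⟨le_rfl, fun _ => by positivity, fun _ => by positivity⟩, rfl⟩
    simpa using this
  have sg : ∀ Q : Finset X, (0 : Finset X → ℝ) ≤ Pi.single Q (#U : ℝ) ∧
      Pi.single Q (#U : ℝ) ≤ fun _ => (#U : ℝ) := fun Q =>
    ⟨fun R => by rw [Pi.single_apply]; split_ifs <;> simp,
      fun R => by rw [Pi.single_apply]; split_ifs <;> simp⟩
  have sm : ∀ 𝒜 : Finset (Finset X), ∀ Q ∈ 𝒜, ∀ x, (∑ R ∈ 𝒜, if x ∈ R then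
      (Pi.single Q (#U : ℝ) : Finset X → ℝ) R else 0) = if x ∈ Q then (#U : ℝ) else 0 := by
    intro 𝒜 Q hQ x
    rw [sum_eq_single_of_mem Q hQ]
    · simp
    · intro R _ ne; simp [ne]
  have hQ : ∀ Q ∈ 𝒬, #U * ∑ x ∈ Q, φ (Pi.single x 1) < u := fun Q hQ => by
    rw [← ev]
    refine h1 _ ⟨(Pi.single Q #U, 0), ⟨⟨(sg Q).1, le_rfl⟩, (sg Q).2, fun _ => by simp⟩, ?_⟩
    ext x
    simp [Lm, sm 𝒬 Q hQ x]
  have hB : ∀ Q ∈ ℬ, #U * ∑ x ∈ Q, φ (Pi.single x 1) < u := fun Q hQ => by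
    rw [← ev]
    refine h1 _ ⟨(0, Pi.single Q #U), ⟨⟨le_rfl, (sg Q).1⟩, fun _ => by simp, (sg Q).2⟩, ?_⟩
    ext x
    simp [Lm, sm ℬ Q hQ x]
  rw [ev, one_mul] at h2
  have := real (fun x => #U * φ (Pi.single x 1) - u) (fun Q k => by
    have := hQ Q (mem_filter.2 ⟨mem_univ _, k⟩)
    rw [sum_sub_distrib, ← mul_sum, sum_const, k.2.1, nsmul_eq_mul]
    push_cast
    nlinarith [Nat.cast_nonneg (α := ℝ) t]) (fun x hx k => by
    by_contra a
    have := hB {x} (mem_image_of_mem _ (mem_filter.2 ⟨hx, a⟩))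
    rw [sum_singleton] at this
    linarith)
  rw [sum_sub_distrib, ← mul_sum, sum_const, nsmul_eq_mul] at this
  rcases U.eq_empty_or_nonempty with e | e
  · rw [e, sum_empty] at h2; linarith
  · have : (0 : ℝ) < #U := by exact_mod_cast e.card_pos
    nlinarith

end Pool.Agent.MP_61e9ba_co

end MrgPart0

-- ======== part 1: formerly Pool.Agent.MP_61e9ba_co.Prob
section MrgPart1

/-!
Finite probability: a tail bound, sampling, blow-ups and templates.
-/

namespace Pool.Agent.MP_61e9ba_co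

open Finset
open Fintype (piFinset mem_piFinset card_piFinset)

open scoped Classical

lemma hoeff {ι β : Type} [Fintype ι] [DecidableEq ι] (C : ι → Finset β) (hC : ∀ i, (C i).Nonempty)
    (f : ι → β → ℝ) {h l : ℝ} (hf : ∀ i x, |f i x| ≤ h) (hl : 0 ≤ l) (hlh : 2 * l * h ≤ 1) (a : ℝ) :
    (#{ω ∈ piFinset C | ∑ i, (∑ x ∈ C i, f i x) / #(C i) + a ≤ ∑ i, f i (ω i)} : ℝ) ≤
      Real.exp (4 * l ^ 2 * h ^ 2 * Fintype.card ι - l * a) * ∏ i, (#(C i) : ℝ) := by
  set μ : ι → ℝ := fun i => (∑ x ∈ C i, f i x) / #(C i) with hμ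
  have cp : ∀ i, (0 : ℝ) < #(C i) := fun i => by exact_mod_cast (hC i).card_pos
  have mu : ∀ i, |μ i| ≤ h := fun i => by
    rw [hμ, abs_div, abs_of_pos (cp i), div_le_iff₀ (cp i)]
    refine (abs_sum_le_sum_abs _ _).trans ((sum_le_sum fun x _ => hf i x).trans ?_)
    simp [mul_comm]
  have one : ∀ i, ∑ x ∈ C i, Real.exp (l * (f i x - μ i)) ≤ Real.exp (4 * l ^ 2 * h ^ 2) * #(C i) := by
    intro i
    have b : ∀ x ∈ C i, Real.exp (l * (f i x - μ i)) ≤ 1 + l * (f i x - μ i) + 4 * l ^ 2 * h ^ 2 := by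
      intro x _
      have k1 : |f i x - μ i| ≤ 2 * h := (abs_sub _ _).trans (by linarith [hf i x, mu i])
      have k2 : |l * (f i x - μ i)| ≤ 2 * l * h := by
        rw [abs_mul, abs_of_nonneg hl]; nlinarith
      have k3 := (abs_le.1 (Real.abs_exp_sub_one_sub_id_le (k2.trans hlh))).2
      have k4 : (l * (f i x - μ i)) ^ 2 ≤ (2 * l * h) ^ 2 := sq_le_sq' (abs_le.1 k2).1 (abs_le.1 k2).2
      nlinarith
    refine (sum_le_sum b).trans ?_
    have e : ∑ x ∈ C i, (f i x - μ i) = 0 := by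
      rw [sum_sub_distrib, sum_const, nsmul_eq_mul, hμ, mul_div_cancel₀ _ (cp i).ne', sub_self]
    rw [sum_add_distrib, sum_add_distrib, ← mul_sum, e]
    simp only [sum_const, nsmul_eq_mul]
    nlinarith [Real.add_one_le_exp (4 * l ^ 2 * h ^ 2), cp i]
  calc (#{ω ∈ piFinset C | ∑ i, μ i + a ≤ ∑ i, f i (ω i)} : ℝ)
      = ∑ ω ∈ piFinset C, if ∑ i, μ i + a ≤ ∑ i, f i (ω i) then (1 : ℝ) else 0 := by simp
    _ ≤ ∑ ω ∈ piFinset C, Real.exp (-(l * a)) * ∏ i, Real.exp (l * (f i (ω i) - μ i)) := by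
        refine sum_le_sum fun ω _ => ?_
        rw [← Real.exp_sum, ← Real.exp_add, ← mul_sum, sum_sub_distrib]
        split_ifs with k
        · exact Real.one_le_exp (by nlinarith)
        · positivity
    _ = Real.exp (-(l * a)) * ∏ i, ∑ x ∈ C i, Real.exp (l * (f i x - μ i)) := by
        rw [← mul_sum, prod_univ_sum]
    _ ≤ Real.exp (-(l * a)) * ∏ i, (Real.exp (4 * l ^ 2 * h ^ 2) * #(C i)) := by
        gcongr with i
        exact one i
    _ = _ := by
        rw [prod_mul_distrib, prod_const, card_univ, ← Real.exp_nat_mul, ← mul_assoc, ← Real.exp_add]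
        congr 2; ring

lemma exp_small {c q M : ℝ} (hc : 0 < c) (hq : 0 ≤ q) (hM : 4 * q / c ^ 2 < M) :
    M * q * Real.exp (-(c * M)) < 1 / 2 := by
  have hM0 : 0 < M := lt_of_le_of_lt (by positivity) hM
  rw [div_lt_iff₀ (by positivity)] at hM
  have := Real.quadratic_le_exp_of_nonneg (x := c * M) (by positivity)
  rw [Real.exp_neg, ← div_eq_mul_inv, div_lt_iff₀ (Real.exp_pos _)]
  nlinarith [mul_pos hc hM0]

lemma sample {β : Type} (M q : ℕ) {h ε : ℝ} (hh : 0 < h) (hε : 0 < ε) (hεh : ε ≤ 4 * h)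
    {𝒰 : Finset β} (hU : 𝒰.Nonempty) (𝒯 : β → Finset (β → ℝ)) (hq : ∀ x, #(𝒯 x) ≤ q)
    (hb : ∀ x, ∀ f ∈ 𝒯 x, ∀ y, |f y| ≤ h) :
    (#{ω ∈ piFinset fun _ : Fin M => 𝒰 | ∃ i, ∃ f ∈ 𝒯 (ω i),
      M * ((∑ y ∈ 𝒰, f y) / #𝒰 + ε) + 2 * h ≤ ∑ j, f (ω j)} : ℝ) ≤
      M * q * Real.exp (-(ε ^ 2 / (16 * h ^ 2) * M)) * (#𝒰 : ℝ) ^ M := by
  have cp : (0 : ℝ) < #𝒰 := by exact_mod_cast hU.card_pos
  set e := Real.exp (-(ε ^ 2 / (16 * h ^ 2) * M))
  set B : Fin M → β → (β → ℝ) → Finset (Fin M → β) := fun i x f =>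
    {ω ∈ piFinset (Function.update (fun _ => 𝒰) i {x}) |
      ∑ j, (∑ y ∈ Function.update (fun _ => 𝒰) i {x} j, f y) /
        #(Function.update (fun _ : Fin M => 𝒰) i {x} j) + ε * M ≤ ∑ j, f (ω j)}
  have cB : ∀ i x, ∀ f ∈ 𝒯 x, (#(B i x f) : ℝ) * #𝒰 ≤ e * (#𝒰 : ℝ) ^ M := by
    intro i x f hf
    have := hoeff (Function.update (fun _ : Fin M => 𝒰) i {x}) (fun j => by
      by_cases a : j = i
      · rw [a, Function.update_self]; exact singleton_nonempty _
      · rwa [Function.update_of_ne a]) (fun _ => f) (l := ε / (8 * h ^ 2))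
      (fun _ y => hb x f hf y) (by positivity) (by
        rw [mul_comm, ← mul_assoc, ← mul_div_assoc, div_le_one (by positivity)]; nlinarith) (ε * M)
    have e1 : (∏ j, (#(Function.update (fun _ : Fin M => 𝒰) i {x} j) : ℝ)) * #𝒰 = (#𝒰 : ℝ) ^ M := by
      rw [← mul_prod_erase _ _ (mem_univ i), Function.update_self,
        prod_congr rfl fun j hj => by rw [Function.update_of_ne (ne_of_mem_erase hj)], prod_const,
        card_erase_of_mem (mem_univ _), card_singleton, card_univ, Fintype.card_fin, Nat.cast_one,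
        one_mul, ← pow_succ, Nat.sub_add_cancel (by have := i.2; omega)]
    have e2 : 4 * (ε / (8 * h ^ 2)) ^ 2 * h ^ 2 * (Fintype.card (Fin M) : ℝ) -
        ε / (8 * h ^ 2) * (ε * M) = -(ε ^ 2 / (16 * h ^ 2) * M) := by
      rw [Fintype.card_fin]; field_simp; ring
    rw [e2] at this
    rw [← e1, ← mul_assoc]
    exact mul_le_mul_of_nonneg_right this cp.le
  have sub : {ω ∈ piFinset fun _ : Fin M => 𝒰 | ∃ i, ∃ f ∈ 𝒯 (ω i),
      M * ((∑ y ∈ 𝒰, f y) / #𝒰 + ε) + 2 * h ≤ ∑ j, f (ω j)} ⊆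
      univ.biUnion fun i => 𝒰.biUnion fun x => (𝒯 x).biUnion (B i x) := by
    intro ω hω
    obtain ⟨h1, i, f, h2, h3⟩ := mem_filter.1 hω
    rw [mem_piFinset] at h1
    refine mem_biUnion.2 ⟨i, mem_univ _, mem_biUnion.2 ⟨ω i, h1 i, mem_biUnion.2 ⟨f, h2,
      mem_filter.2 ⟨mem_piFinset.2 fun j => ?_, le_trans ?_ h3⟩⟩⟩⟩
    · by_cases a : j = i
      · rw [a, Function.update_self]; exact mem_singleton_self _
      · rw [Function.update_of_ne a]; exact h1 j
    · have mu : |(∑ y ∈ 𝒰, f y) / #𝒰| ≤ h := by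
        rw [abs_div, abs_of_pos cp, div_le_iff₀ cp]
        refine (abs_sum_le_sum_abs _ _).trans ((sum_le_sum fun y _ => hb _ f h2 y).trans ?_)
        simp [mul_comm]
      rw [← add_sum_erase _ _ (mem_univ i), Function.update_self,
        sum_congr (s₁ := univ.erase i) rfl fun j hj => by
          rw [Function.update_of_ne (ne_of_mem_erase hj)], sum_const,
        card_erase_of_mem (mem_univ _), card_univ, Fintype.card_fin, nsmul_eq_mul,
        Nat.cast_sub (by have := i.2; omega)]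
      simp only [sum_singleton, card_singleton, Nat.cast_one, div_one]
      have := abs_le.1 (hb _ f h2 (ω i))
      have := abs_le.1 mu
      linarith
  have c1 : (#(univ.biUnion fun i => 𝒰.biUnion fun x => (𝒯 x).biUnion (B i x)) : ℝ) ≤
      ∑ i : Fin M, ∑ x ∈ 𝒰, ∑ f ∈ 𝒯 x, (#(B i x f) : ℝ) := by
    exact_mod_cast card_biUnion_le.trans (sum_le_sum fun i _ => card_biUnion_le.trans
      (sum_le_sum fun x _ => card_biUnion_le))
  refine le_trans (by exact_mod_cast card_le_card sub) (c1.trans (le_of_mul_le_mul_right ?_ cp))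
  simp only [sum_mul]
  calc ∑ i : Fin M, ∑ x ∈ 𝒰, ∑ f ∈ 𝒯 x, (#(B i x f) : ℝ) * #𝒰
      ≤ ∑ i : Fin M, ∑ x ∈ 𝒰, q * (e * (#𝒰 : ℝ) ^ M) := by
        refine sum_le_sum fun i _ => sum_le_sum fun x _ => (sum_le_sum (cB i x)).trans ?_
        rw [sum_const, nsmul_eq_mul]
        exact mul_le_mul_of_nonneg_right (by exact_mod_cast hq x) (by positivity)
    _ = _ := by simp; ring

lemma blowup (b M : ℕ) : ∀ δ : ℝ, 0 < δ → ∃ φ : ℝ, 0 < φ ∧ ∀ (β : Type) [DecidableEq β] (𝒰 F : Finset β)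
    (P : Finset (Fin M → β)), 𝒰.Nonempty → P ⊆ piFinset (fun _ => 𝒰) → δ * (#𝒰 : ℝ) ^ M ≤ #P →
    (#(F ∩ 𝒰) : ℝ) + M * b ≤ φ * #𝒰 → ∃ A : Fin M → Finset β, (∀ i, A i ⊆ 𝒰 \ F ∧ #(A i) = b) ∧
      (∀ i j, i ≠ j → Disjoint (A i) (A j)) ∧ ∀ ω, (∀ i, ω i ∈ A i) → ω ∈ P := by
  induction M with
  | zero =>
    refine fun δ hδ => ⟨1, one_pos, fun β _ 𝒰 F P _ _ h _ => ⟨Fin.elim0, by simp, by simp, ?_⟩⟩
    intro ω _
    obtain ⟨ω', h'⟩ : P.Nonempty := card_pos.1 (by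
      have : (0 : ℝ) < #P := lt_of_lt_of_le (by simpa) h
      exact_mod_cast this)
    rwa [Subsingleton.elim ω ω']
  | succ M ih =>
    intro δ hδ
    obtain ⟨φ, hφ, H⟩ := ih ((δ / 4) ^ b * (δ / 2)) (by positivity)
    refine ⟨min φ (δ / 4), by positivity, fun β _ 𝒰 F P hU hP hc hF => ?_⟩
    have cp : (0 : ℝ) < #𝒰 := by exact_mod_cast hU.card_pos
    set Q0 := {ω ∈ piFinset fun _ : Fin M => 𝒰 |
      δ / 2 * #𝒰 ≤ #{x ∈ 𝒰 | (Fin.cons x ω : Fin (M + 1) → β) ∈ P}}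
    have q0 : δ / 2 * (#𝒰 : ℝ) ^ M ≤ #Q0 := by
      have e1 : #P ≤ ∑ ω ∈ piFinset fun _ : Fin M => 𝒰,
          #{x ∈ 𝒰 | (Fin.cons x ω : Fin (M + 1) → β) ∈ P} := by
        rw [← card_sigma]
        refine card_le_card_of_injOn (fun ω => ⟨Fin.tail ω, ω 0⟩) (fun ω hω => ?_)
          fun ω _ ω' _ e => ?_
        · have := mem_piFinset.1 (hP hω)
          exact mem_sigma.2 ⟨mem_piFinset.2 fun i => this _, mem_filter.2 ⟨this 0, by
            simpa using hω⟩⟩
        · rw [← Fin.cons_self_tail ω, ← Fin.cons_self_tail ω']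
          simp only [Sigma.mk.injEq, heq_eq_eq] at e
          rw [e.1, e.2]
      have e2 : ∑ ω ∈ piFinset fun _ : Fin M => 𝒰,
          (#{x ∈ 𝒰 | (Fin.cons x ω : Fin (M + 1) → β) ∈ P} : ℝ) ≤
          ∑ ω ∈ piFinset fun _ : Fin M => 𝒰, ((if ω ∈ Q0 then (#𝒰 : ℝ) else 0) + δ / 2 * #𝒰) := by
        refine sum_le_sum fun ω hω => ?_
        split_ifs with a
        · have : (#{x ∈ 𝒰 | (Fin.cons x ω : Fin (M + 1) → β) ∈ P} : ℝ) ≤ #𝒰 := by
            exact_mod_cast card_filter_le _ _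
          nlinarith
        · have := mt (fun k => mem_filter.2 ⟨hω, k⟩) a
          linarith
      rw [sum_add_distrib, ← sum_filter, filter_mem_eq_inter,
        inter_eq_right.2 (filter_subset _ _)] at e2
      simp only [sum_const, nsmul_eq_mul, card_piFinset, prod_const, card_univ, Fintype.card_fin,
        Nat.cast_pow] at e2
      have e3 : (#P : ℝ) ≤ ∑ ω ∈ piFinset fun _ : Fin M => 𝒰,
          (#{x ∈ 𝒰 | (Fin.cons x ω : Fin (M + 1) → β) ∈ P} : ℝ) := by exact_mod_cast e1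
      rw [pow_succ] at hc
      refine le_of_mul_le_mul_right ?_ cp
      nlinarith
    have m1 : min φ (δ / 4) * #𝒰 ≤ φ * #𝒰 := mul_le_mul_of_nonneg_right (min_le_left _ _) cp.le
    have m2 : min φ (δ / 4) * #𝒰 ≤ δ / 4 * #𝒰 := mul_le_mul_of_nonneg_right (min_le_right _ _) cp.le
    have inner : ∀ j ≤ b, ∃ B ⊆ 𝒰 \ F, #B = j ∧ (δ / 4) ^ j * #Q0 ≤
        #{ω ∈ Q0 | ∀ x ∈ B, (Fin.cons x ω : Fin (M + 1) → β) ∈ P} := by
      intro j
      induction j with
      | zero => exact fun _ => ⟨∅, by simp, rfl, by simp⟩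
      | succ j ihj =>
        intro hj
        obtain ⟨B, b1, b2, b3⟩ := ihj (by omega)
        set Q := {ω ∈ Q0 | ∀ x ∈ B, (Fin.cons x ω : Fin (M + 1) → β) ∈ P}
        set S := 𝒰 \ (F ∩ 𝒰 ∪ B)
        have bad : (#(F ∩ 𝒰 ∪ B) : ℝ) ≤ δ / 4 * #𝒰 := by
          have k1 : (#(F ∩ 𝒰 ∪ B) : ℝ) ≤ #(F ∩ 𝒰) + #B := by exact_mod_cast card_union_le _ _
          have k2 : (#B : ℝ) ≤ b := by exact_mod_cast (by omega)
          push_cast at hF
          nlinarith [Nat.cast_nonneg (α := ℝ) M, Nat.cast_nonneg (α := ℝ) b]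
        have dg : ∀ ω ∈ Q0, δ / 4 * #𝒰 ≤ #{x ∈ S | (Fin.cons x ω : Fin (M + 1) → β) ∈ P} := by
          intro ω hω
          have k1 := (mem_filter.1 hω).2
          have k2 : #{x ∈ 𝒰 | (Fin.cons x ω : Fin (M + 1) → β) ∈ P} ≤
              #{x ∈ S | (Fin.cons x ω : Fin (M + 1) → β) ∈ P} + #(F ∩ 𝒰 ∪ B) := by
            refine le_trans (card_le_card fun x hx => ?_) (card_union_le _ _)
            by_cases a : x ∈ F ∩ 𝒰 ∪ B
            · exact mem_union_right _ a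
            · exact mem_union_left _ (mem_filter.2 ⟨mem_sdiff.2 ⟨(mem_filter.1 hx).1, a⟩,
                (mem_filter.1 hx).2⟩)
          have k3 : (#{x ∈ 𝒰 | (Fin.cons x ω : Fin (M + 1) → β) ∈ P} : ℝ) ≤
              #{x ∈ S | (Fin.cons x ω : Fin (M + 1) → β) ∈ P} + #(F ∩ 𝒰 ∪ B) := by exact_mod_cast k2
          linarith
        have ne : S.Nonempty := by
          obtain ⟨ω, hω⟩ : Q0.Nonempty := card_pos.1 (by
            have : (0 : ℝ) < #Q0 := lt_of_lt_of_le (by positivity) q0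
            exact_mod_cast this)
          have : (0 : ℝ) < #{x ∈ S | (Fin.cons x ω : Fin (M + 1) → β) ∈ P} :=
            lt_of_lt_of_le (by positivity) (dg ω hω)
          exact (card_pos.1 (by exact_mod_cast this)).mono (filter_subset _ _)
        obtain ⟨x, x1, x2⟩ := exists_le_of_sum_le (f := fun _ => δ / 4 * #Q)
          (g := fun x => (#{ω ∈ Q | (Fin.cons x ω : Fin (M + 1) → β) ∈ P} : ℝ)) ne (by
            have k1 : ∑ x ∈ S, (#{ω ∈ Q | (Fin.cons x ω : Fin (M + 1) → β) ∈ P} : ℝ) =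
                ∑ ω ∈ Q, (#{x ∈ S | (Fin.cons x ω : Fin (M + 1) → β) ∈ P} : ℝ) := by
              simp only [card_filter]; push_cast; exact sum_comm
            have k2 := sum_le_sum fun ω (hω : ω ∈ Q) => dg ω (mem_filter.1 hω).1
            have k3 : (#S : ℝ) ≤ #𝒰 := by exact_mod_cast card_le_card sdiff_subset
            rw [k1]
            refine le_trans ?_ k2
            simp only [sum_const, nsmul_eq_mul]
            nlinarith [mul_nonneg hδ.le (Nat.cast_nonneg (α := ℝ) #Q)])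
        obtain ⟨x3, x4⟩ := mem_sdiff.1 x1
        rw [mem_union, not_or] at x4
        refine ⟨insert x B, insert_subset (mem_sdiff.2 ⟨x3, fun a => x4.1 (mem_inter.2 ⟨a, x3⟩)⟩) b1,
          by rw [card_insert_of_notMem x4.2, b2], ?_⟩
        have k : {ω ∈ Q | (Fin.cons x ω : Fin (M + 1) → β) ∈ P} =
            {ω ∈ Q0 | ∀ y ∈ insert x B, (Fin.cons y ω : Fin (M + 1) → β) ∈ P} := by
          ext ω; simp only [Q, mem_filter, forall_mem_insert]; tauto
        rw [← k, pow_succ]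
        nlinarith
    obtain ⟨B, b1, b2, b3⟩ := inner b le_rfl
    obtain ⟨A, a1, a2, a3⟩ := H β 𝒰 (F ∪ B) _ hU
      ((filter_subset _ _).trans (filter_subset _ _)) (le_trans (by
        rw [mul_assoc]; exact mul_le_mul_of_nonneg_left q0 (by positivity)) b3) (by
        have k1 : #((F ∪ B) ∩ 𝒰) ≤ #(F ∩ 𝒰) + #B := by
          rw [union_inter_distrib_right]
          exact (card_union_le _ _).trans (Nat.add_le_add_left (card_le_card inter_subset_left) _)
        have k2 : (#((F ∪ B) ∩ 𝒰) : ℝ) ≤ #(F ∩ 𝒰) + b := by rw [← b2]; exact_mod_cast k1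
        push_cast at hF
        linarith)
    have dis : ∀ i, Disjoint B (A i) := fun i => disjoint_left.2 fun x hx hx' =>
      (mem_sdiff.1 ((a1 i).1 hx')).2 (mem_union_right _ hx)
    refine ⟨Fin.cons B A, fun i => ?_, fun i j => ?_, fun ω hω => ?_⟩
    · refine Fin.cases ⟨b1, b2⟩ (fun i => ⟨(a1 i).1.trans ?_, (a1 i).2⟩) i
      exact sdiff_subset_sdiff Subset.rfl subset_union_left
    · refine Fin.cases (Fin.cases (by simp) fun j _ => dis j) (fun i => Fin.cases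
        (fun _ => (dis i).symm) fun j ne => a2 i j (by rintro rfl; exact ne rfl)) i j
    · have := (mem_filter.1 (a3 (Fin.tail ω) fun i => hω i.succ)).2 (ω 0) (hω 0)
      rwa [Fin.cons_self_tail] at this

theorem template (q M1 : ℕ) {h ε : ℝ} (hh : 0 < h) (hε : 0 < ε) (hεh : ε ≤ h) :
    ∃ M, M1 ≤ M ∧ ∀ b ncol : ℕ, 0 < b → ∃ φ : ℝ, 0 < φ ∧ ∀ (β Λ : Type) [DecidableEq β] (𝒰 F : Finset β)
      (𝒯 : β → Finset (β → ℝ)) (τ : (Fin M → β) → Λ) (Col : Finset Λ), 𝒰.Nonempty →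
      (∀ x, #(𝒯 x) ≤ q) → (∀ x, ∀ f ∈ 𝒯 x, ∀ y, |f y| ≤ h) → #Col ≤ ncol →
      (∀ ω, (∀ i, ω i ∈ 𝒰) → τ ω ∈ Col) → (#(F ∩ 𝒰) : ℝ) + M * b ≤ φ * #𝒰 →
      ∃ (ω : Fin M → β) (A : Fin M → Finset β), (∀ i, A i ⊆ 𝒰 \ F ∧ #(A i) = b) ∧
        (∀ i j, i ≠ j → Disjoint (A i) (A j)) ∧ (∀ i, ω i ∈ A i) ∧
        (∀ i, ∀ f ∈ 𝒯 (ω i), ∑ j, f (ω j) ≤ M * ((∑ y ∈ 𝒰, f y) / #𝒰 + ε)) ∧
        ∀ ω', (∀ i, ω' i ∈ A i) → τ ω' = τ ω := by
  obtain ⟨M2, hM2⟩ := exists_nat_gt (max (4 * q / ((ε / 2) ^ 2 / (16 * h ^ 2)) ^ 2) (4 * h / ε))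
  refine ⟨max M1 M2, le_max_left _ _, fun b ncol hb => ?_⟩
  set M := max M1 M2
  have hM : (M2 : ℝ) ≤ M := by exact_mod_cast le_max_right _ _
  obtain ⟨φ, hφ, H⟩ := blowup b M (1 / (2 * (ncol + 1))) (by positivity)
  refine ⟨φ, hφ, fun β Λ _ 𝒰 F 𝒯 τ Col hU hq hf hcol hτ hF => ?_⟩
  have cp : (0 : ℝ) < (#𝒰 : ℝ) ^ M := pow_pos (by exact_mod_cast hU.card_pos) _
  have s1 := sample M q hh (half_pos hε) (by linarith) hU 𝒯 hq hf
  have s2 := exp_small (c := (ε / 2) ^ 2 / (16 * h ^ 2)) (q := q) (M := M) (by positivity)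
    (by positivity) (((le_max_left _ _).trans_lt hM2).trans_le hM)
  have s3 := card_filter_add_card_filter_not (s := piFinset fun _ : Fin M => 𝒰)
    fun ω => ∃ i, ∃ f ∈ 𝒯 (ω i), M * ((∑ y ∈ 𝒰, f y) / #𝒰 + ε / 2) + 2 * h ≤ ∑ j, f (ω j)
  set Gd := {ω ∈ piFinset fun _ : Fin M => 𝒰 | ¬ ∃ i, ∃ f ∈ 𝒯 (ω i),
    M * ((∑ y ∈ 𝒰, f y) / #𝒰 + ε / 2) + 2 * h ≤ ∑ j, f (ω j)}
  have s4 : (#𝒰 : ℝ) ^ M / 2 ≤ #Gd := by
    have := congrArg (Nat.cast : ℕ → ℝ) s3
    simp only [card_piFinset, prod_const, card_univ, Fintype.card_fin] at this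
    push_cast at this
    nlinarith
  have hm : ∀ ω ∈ Gd, τ ω ∈ Col := fun ω hω => hτ ω (mem_piFinset.1 (mem_filter.1 hω).1)
  have ne : Col.Nonempty := by
    obtain ⟨ω, hω⟩ : Gd.Nonempty := card_pos.1 (by
      have : (0 : ℝ) < #Gd := lt_of_lt_of_le (by positivity) s4
      exact_mod_cast this)
    exact ⟨_, hm ω hω⟩
  obtain ⟨l, -, hl⟩ := exists_le_of_sum_le (f := fun _ => 1 / (2 * (ncol + 1)) * (#𝒰 : ℝ) ^ M)
    (g := fun l => (#{ω ∈ Gd | τ ω = l} : ℝ)) ne (by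
      have k1 := congrArg (Nat.cast : ℕ → ℝ) (card_eq_sum_card_fiberwise hm)
      push_cast at k1
      rw [← k1, sum_const, nsmul_eq_mul]
      refine le_trans ?_ s4
      have k2 : (#Col : ℝ) ≤ ncol + 1 := by exact_mod_cast hcol.trans (Nat.le_succ _)
      calc (#Col : ℝ) * (1 / (2 * (ncol + 1)) * (#𝒰 : ℝ) ^ M)
          ≤ (ncol + 1) * (1 / (2 * (ncol + 1)) * (#𝒰 : ℝ) ^ M) := by gcongr
        _ = _ := by field_simp)
  obtain ⟨A, a1, a2, a3⟩ := H β 𝒰 F _ hU ((filter_subset _ _).trans (filter_subset _ _)) hl hF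
  have : ∀ i, ∃ x, x ∈ A i := fun i => card_pos.1 (by rw [(a1 i).2]; exact hb)
  choose ω hω using this
  refine ⟨ω, A, a1, a2, hω, fun i f hf' => ?_, fun ω' h' => ?_⟩
  · have k1 := (mem_filter.1 (mem_filter.1 (a3 ω hω)).1).2
    push Not at k1
    have k2 := k1 i f hf'
    have k3 : 4 * h / ε < M := ((le_max_right _ _).trans_lt hM2).trans_le hM
    rw [div_lt_iff₀ hε] at k3
    linarith
  · rw [(mem_filter.1 (a3 ω hω)).2, (mem_filter.1 (a3 ω' h')).2]

end Pool.Agent.MP_61e9ba_co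

end MrgPart1

-- ======== part 2: formerly Pool.Agent.MP_61e9ba_co.Local
section MrgPart2

/-!
Robust local connection and absorption.
-/

namespace Pool.Agent.MP_61e9ba_co

open Finset

open scoped Classical

variable {N : ℕ}

lemma Near.symm {r : ℕ} {a b : ZMod N} (h : Near r a b) : Near r b a := by
  obtain ⟨j, j1, rfl⟩ := h
  exact ⟨-j, by rwa [abs_neg], by push_cast; ring⟩

lemma Near.rfl {r : ℕ} {a : ZMod N} : Near r a a := ⟨0, by simp, by simp⟩

lemma Near.mono {r r' : ℕ} {a b : ZMod N} (h : Near r a b) (hr : r ≤ r') : Near r' a b := by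
  obtain ⟨j, j1, j2⟩ := h
  exact ⟨j, j1.trans (by exact_mod_cast hr), j2⟩

lemma InW.near {K : ℕ} {a b b' : ZMod N} (h : InW K a b) (h' : InW K a b') : Near K b b' := by
  obtain ⟨j, j1, rfl⟩ := h
  obtain ⟨j', j1', rfl⟩ := h'
  exact ⟨j' - j, by rw [abs_le]; omega, by push_cast; ring⟩

lemma InW.rfl {K : ℕ} {a : ZMod N} : InW K a a := ⟨0, by simp, by simp⟩

/-- The cells near `a`. -/
noncomputable def ball (r : ℕ) (a : ZMod N) : Finset (ZMod N) :=
  (Icc (-(r : ℤ)) r).image fun j : ℤ => a + j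

lemma mem_ball' {r : ℕ} {a b : ZMod N} : b ∈ ball r a ↔ Near r a b := by
  simp only [ball, mem_image, mem_Icc, Near, abs_le, eq_comm]

lemma card_ball (r : ℕ) (a : ZMod N) : #(ball r a) ≤ 2 * r + 1 :=
  card_image_le.trans (by simp; omega)

lemma near_card {ι : Type} (S : Finset ι) (loc : ι → ZMod N) {τ : ℝ}
    (h : ∀ j, (#{x ∈ S | loc x = j} : ℝ) ≤ τ) (r : ℕ) (a : ZMod N) :
    (#{x ∈ S | Near r a (loc x)} : ℝ) ≤ (2 * r + 1) * τ := by
  have e : {x ∈ S | Near r a (loc x)} ⊆ (ball r a).biUnion fun j => {x ∈ S | loc x = j} :=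
    fun x hx => mem_biUnion.2 ⟨_, mem_ball'.2 (mem_filter.1 hx).2,
      mem_filter.2 ⟨(mem_filter.1 hx).1, rfl⟩⟩
  calc (#{x ∈ S | Near r a (loc x)} : ℝ) ≤ ∑ j ∈ ball r a, (#{x ∈ S | loc x = j} : ℝ) := by
        exact_mod_cast (card_le_card e).trans card_biUnion_le
    _ ≤ ∑ _j ∈ ball r a, τ := sum_le_sum fun j _ => h j
    _ ≤ _ := by
        rw [sum_const, nsmul_eq_mul]
        exact mul_le_mul_of_nonneg_right (by exact_mod_cast card_ball r a)
          ((Nat.cast_nonneg _).trans (h 0))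

lemma exists_end {V : Type} {G : SimpleGraph V} {c : V → ZMod N} {U : Finset V} {t K : ℕ} {D s : ℝ}
    (hN : 2 * K + 1 ≤ N) (hD : 0 ≤ D) (slack : t * D < K * s)
    (bud : ∀ x ∈ U, (#(cmiss G c U K x) : ℝ) ≤ D) (full : ∀ j, s ≤ #{y ∈ U | c y = j})
    (a : ZMod N) : ∃ Y : List V, Y.length = t ∧ PW G t Y ∧ ∀ x ∈ Y, x ∈ U ∧ InW K a (c x) := by
  set S := {y ∈ U | InW K a (c y)}
  have c1 : K * s ≤ #S := by
    have e : (range K).biUnion (fun j : ℕ => {y ∈ U | c y = a + j}) ⊆ S := by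
      intro y hy
      obtain ⟨j, j1, j2⟩ := mem_biUnion.1 hy
      exact mem_filter.2 ⟨(mem_filter.1 j2).1, j, (mem_range.1 j1).le, (mem_filter.1 j2).2⟩
    have e2 := card_le_card e
    rw [card_biUnion fun i hi j hj ne => disjoint_left.2 fun y h1 h2 => ne (by
      have := (mem_filter.1 h1).2.symm.trans (mem_filter.1 h2).2
      rw [add_right_inj, ZMod.natCast_eq_natCast_iff'] at this
      simp only [coe_range, Set.mem_Iio] at hi hj
      rwa [Nat.mod_eq_of_lt (by omega), Nat.mod_eq_of_lt (by omega)] at this)] at e2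
    calc K * s = ∑ _j ∈ range K, s := by simp
      _ ≤ ∑ j ∈ range K, (#{y ∈ U | c y = a + j} : ℝ) := sum_le_sum fun j _ => full _
      _ ≤ _ := by exact_mod_cast e2
  obtain ⟨Z, z1, z2, z3⟩ := grow_left (G := G) (S := S) hD (slack.trans_le c1) (fun x hx => by
    refine le_trans ?_ (bud x (mem_filter.1 hx).1)
    have : {y ∈ S | ¬ G.Adj x y} ⊆ cmiss G c U K x := fun y hy =>
      mem_filter.2 ⟨(mem_filter.1 (mem_filter.1 hy).1).1,
        (mem_filter.1 hx).2.near (mem_filter.1 (mem_filter.1 hy).1).2, (mem_filter.1 hy).2⟩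
    exact_mod_cast card_le_card this)
    (Y := []) (by simp) pw_nil t
  exact ⟨Z, z1, by simpa using z3, fun x hx => mem_filter.1 (z2 x hx)⟩

lemma finite_bound {Θ : Type} [Finite Θ] (Q : Θ → ℕ → Prop) :
    ∃ b, ∀ θ, (∃ n, Q θ n) → ∃ n ≤ b, Q θ n := by
  have : ∀ θ, ∃ m, (∃ n, Q θ n) → Q θ m := fun θ => by
    by_cases h : ∃ n, Q θ n
    · obtain ⟨n, hn⟩ := h; exact ⟨n, fun _ => hn⟩
    · exact ⟨0, fun k => absurd k h⟩
  choose m hm using this
  obtain ⟨b, hb⟩ := (Set.finite_range m).bddAbove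
  exact ⟨b, fun θ h => ⟨m θ, hb ⟨θ, rfl⟩, hm θ h⟩⟩

lemma sum_neg_boole {ι : Type} (S : Finset ι) (p : ι → Prop) [DecidablePred p] :
    ∑ y ∈ S, (if p y then (-1 : ℝ) else 0) = -∑ y ∈ S, if p y then (1 : ℝ) else 0 := by
  rw [← sum_neg_distrib]; exact sum_congr rfl fun y _ => by split_ifs <;> simp

/-- The slack survives sampling. -/
lemma slack_sample {t K D s n η L M : ℝ} (ht : 0 ≤ t) (hK : 1 ≤ K) (hη : 0 < η) (hs : 0 < s)
    (hn : 0 < n) (hL : n ≤ L * s) (hM : 0 < M) (h : t * D ≤ (1 - η) * K * s) :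
    t * (M * (D / n + η / (2 * L * (t + K)))) < K * (M * (s / n - η / (2 * L * (t + K)))) := by
  have hL0 : 0 < L := by by_contra a; nlinarith
  have e1 : (t + K) * (η / (2 * L * (t + K))) = η / (2 * L) := by field_simp
  have e2 : η / L ≤ η * s / n := by rw [div_le_div_iff₀ hL0 hn]; nlinarith
  have e3 : η * s / n ≤ K * (s / n) - t * (D / n) := by
    rw [← mul_div_assoc, ← mul_div_assoc, ← sub_div]
    exact div_le_div_of_nonneg_right (by nlinarith [mul_pos hη hs]) hn.le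
  have e4 : η / (2 * L) < η / L := div_lt_div_of_pos_left hη hL0 (by linarith)
  nlinarith

theorem local_connect (t K Λ : ℕ) (ht : 1 ≤ t) (hK : 1 ≤ K) (hΛ : 1 ≤ Λ) {η : ℝ} (hη : 0 < η)
    (hη1 : η ≤ 1) : ∃ C : ℕ, ∃ φ : ℝ, 0 < φ ∧ ∃ s0 : ℝ, 0 < s0 ∧ ∀ (V : Type) (N : ℕ)
      (G : SimpleGraph V) (c : V → ZMod N) (U F : Finset V) (D s : ℝ), s0 ≤ s → 2 * K + 1 ≤ N →
      0 ≤ D → t * D ≤ (1 - η) * K * s → (∀ x, (#(cmiss G c U K x) : ℝ) ≤ D) →
      (∀ j, s ≤ #{y ∈ U | c y = j} ∧ (#{y ∈ U | c y = j} : ℝ) ≤ Λ * s) →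
      (∀ j, (#{y ∈ F ∩ U | c y = j} : ℝ) ≤ φ * s) → ∀ (a a' : ZMod N) (Y Y' : List V) (v : V),
      (a' = a ∨ a' + 1 = a) → Y.length = t → Y'.length = t → PW G t Y → PW G t Y' →
      (∀ x ∈ Y, InW K a' (c x)) → (∀ x ∈ Y', InW K a (c x)) → InW K a (c v) →
      ∃ m1 m2 : List V, m1.Nodup ∧ m1.length ≤ C ∧
        (∀ x ∈ m1, x ∈ U ∧ x ∉ F ∧ Near (2 * K + 1) a (c x)) ∧ m2.Perm (v :: m1) ∧
        PW G t (Y ++ m1 ++ Y') ∧ PW G t (Y ++ m2 ++ Y') := by
  set L : ℝ := (2 * (2 * K + 1 : ℕ) + 1) * Λ with hL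
  have L1 : 1 ≤ L := one_le_mul_of_one_le_of_one_le (by
    have : (0 : ℝ) ≤ (2 * K + 1 : ℕ) := by positivity
    linarith) (by exact_mod_cast hΛ)
  have K1 : (1 : ℝ) ≤ K := by exact_mod_cast hK
  set ε := η / (2 * L * (t + K))
  have hε : 0 < ε := by positivity
  obtain ⟨M, hM, H⟩ := template (1 + (Fintype.card (Option (Fin t × Bool)) + (2 * (2 * K + 1) + 1)))
    1 one_pos hε (by
      rw [div_le_one (by positivity)]
      nlinarith [Nat.cast_nonneg (α := ℝ) t])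
  obtain ⟨b, hb⟩ := finite_bound (Θ := SimpleGraph (Option (Fin t × Bool) ⊕ Fin M)) fun θ n =>
    ∃ m1 m2 : List (Option (Fin t × Bool) ⊕ Fin M), m1.length = n ∧ (∀ x ∈ m1, ∃ i, x = .inr i) ∧
      m2.Perm (.inl none :: m1) ∧
      PW θ t (List.ofFn (fun i => .inl (some (i, false))) ++ m1 ++
        List.ofFn fun i => .inl (some (i, true))) ∧
      PW θ t (List.ofFn (fun i => .inl (some (i, false))) ++ m2 ++
        List.ofFn fun i => .inl (some (i, true)))
  obtain ⟨φ, hφ, H⟩ := H (b + 1) (Fintype.card (SimpleGraph (Option (Fin t × Bool) ⊕ Fin M)))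
    (by omega)
  refine ⟨b, φ / (2 * (2 * (2 * K + 1 : ℕ) + 1)), by positivity, 2 * M * (b + 1 : ℕ) / φ + 1,
    by positivity, ?_⟩
  intro V N G c U F D s hs hN hD slack bud cell hF a a' Y Y' v ha lY lY' pY pY' wY wY' wv
  have s0 : 0 < s := lt_of_lt_of_le (by positivity) hs
  set 𝒰 := {y ∈ U | Near (2 * K + 1) a (c y)}
  have n1 : s ≤ #𝒰 := (cell a).1.trans (by
    exact_mod_cast card_le_card fun y hy => mem_filter.2 ⟨(mem_filter.1 hy).1, by
      rw [(mem_filter.1 hy).2]; exact Near.rfl⟩)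
  have n2 : (#𝒰 : ℝ) ≤ L * s := by
    rw [hL, mul_assoc]; exact near_card U c (fun j => (cell j).2) _ a
  have n0 : (0 : ℝ) < #𝒰 := s0.trans_le n1
  set rt : Option (Fin t × Bool) → V := fun r => r.elim v fun p => (if p.2 then Y' else Y).getD p.1 v
    with hrt
  set mf : V → V → ℝ := fun z y => if y ∈ cmiss G c U K z then 1 else 0 with hmf
  set cf : ZMod N → V → ℝ := fun j y => if c y = j then -1 else 0 with hcf
  obtain ⟨ω, A, a1, a2, a3, a4, a5⟩ := H V _ 𝒰 F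
    (fun x => insert (mf x) (univ.image (mf ∘ rt) ∪ (ball (2 * K + 1) a).image cf))
    (fun ω => G.comap (Sum.elim rt ω)) univ (card_pos.1 (by exact_mod_cast n0))
    (fun x => (card_insert_le _ _).trans (by
      have := card_union_le (univ.image (mf ∘ rt)) ((ball (2 * K + 1) a).image cf)
      have := card_image_le (s := univ) (f := mf ∘ rt)
      have := card_image_le (s := ball (2 * K + 1) a) (f := cf)
      have := card_ball (2 * K + 1) a
      rw [card_univ] at *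
      omega))
    (fun x f hf y => by
      simp only [mem_insert, mem_union, mem_image] at hf
      rcases hf with rfl | ⟨_, _, rfl⟩ | ⟨_, _, rfl⟩ <;> simp only [hmf, hcf, Function.comp] <;>
        split_ifs <;> simp)
    (by rw [card_univ]) (fun _ _ => mem_univ _) (by
      have k1 := near_card (F ∩ U) c hF (2 * K + 1) a
      have k2 : F ∩ 𝒰 = {x ∈ F ∩ U | Near (2 * K + 1) a (c x)} := by
        ext x; simp [𝒰, and_assoc]
      have k3 : (2 * (2 * K + 1 : ℕ) + 1 : ℝ) * (φ / (2 * (2 * (2 * K + 1 : ℕ) + 1)) * s) =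
          φ * s / 2 := by field_simp
      have k4 : 2 * M * (b + 1 : ℕ) / φ ≤ s := by linarith
      rw [div_le_iff₀ hφ] at k4
      rw [k2]
      nlinarith)
  have wU : ∀ i, ω i ∈ 𝒰 := fun i => (mem_sdiff.1 ((a1 i).1 (a3 i))).1
  set UT : Finset (Option (Fin t × Bool) ⊕ Fin M) := univ.map Function.Embedding.inr
  have cnt : ∀ (p : Option (Fin t × Bool) ⊕ Fin M → Prop) [DecidablePred p],
      (#{y ∈ UT | p y} : ℝ) = ∑ j, if p (.inr j) then 1 else 0 := fun p _ => by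
    rw [filter_map, card_map, sum_boole]; rfl
  have i0 : Fin M := ⟨0, hM⟩
  have M0 : (0 : ℝ) < M := by exact_mod_cast hM
  have budT : ∀ x, (#(cmiss (G.comap (Sum.elim rt ω)) (c ∘ Sum.elim rt ω) UT K x) : ℝ) ≤
      M * (D / #𝒰 + ε) := by
    intro x
    have k1 : ∑ j, mf (Sum.elim rt ω x) (ω j) ≤
        M * ((∑ y ∈ 𝒰, mf (Sum.elim rt ω x) y) / #𝒰 + ε) := by
      cases x with
      | inl r => exact a4 i0 _ (mem_insert_of_mem (mem_union_left _ (mem_image_of_mem _ (mem_univ r))))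
      | inr i => exact a4 i _ (mem_insert_self _ _)
    have k2 : ∑ y ∈ 𝒰, mf (Sum.elim rt ω x) y ≤ D := by
      refine le_trans ?_ (bud (Sum.elim rt ω x))
      rw [hmf, sum_boole]
      exact_mod_cast card_le_card fun y hy => (mem_filter.1 hy).2
    rw [cmiss, cnt]
    refine le_trans (le_of_eq (sum_congr rfl fun j _ => if_congr ?_ rfl rfl)) (k1.trans (by gcongr))
    simp [cmiss, (mem_filter.1 (wU j)).1]
  have getm : ∀ (Z : List V) (i : Fin t), Z.length = t → Z.getD i v ∈ Z := fun Z i h => by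
    rw [List.getD_eq_getElem _ _ (by omega)]; exact List.getElem_mem _
  have ofn : ∀ β : Bool, (List.ofFn fun i : Fin t => (.inl (some (i, β)) :
      Option (Fin t × Bool) ⊕ Fin M)).map (Sum.elim rt ω) = if β then Y' else Y := by
    intro β
    have : (if β then Y' else Y).length = t := by split_ifs <;> assumption
    apply List.ext_getElem (by simp [this])
    intro i h1 h2
    simp [hrt, h2]
  have pwc : ∀ l : List (Option (Fin t × Bool) ⊕ Fin M), PW G t (l.map (Sum.elim rt ω)) →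
      PW (G.comap (Sum.elim rt ω)) t l := fun l h i j u w hi hj =>
    h i j _ _ (by rw [List.getElem?_map, hi]; rfl) (by rw [List.getElem?_map, hj]; rfl)
  obtain ⟨m1, m2, k1, k2, k3, k4⟩ := cyc_connect (G := G.comap (Sum.elim rt ω))
    (c := c ∘ Sum.elim rt ω) (U := UT) (s := M * (s / #𝒰 - ε)) ht hN (by positivity)
    (slack_sample (by positivity) K1 hη s0 n0 n2 M0 slack) (fun x _ => budT x) ha
    (fun j hj => by
      have k1 := a4 i0 _ (mem_insert_of_mem (mem_union_right _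
        (mem_image_of_mem cf (mem_ball'.2 hj))))
      have k3 : s ≤ ∑ y ∈ 𝒰, if c y = j then (1 : ℝ) else 0 := by
        rw [sum_boole]
        refine (cell j).1.trans ?_
        exact_mod_cast card_le_card fun y hy => mem_filter.2 ⟨mem_filter.2 ⟨(mem_filter.1 hy).1, by
          rwa [(mem_filter.1 hy).2]⟩, (mem_filter.1 hy).2⟩
      simp only [hcf, sum_neg_boole] at k1
      rw [cnt]
      have k4 := div_le_div_of_nonneg_right k3 n0.le
      rw [neg_div] at k1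
      have k5 := mul_le_mul_of_nonneg_left k4 M0.le
      show _ ≤ ∑ i, if c (ω i) = j then (1 : ℝ) else 0
      linarith)
    (Y := List.ofFn fun i => .inl (some (i, false))) (Y' := List.ofFn fun i => .inl (some (i, true)))
    (v := .inl none) (pwc _ (by rw [ofn]; exact pY)) (pwc _ (by rw [ofn]; exact pY'))
    (fun x hx => ⟨by
      obtain ⟨i, rfl⟩ := List.mem_ofFn.1 hx
      exact wY _ (getm Y i lY), budT x⟩)
    (fun x hx => ⟨by
      obtain ⟨i, rfl⟩ := List.mem_ofFn.1 hx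
      exact wY' _ (getm Y' i lY'), budT x⟩) ⟨wv, budT _⟩
  obtain ⟨n, hn, m1, m2, rfl, k1, k2, k3, k4⟩ := hb _ ⟨_, m1, m2, rfl, fun x hx => by
    obtain ⟨i, -, rfl⟩ := mem_map.1 (k1 x hx)
    exact ⟨i, rfl⟩, k2, k3, k4⟩
  obtain ⟨l1, q1, q2⟩ := exists_inst' m1 (Sum.elim (fun _ => ∅) A) (by
    rintro (x | x) (y | y) ne
    · simp
    · simp
    · simp
    · exact a2 x y (by rintro rfl; exact ne rfl)) (by
    intro x hx
    obtain ⟨i, rfl⟩ := k1 x hx
    rw [Sum.elim_inr, (a1 i).2]; omega)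
  set R : Option (Fin t × Bool) ⊕ Fin M → V → Prop :=
    Sum.elim (fun r u => u = rt r) fun i u => u ∈ A i
  have r1 : List.Forall₂ R m1 l1 := q1.imp (by
    rintro (x | x) u h
    · exact absurd h (notMem_empty _)
    · exact h)
  obtain ⟨l2, r2, r3⟩ := List.perm_comp_forall₂ k2 (.cons (show R (.inl none) v from rfl) r1)
  have r4 : ∀ β : Bool, List.Forall₂ R (List.ofFn fun i : Fin t => .inl (some (i, β)))
      (if β then Y' else Y) := fun β => by
    rw [← ofn, List.forall₂_map_right_iff, List.forall₂_same]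
    intro x hx
    obtain ⟨i, rfl⟩ := List.mem_ofFn.1 hx
    rfl
  have hR : ∀ x y u w, R x u → R y w → (G.comap (Sum.elim rt ω)).Adj x y → G.Adj u w := by
    intro x y u w h1 h2 h3
    have := a5 (fun i => if .inr i = x then u else if .inr i = y then w else ω i) fun i => by
      split_ifs with e1 e2
      · subst e1; exact h1
      · subst e2; exact h2
      · exact a3 i
    have ne := h3.ne
    rw [← this, SimpleGraph.comap_adj] at h3
    have e1 : Sum.elim rt (fun i => if .inr i = x then u else if .inr i = y then w else ω i) x = u := by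
      rcases x with x | x
      · exact Eq.symm h1
      · exact if_pos rfl
    have e2 : Sum.elim rt (fun i => if .inr i = x then u else if .inr i = y then w else ω i) y = w := by
      rcases y with y | y
      · exact Eq.symm h2
      · exact (if_neg ne.symm).trans (if_pos rfl)
    rwa [e1, e2] at h3
  refine ⟨l1, l2, q2, q1.length_eq ▸ hn, fun x hx => ?_, r3,
    k3.inst hR (List.rel_append (List.rel_append (r4 false) r1) (r4 true)),
    k4.inst hR (List.rel_append (List.rel_append (r4 false) r2) (r4 true))⟩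
  obtain ⟨y, hy, h⟩ := mem_of_forall₂ q1 hx
  obtain ⟨i, rfl⟩ := k1 y hy
  have := mem_sdiff.1 ((a1 i).1 h)
  exact ⟨(mem_filter.1 this.1).1, this.2, (mem_filter.1 this.1).2⟩

end Pool.Agent.MP_61e9ba_co

end MrgPart2

-- ======== part 3: formerly Pool.Agent.MP_61e9ba_co.Split
section MrgPart3

/-!
Random splitting of a cell system.
-/

namespace Pool.Agent.MP_61e9ba_co

open Finset
open Fintype (piFinset mem_piFinset card_piFinset)

open scoped Classical

lemma split_cell (r q Λ : ℕ) (hr : 0 < r) (hΛ : 1 ≤ Λ) {ε : ℝ} (hε : 0 < ε) (hε1 : ε ≤ 1) :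
    ∃ s0 : ℝ, ∀ s, s0 ≤ s → ∀ (V : Type) (S : Finset V) (𝒜 : Finset (Finset V)),
      (#S : ℝ) ≤ Λ * s → (#𝒜 : ℝ) ≤ q * s → ∃ χ : V → Fin r, ∀ A ∈ 𝒜, ∀ a,
        |(#{x ∈ A ∩ S | χ x = a} : ℝ) - #(A ∩ S) / r| ≤ ε * s := by
  have Λ1 : (1 : ℝ) ≤ Λ := by exact_mod_cast hΛ
  refine ⟨4 * (2 * q * r) / (ε ^ 2 / (16 * Λ)) ^ 2 + 1, fun s hs V S 𝒜 hS hA => ?_⟩
  have s0 : 0 < s := lt_of_lt_of_le (by positivity) hs
  have sm := exp_small (c := ε ^ 2 / (16 * Λ)) (q := 2 * q * r) (M := s) (by positivity)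
    (by positivity) (by linarith)
  set e := Real.exp (-(ε ^ 2 / (16 * Λ) * s))
  set f : Finset V → Fin r → ℝ → S → Fin r → ℝ := fun A a σ i b =>
    σ * if i.1 ∈ A ∧ b = a then 1 else 0 with hf
  set B : Finset V → Fin r → ℝ → Finset (S → Fin r) := fun A a σ =>
    {ω ∈ piFinset fun _ : S => (univ : Finset (Fin r)) |
      ∑ i, (∑ b ∈ univ, f A a σ i b) / #(univ : Finset (Fin r)) + ε * s ≤ ∑ i, f A a σ i (ω i)}
  have : Nonempty (Fin r) := ⟨⟨0, hr⟩⟩
  have cB : ∀ A a, ∀ σ ∈ ({1, -1} : Finset ℝ), (#(B A a σ) : ℝ) ≤ e * r ^ #S := by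
    intro A a σ hσ
    have := hoeff (fun _ : S => (univ : Finset (Fin r))) (fun _ => univ_nonempty) (f A a σ) (h := 1)
      (l := ε / (8 * Λ)) (fun i b => by
        simp only [mem_insert, mem_singleton] at hσ
        rcases hσ with rfl | rfl <;> simp only [hf] <;> split_ifs <;> simp) (by positivity)
      (by rw [mul_one, ← mul_div_assoc, div_le_one (by positivity)]; linarith) (ε * s)
    refine this.trans ?_
    simp only [prod_const, card_univ, Fintype.card_fin, Fintype.card_coe]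
    gcongr
    have : 4 * (ε / (8 * Λ)) ^ 2 * 1 ^ 2 * (#S : ℝ) ≤ 4 * (ε / (8 * Λ)) ^ 2 * 1 ^ 2 * (Λ * s) := by
      gcongr
    refine Real.exp_le_exp.2 ((sub_le_sub_right this _).trans (le_of_eq ?_))
    field_simp; ring
  obtain ⟨ω, -, hω⟩ := exists_mem_notMem_of_card_lt_card
    (s := 𝒜.biUnion fun A => univ.biUnion fun a => ({1, -1} : Finset ℝ).biUnion (B A a))
    (t := piFinset fun _ : S => (univ : Finset (Fin r))) (by
      have c1 : (#(𝒜.biUnion fun A => univ.biUnion fun a => ({1, -1} : Finset ℝ).biUnion (B A a)) : ℝ)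
          ≤ ∑ A ∈ 𝒜, ∑ a, ∑ σ ∈ ({1, -1} : Finset ℝ), (#(B A a σ) : ℝ) := by
        exact_mod_cast card_biUnion_le.trans (sum_le_sum fun i _ => card_biUnion_le.trans
          (sum_le_sum fun x _ => card_biUnion_le))
      have c2 : ∑ A ∈ 𝒜, ∑ a, ∑ σ ∈ ({1, -1} : Finset ℝ), (#(B A a σ) : ℝ) ≤
          ∑ A ∈ 𝒜, ∑ a : Fin r, ∑ σ ∈ ({1, -1} : Finset ℝ), e * r ^ #S :=
        sum_le_sum fun A _ => sum_le_sum fun a _ => sum_le_sum (cB A a)
      have c3 : #({1, -1} : Finset ℝ) = 2 := card_pair (by norm_num)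
      simp only [sum_const, c3, card_univ, Fintype.card_fin, nsmul_eq_mul] at c2
      have c4 : (0 : ℝ) < r ^ #S := by positivity
      have c5 : (#𝒜 : ℝ) * (r * ((2 : ℕ) * (e * r ^ #S))) ≤ q * s * (r * ((2 : ℕ) * (e * r ^ #S))) := by
        gcongr
      have c6 : (#(𝒜.biUnion fun A => univ.biUnion fun a => ({1, -1} : Finset ℝ).biUnion (B A a)) : ℝ)
          < (r ^ #S : ℕ) := by
        push_cast at c5 c2 ⊢
        nlinarith
      simpa using Nat.cast_lt.1 c6)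
  refine ⟨fun x => if h : x ∈ S then ω ⟨x, h⟩ else ⟨0, hr⟩, fun A hA a => ?_⟩
  have k : ∀ σ ∈ ({1, -1} : Finset ℝ), σ * (#{x ∈ A ∩ S | (if h : x ∈ S then ω ⟨x, h⟩ else ⟨0, hr⟩)
      = a} : ℝ) < σ * (#(A ∩ S) / r) + ε * s := by
    intro σ hσ
    by_contra hc
    refine hω (mem_biUnion.2 ⟨A, hA, mem_biUnion.2 ⟨a, mem_univ _, mem_biUnion.2 ⟨σ, hσ,
      mem_filter.2 ⟨by simp, ?_⟩⟩⟩⟩)
    have e1 : ∑ i, f A a σ i (ω i) = σ * (#{x ∈ A ∩ S |
        (if h : x ∈ S then ω ⟨x, h⟩ else ⟨0, hr⟩) = a} : ℝ) := by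
      rw [inter_comm, ← filter_mem_eq_inter, filter_filter, ← sum_boole, ← sum_coe_sort S, mul_sum]
      exact sum_congr rfl fun i _ => by simp [hf]
    have e2 : ∑ i, (∑ b ∈ univ, f A a σ i b) / #(univ : Finset (Fin r)) = σ * (#(A ∩ S) / r) := by
      rw [inter_comm, ← filter_mem_eq_inter, ← sum_boole, ← sum_coe_sort S, sum_div, mul_sum]
      refine sum_congr rfl fun i _ => ?_
      by_cases hi : i.1 ∈ A <;> simp [hf, hi, div_eq_mul_inv]
    rw [e1, e2]
    exact not_lt.1 hc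
  have k1 := k 1 (by simp)
  have k2 := k (-1) (by simp)
  rw [abs_le]
  constructor <;> linarith

theorem split (r K Λ : ℕ) (hr : 0 < r) (hΛ : 1 ≤ Λ) {ε : ℝ} (hε : 0 < ε) (hε1 : ε ≤ 1) :
    ∃ s0 : ℝ, ∀ (V : Type) [Fintype V] (N : ℕ) (G : SimpleGraph V) (c : V → ZMod N) (U : Finset V)
      (s : ℝ), s0 ≤ s → (∀ j, (#{x | c x = j} : ℝ) ≤ Λ * s) → ∃ χ : V → Fin r, ∀ a,
        (∀ j, |(#{x ∈ {x ∈ U | χ x = a} | c x = j} : ℝ) - #{x ∈ U | c x = j} / r| ≤ ε * s) ∧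
        ∀ v, (#(cmiss G c {x ∈ U | χ x = a} K v) : ℝ) ≤
          #(cmiss G c U K v) / r + (2 * K + 1) * (ε * s) := by
  obtain ⟨s0, H⟩ := split_cell r (1 + (2 * K + 1) * Λ) Λ hr hΛ hε hε1
  refine ⟨max s0 1, fun V _ N G c U s hs hc => ?_⟩
  have s1 : 1 ≤ s := (le_max_right _ _).trans hs
  have := fun j => H s ((le_max_left _ _).trans hs) V {x | c x = j}
    (insert U (({v | Near K j (c v)} : Finset V).image (cmiss G c U K))) (hc j) (by
      have k1 := near_card univ c hc K j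
      have k2 : (#(insert U (({v | Near K j (c v)} : Finset V).image (cmiss G c U K))) : ℝ) ≤
          #({v | Near K j (c v)} : Finset V) + 1 := by
        exact_mod_cast (card_insert_le _ _).trans (Nat.succ_le_succ card_image_le)
      push_cast
      linarith)
  choose χ hχ using this
  refine ⟨fun x => χ (c x) x, fun a => ⟨fun j => ?_, fun v => ?_⟩⟩
  · have := hχ j U (mem_insert_self _ _) a
    rwa [show {x ∈ U ∩ (univ.filter fun x => c x = j) | χ j x = a} = {x ∈ {x ∈ U | χ (c x) x = a} | c x = j} by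
      ext x; simp only [mem_filter, mem_inter, mem_univ, true_and]
      exact ⟨fun h => ⟨⟨h.1.1, h.1.2 ▸ h.2⟩, h.1.2⟩, fun h => ⟨⟨h.1.1, h.2⟩, h.2 ▸ h.1.2⟩⟩,
      show U ∩ (univ.filter fun x => c x = j) = {x ∈ U | c x = j} by ext x; simp] at this
  · rw [card_eq_sum_card_fiberwise (f := c) (t := ball K (c v))
      fun x hx => mem_ball'.2 (mem_filter.1 hx).2.1,
      card_eq_sum_card_fiberwise (f := c) (s := cmiss G c U K v) (t := ball K (c v))
      fun x hx => mem_ball'.2 (mem_filter.1 hx).2.1]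
    push_cast
    have k1 : (#(ball K (c v)) : ℝ) ≤ 2 * K + 1 := by exact_mod_cast card_ball K (c v)
    have k2 := mul_le_mul_of_nonneg_right k1 (show 0 ≤ ε * s by positivity)
    rw [← nsmul_eq_mul, ← sum_const] at k2
    rw [sum_div]
    refine le_trans ?_ (add_le_add_right k2 _)
    rw [← sum_add_distrib]
    refine sum_le_sum fun j hj => ?_
    have := (abs_le.1 (hχ j (cmiss G c U K v) (mem_insert_of_mem (mem_image_of_mem _
      (mem_filter.2 ⟨mem_univ _, (mem_ball'.1 hj).symm⟩))) a)).2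
    rw [show {x ∈ cmiss G c U K v ∩ (univ.filter fun x => c x = j) | χ j x = a} =
        {x ∈ cmiss G c {x ∈ U | χ (c x) x = a} K v | c x = j} by
      ext x; simp only [cmiss, mem_filter, mem_inter, mem_univ, true_and]
      exact ⟨fun h => ⟨⟨⟨h.1.1.1, h.1.2 ▸ h.2⟩, h.1.1.2⟩, h.1.2⟩,
        fun h => ⟨⟨⟨h.1.1.1, h.1.2⟩, h.2⟩, h.2 ▸ h.1.1.2⟩⟩,
      show cmiss G c U K v ∩ (univ.filter fun x => c x = j) = {x ∈ cmiss G c U K v | c x = j} by
        ext x; simp] at this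
    linarith

end Pool.Agent.MP_61e9ba_co

end MrgPart3

-- ======== part 4: formerly Pool.Agent.MP_61e9ba_co.Retile
section MrgPart4

/-!
Tiles, and tiling a blown-up template.
-/

namespace Pool.Agent.MP_61e9ba_co

open Finset

open scoped Classical

variable {V : Type} {N : ℕ}

/-- A power path on `h` vertices of `U` inside a window. -/
def Tile (G : SimpleGraph V) (c : V → ZMod N) (U : Finset V) (t K h : ℕ) (l : List V) : Prop :=
  l.length = h ∧ l.Nodup ∧ PW G t l ∧ (∀ x ∈ l, x ∈ U) ∧ ∃ a, ∀ x ∈ l, InW K a (c x)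

/-- A family of disjoint tiles. -/
def Tiling (G : SimpleGraph V) (c : V → ZMod N) (U : Finset V) (t K h : ℕ)
    (𝓛 : Finset (List V)) : Prop :=
  (∀ l ∈ 𝓛, Tile G c U t K h l) ∧ ∀ l ∈ 𝓛, ∀ l' ∈ 𝓛, ∀ x ∈ l, x ∈ l' → l = l'

/-- The vertices covered by a family of lists. -/
noncomputable def cov (𝓛 : Finset (List V)) : Finset V := 𝓛.biUnion List.toFinset

lemma mem_cov {𝓛 : Finset (List V)} {x : V} : x ∈ cov 𝓛 ↔ ∃ l ∈ 𝓛, x ∈ l := by simp [cov]

lemma mem_cmiss {G : SimpleGraph V} {c : V → ZMod N} {U : Finset V} {K : ℕ} {x y : V} :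
    y ∈ cmiss G c U K x ↔ y ∈ U ∧ Near K (c x) (c y) ∧ ¬ G.Adj x y := mem_filter

lemma pw_rep {X : Type} {G : SimpleGraph X} {t : ℕ} {q : List X} (hq : q.Pairwise G.Adj)
    (hl : q.length = t + 1) (m : ℕ) : PW G t (List.replicate m q).flatten := by
  have two : PW G t (q ++ q) := by
    intro i j u w hi hj hij hjt
    by_cases h1 : j < q.length
    · rw [List.getElem?_append_left h1] at hj
      rw [List.getElem?_append_left (by omega)] at hi
      exact adj_of_pairwise hq hi hj hij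
    · rw [List.getElem?_append_right (by omega)] at hj
      by_cases h2 : i < q.length
      · rw [List.getElem?_append_left h2] at hi
        exact (adj_of_pairwise hq hj hi (by omega)).symm
      · rw [List.getElem?_append_right (by omega)] at hi
        exact adj_of_pairwise hq hi hj (by omega)
  have : PW G t (q ++ (List.replicate m q).flatten) := by
    induction m with
    | zero => simpa using pw_of_pairwise hq
    | succ m ih =>
      rw [List.replicate_succ, List.flatten_cons, ← List.append_assoc]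
      exact two.glue ih (by omega)
  exact this.right

lemma retile {X : Type} [Fintype X] {T : SimpleGraph X} {cT : X → ZMod N} {UT : Finset X}
    {G : SimpleGraph V} {c : V → ZMod N} {U : Finset V} {t K m b : ℕ} (hm : 0 < m)
    (J : ZMod N → Prop) {w : Finset X → ℝ} (w0 : ∀ Q, 0 ≤ w Q)
    (w1 : ∀ x ∈ UT, (∑ Q ∈ {Q | WClq T cT UT t K Q}, if x ∈ Q then w Q else 0) ≤ 1 ∧
      (J (cT x) → 1 ≤ ∑ Q ∈ {Q | WClq T cT UT t K Q}, if x ∈ Q then w Q else 0))
    {B : X → Finset V} (hd : ∀ p q, p ≠ q → Disjoint (B p) (B q)) (hb : ∀ p ∈ UT, #(B p) = b)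
    (hc : ∀ p ∈ UT, ∀ x ∈ B p, x ∈ U ∧ c x = cT p)
    (ha : ∀ p q x y, x ∈ B p → y ∈ B q → T.Adj p q → G.Adj x y) :
    ∃ 𝓝, Tiling G c U t K (m * (t + 1)) 𝓝 ∧ (∀ x ∈ cov 𝓝, ∃ p ∈ UT, x ∈ B p) ∧
      ∀ p ∈ UT, J (cT p) → #(B p \ cov 𝓝) ≤ m * 2 ^ Fintype.card X := by
  set 𝒬 : Finset (Finset X) := {Q | WClq T cT UT t K Q}
  have m0 : (0 : ℝ) < m := by exact_mod_cast hm
  set L0 : List (List X) := 𝒬.toList.flatMap fun Q =>
    List.replicate ⌊w Q * b / m⌋₊ (List.replicate m Q.toList).flatten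
  have cnt : ∀ x, (L0.flatten.count x : ℝ) =
      ∑ Q ∈ 𝒬, if x ∈ Q then (⌊w Q * b / m⌋₊ * m : ℝ) else 0 := by
    intro x
    rw [← sum_map_toList]
    simp only [L0]
    induction 𝒬.toList with
    | nil => simp
    | cons Q l ih =>
      rw [List.flatMap_cons, List.flatten_append, List.count_append, List.map_cons, List.sum_cons,
        Nat.cast_add, ih]
      congr 1
      simp only [List.count_flatten, List.map_replicate, List.sum_replicate, smul_eq_mul]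
      split_ifs with a
      · rw [List.count_eq_one_of_mem (nodup_toList Q) (mem_toList.2 a)]; simp
      · rw [List.count_eq_zero_of_not_mem (mt mem_toList.1 a)]; simp
  have up : ∀ x ∈ UT, (L0.flatten.count x : ℝ) ≤ b := fun x hx => by
    rw [cnt]
    have := mul_le_mul_of_nonneg_right (w1 x hx).1 (Nat.cast_nonneg (α := ℝ) b)
    rw [one_mul, sum_mul] at this
    refine le_trans (sum_le_sum fun Q _ => ?_) this
    split_ifs
    · exact (le_div_iff₀ m0).1 (Nat.floor_le (by have := w0 Q; positivity))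
    · simp
  have lo : ∀ x ∈ UT, J (cT x) → (b : ℝ) ≤ L0.flatten.count x + m * 2 ^ Fintype.card X := by
    intro x hx hJ
    rw [cnt]
    have := mul_le_mul_of_nonneg_right ((w1 x hx).2 hJ) (Nat.cast_nonneg (α := ℝ) b)
    rw [one_mul, sum_mul] at this
    have k : (#𝒬 : ℝ) ≤ 2 ^ Fintype.card X := by
      exact_mod_cast (card_le_univ 𝒬).trans (Fintype.card_finset).le
    have k2 : ∑ Q ∈ 𝒬, (if x ∈ Q then w Q else 0) * b ≤
        ∑ Q ∈ 𝒬, ((if x ∈ Q then (⌊w Q * b / m⌋₊ * m : ℝ) else 0) + m) := by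
      refine sum_le_sum fun Q _ => ?_
      split_ifs
      · have := (div_lt_iff₀ m0).1 (Nat.lt_floor_add_one (w Q * b / m))
        linarith
      · simp
    rw [sum_add_distrib, sum_const, nsmul_eq_mul] at k2
    nlinarith
  have memL : ∀ l ∈ L0, ∃ Q, WClq T cT UT t K Q ∧ l = (List.replicate m Q.toList).flatten := by
    intro l hl
    obtain ⟨Q, q1, q2⟩ := List.mem_flatMap.1 hl
    exact ⟨Q, (mem_filter.1 (mem_toList.1 q1)).2, List.eq_of_mem_replicate q2⟩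
  have memQ : ∀ (Q : Finset X) x, x ∈ (List.replicate m Q.toList).flatten → x ∈ Q := by
    intro Q x hx
    obtain ⟨l, l1, l2⟩ := List.mem_flatten.1 hx
    rwa [List.eq_of_mem_replicate l1, mem_toList] at l2
  have memU : ∀ x ∈ L0.flatten, x ∈ UT := fun x hx => by
    obtain ⟨l, l1, l2⟩ := List.mem_flatten.1 hx
    obtain ⟨Q, q1, rfl⟩ := memL l l1
    exact q1.1.1 (memQ Q x l2)
  obtain ⟨l', k1, k2, k3⟩ := exists_inst L0.flatten B hd fun x => by
    by_cases a : x ∈ UT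
    · rw [hb x a]; exact_mod_cast up x a
    · rw [List.count_eq_zero_of_not_mem (mt (memU x) a)]; omega
  obtain ⟨L', rfl, k4⟩ := forall₂_flatten L0 l' k1
  have cv : cov L'.toFinset = L'.flatten.toFinset := by ext x; simp [mem_cov]
  obtain ⟨k5, k6⟩ := List.nodup_flatten.1 k2
  refine ⟨L'.toFinset, ⟨fun l hl => ?_, fun l hl l' hl' x h1 h2 => ?_⟩, fun x hx => ?_,
    fun p hp hJ => ?_⟩
  · obtain ⟨l0, h1, h2⟩ := mem_of_forall₂ k4 (List.mem_toFinset.1 hl)
    obtain ⟨Q, q1, rfl⟩ := memL l0 h1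
    obtain ⟨a, ha'⟩ := q1.2.2
    refine ⟨?_, k5 l (List.mem_toFinset.1 hl), PW.inst ha h2 (pw_rep
      ((nodup_toList Q).pairwise_of_forall_ne fun x hx y hy =>
        q1.1.2 x (mem_toList.1 hx) y (mem_toList.1 hy)) (by rw [length_toList, q1.2.1]) m),
      fun x hx => ?_, a, fun x hx => ?_⟩
    · rw [← h2.length_eq]; simp [q1.2.1]
    · obtain ⟨p, p1, p2⟩ := mem_of_forall₂ h2 hx
      exact (hc p (q1.1.1 (memQ Q p p1)) x p2).1
    · obtain ⟨p, p1, p2⟩ := mem_of_forall₂ h2 hx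
      rw [(hc p (q1.1.1 (memQ Q p p1)) x p2).2]
      exact ha' p (memQ Q p p1)
  · by_contra ne
    exact @List.Pairwise.forall _ _ _ ⟨fun _ _ => List.Disjoint.symm⟩ k6 _ (List.mem_toFinset.1 hl) _
      (List.mem_toFinset.1 hl') ne x h1 h2
  · rw [cv] at hx
    obtain ⟨p, p1, p2⟩ := mem_of_forall₂ k1 (List.mem_toFinset.1 hx)
    exact ⟨p, memU p p1, p2⟩
  · have e1 := k3 p
    have e2 : b ≤ L0.flatten.count p + m * 2 ^ Fintype.card X := by exact_mod_cast lo p hp hJ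
    rw [hb p hp] at e1
    rw [cv]; omega

end Pool.Agent.MP_61e9ba_co

end MrgPart4

-- ======== part 5: formerly Pool.Agent.MP_61e9ba_co.Cover
section MrgPart5

/-!
Almost perfect tilings of a bounded cell system.
-/

namespace Pool.Agent.MP_61e9ba_co

open Finset
open Fintype (piFinset mem_piFinset card_piFinset)

open scoped Classical

lemma card_idx {V : Type} {l : List V} (hl : l.Nodup) {h : ℕ} (hh : l.length ≤ h) (v : V)
    (p : V → Prop) [DecidablePred p] :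
    #{a : Fin h | a < l.length ∧ p (l.getD a v)} = #{x ∈ l.toFinset | p x} := by
  refine card_bij (fun a _ => l.getD a v) (fun a ha => ?_) (fun a ha a' ha' e => ?_) fun x hx => ?_
  · obtain ⟨h1, h2⟩ := (mem_filter.1 ha).2
    refine mem_filter.2 ⟨List.mem_toFinset.2 ?_, h2⟩
    rw [List.getD_eq_getElem _ _ h1]; exact List.getElem_mem _
  · simp only [List.getD_eq_getElem _ _ (mem_filter.1 ha).2.1,
      List.getD_eq_getElem _ _ (mem_filter.1 ha').2.1] at e
    exact Fin.ext (hl.getElem_inj_iff.1 e)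
  · obtain ⟨i, hi, rfl⟩ := List.getElem_of_mem (List.mem_toFinset.1 (mem_filter.1 hx).1)
    have e : l.getD i v = l[i] := List.getD_eq_getElem _ _ hi
    exact ⟨⟨i, by omega⟩, mem_filter.2 ⟨mem_univ _, hi, e ▸ (mem_filter.1 hx).2⟩, e⟩

lemma card_prod_filter {α β : Type} [Fintype α] [Fintype β] (p : α × β → Prop) [DecidablePred p] :
    #{q | p q} = ∑ i, #{a | p (i, a)} := by
  simp only [card_filter]
  exact Fintype.sum_prod_type _

theorem cover_loc (t K Λ m : ℕ) (hK : 1 ≤ K) (hΛ : 1 ≤ Λ) (hm : 0 < m) {η β : ℝ} (hη : 0 < η)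
    (hη1 : η ≤ 1) (hβ : 0 < β) : ∃ s0 : ℝ, ∀ (V : Type) (N : ℕ) (G : SimpleGraph V) (c : V → ZMod N)
      (U : Finset V) (D s : ℝ) (J : ZMod N → Prop) [DecidablePred J] (Cs : Finset (ZMod N)),
      s0 ≤ s → 2 * K + 1 ≤ N →
      0 ≤ D → t * D ≤ (1 - η) * K * s → (∀ x ∈ U, (#(cmiss G c U K x) : ℝ) ≤ D) →
      (#U : ℝ) ≤ Λ * s → #Cs ≤ Λ → (∀ x ∈ U, c x ∈ Cs) →
      (∀ a, J a → ∀ j : ℕ, j ≤ K → s ≤ #{y ∈ U | c y = a - j}) →
      ∃ 𝓛, Tiling G c U t K (m * (t + 1)) 𝓛 ∧ (#{x ∈ U \ cov 𝓛 | J (c x)} : ℝ) ≤ β * s := by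
  set h := m * (t + 1) with hh
  have h1 : 0 < h := by positivity
  have h1' : (1 : ℝ) ≤ h := by exact_mod_cast h1
  have K1 : (1 : ℝ) ≤ K := by exact_mod_cast hK
  have Λ1 : (1 : ℝ) ≤ Λ := by exact_mod_cast hΛ
  set ε0 := η / (2 * Λ * (t + K))
  have ε01 : ε0 ≤ 1 := by
    rw [div_le_one (by positivity)]
    nlinarith [Nat.cast_nonneg (α := ℝ) t]
  set ε := min ε0 (β / Λ) / 2
  have hε : 0 < ε := by positivity
  have ε1 : 2 * ε ≤ ε0 := by have := min_le_left ε0 (β / Λ); simp only [ε]; linarith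
  have ε2 : 2 * ε ≤ β / Λ := by have := min_le_right ε0 (β / Λ); simp only [ε]; linarith
  obtain ⟨M, hM, H⟩ := template (h + Λ + 1) (⌈h / ε⌉₊ + 1) (h := h) (by positivity) hε (by linarith)
  have M0 : 0 < M := by omega
  have M1 : (h : ℝ) ≤ M * ε := by
    rw [← div_le_iff₀ hε]
    exact (Nat.le_ceil _).trans (by exact_mod_cast (by omega))
  set b := M * h * (m * 2 ^ Fintype.card (Fin M × Fin h)) + 1 with hb
  obtain ⟨φ, hφ, H⟩ := H b (Fintype.card (SimpleGraph (Fin M × Fin h) × Finset (Fin M × Fin h) ×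
    Finset (Fin M)) * Λ ^ Fintype.card (Fin M × Fin h)) (by omega)
  refine ⟨M * b / φ / β + 1, fun V N G c U D s J _ Cs hs hN hD slack bud hU hCs hc full => ?_⟩
  have s0 : 0 < s := lt_of_lt_of_le (by positivity) hs
  obtain ⟨𝓛, hL, hmin⟩ := (measure fun 𝓛 : Finset (List V) => #{x ∈ U \ cov 𝓛 | J (c x)}).wf.has_min
    {𝓛 | Tiling G c U t K h 𝓛} ⟨∅, by simp, by simp⟩
  refine ⟨𝓛, hL, ?_⟩
  by_contra hz
  push Not at hz
  set Zi := {x ∈ U \ cov 𝓛 | J (c x)}
  obtain ⟨v0, hv0⟩ : Zi.Nonempty := card_pos.1 (by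
    have : (0 : ℝ) < #Zi := lt_trans (by positivity) hz
    exact_mod_cast this)
  have v0U : v0 ∈ U := (mem_sdiff.1 (mem_filter.1 hv0).1).1
  set Zs := Zi.image fun v => [v]
  set 𝒰 := 𝓛 ∪ (U \ cov 𝓛).image fun v => [v]
  have u1 : ∀ l ∈ 𝒰, l.Nodup ∧ l.length ≤ h ∧ 0 < l.length ∧ ∀ x ∈ l, x ∈ U := by
    intro l hl
    rcases mem_union.1 hl with hl | hl
    · have := hL.1 l hl
      exact ⟨this.2.1, this.1.le, this.1 ▸ h1, this.2.2.2.1⟩
    · obtain ⟨v, hv, rfl⟩ := mem_image.1 hl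
      exact ⟨by simp, h1, by simp, by simpa using (mem_sdiff.1 hv).1⟩
  have u2 : ∀ l ∈ 𝒰, ∀ l' ∈ 𝒰, ∀ x ∈ l, x ∈ l' → l = l' := by
    intro l hl l' hl' x k1 k2
    rcases mem_union.1 hl with hl | hl <;> rcases mem_union.1 hl' with hl' | hl'
    · exact hL.2 l hl l' hl' x k1 k2
    · obtain ⟨v, hv, rfl⟩ := mem_image.1 hl'
      exact absurd (mem_cov.2 ⟨l, hl, List.mem_singleton.1 k2 ▸ k1⟩) (mem_sdiff.1 hv).2
    · obtain ⟨v, hv, rfl⟩ := mem_image.1 hl
      exact absurd (mem_cov.2 ⟨l', hl', List.mem_singleton.1 k1 ▸ k2⟩) (mem_sdiff.1 hv).2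
    · obtain ⟨v, hv, rfl⟩ := mem_image.1 hl
      obtain ⟨v', hv', rfl⟩ := mem_image.1 hl'
      rw [← List.mem_singleton.1 k1, ← List.mem_singleton.1 k2]
  have u3 : ∀ x ∈ U, ∃ l ∈ 𝒰, x ∈ l := fun x hx => by
    by_cases a : x ∈ cov 𝓛
    · obtain ⟨l, l1, l2⟩ := mem_cov.1 a
      exact ⟨l, mem_union_left _ l1, l2⟩
    · exact ⟨[x], mem_union_right _ (mem_image_of_mem _ (mem_sdiff.2 ⟨hx, a⟩)), by simp⟩
  have u4 : ∀ (p : V → Prop) [DecidablePred p],
      ∑ l ∈ 𝒰, (#{a : Fin h | a < l.length ∧ p (l.getD a v0)} : ℝ) = #{x ∈ U | p x} := by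
    intro p _
    rw [sum_congr rfl fun l hl => by rw [card_idx (u1 l hl).1 (u1 l hl).2.1], ← Nat.cast_sum,
      ← card_biUnion fun l hl l' hl' ne => disjoint_left.2 fun x k1 k2 => ne (u2 l hl l' hl' x
        (List.mem_toFinset.1 (mem_filter.1 k1).1) (List.mem_toFinset.1 (mem_filter.1 k2).1))]
    congr 2
    ext x
    simp only [mem_biUnion, mem_filter, List.mem_toFinset]
    exact ⟨fun ⟨l, l1, l2, l3⟩ => ⟨(u1 l l1).2.2.2 x l2, l3⟩, fun ⟨k1, k2⟩ =>
      (u3 x k1).imp fun l hl => ⟨hl.1, hl.2, k2⟩⟩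
  have Zsub : Zs ⊆ 𝒰 := (image_subset_image (filter_subset _ _)).trans subset_union_right
  have cZ : #Zs = #Zi := card_image_of_injective _ fun _ _ => List.singleton_inj.1
  have n1 : β * s < #𝒰 := hz.trans_le (by exact_mod_cast cZ ▸ card_le_card Zsub)
  have n0 : (0 : ℝ) < #𝒰 := lt_trans (by positivity) n1
  have n2 : (#𝒰 : ℝ) ≤ Λ * s := by
    refine le_trans ?_ hU
    have := u4 fun _ => True
    rw [filter_true] at this
    rw [← this, card_eq_sum_ones, Nat.cast_sum]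
    exact sum_le_sum fun l hl => by
      have : 1 ≤ #{a : Fin h | a < l.length ∧ True} :=
        card_pos.2 ⟨⟨0, h1⟩, mem_filter.2 ⟨mem_univ _, (u1 l hl).2.2.1, trivial⟩⟩
      exact_mod_cast this
  have gm : ∀ (l : List V) (a : ℕ), a < l.length → l.getD a v0 ∈ l := fun l a k => by
    rw [List.getD_eq_getElem _ _ k]; exact List.getElem_mem _
  have gU : ∀ l ∈ 𝒰, ∀ a : ℕ, l.getD a v0 ∈ U := fun l hl a => by
    by_cases k : a < l.length
    · exact (u1 l hl).2.2.2 _ (gm l a k)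
    · rwa [List.getD_eq_default _ _ (by omega)]
  set mf : V → List V → ℝ := fun z l =>
    #{a : Fin h | a < l.length ∧ l.getD a v0 ∈ cmiss G c U K z} with hmf
  set cf : ZMod N → List V → ℝ := fun j l =>
    -#{a : Fin h | a < l.length ∧ c (l.getD a v0) = j} with hcf
  set zf : List V → ℝ := fun l => if l ∈ Zs then -1 else 0 with hzf
  set Tω : (Fin M → List V) → SimpleGraph (Fin M × Fin h) := fun ω =>
    { Adj := fun p q => p.1 ≠ q.1 ∧ G.Adj ((ω p.1).getD p.2 v0) ((ω q.1).getD q.2 v0)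
      symm := ⟨fun _ _ k => ⟨k.1.symm, k.2.symm⟩⟩
      loopless := ⟨fun _ k => k.1 rfl⟩ }
  obtain ⟨ω, A, a1, a2, a3, a4, a5⟩ := H (List V) _ 𝒰 ∅
    (fun x => insert zf (univ.image (fun a : Fin h => mf (x.getD a v0)) ∪ Cs.image cf))
    (fun ω => ((Tω ω, ({p | p.2 < (ω p.1).length} : Finset (Fin M × Fin h)),
      ({i | ω i ∈ Zs} : Finset (Fin M))), fun p : Fin M × Fin h => c ((ω p.1).getD p.2 v0)))
    (univ ×ˢ piFinset fun _ => Cs) (card_pos.1 (by exact_mod_cast n0))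
    (fun x => (card_insert_le _ _).trans (by
      have := card_union_le (univ.image fun a : Fin h => mf (x.getD a v0)) (Cs.image cf)
      have := card_image_le (s := univ) (f := fun a : Fin h => mf (x.getD a v0))
      have := card_image_le (s := Cs) (f := cf)
      rw [card_univ, Fintype.card_fin] at *
      omega))
    (fun x f hf y => by
      have k : ∀ S : Finset (Fin h), |(#S : ℝ)| ≤ h := fun S => by
        rw [Nat.abs_cast]; exact_mod_cast (card_le_univ S).trans (Fintype.card_fin h).le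
      simp only [mem_insert, mem_union, mem_image] at hf
      rcases hf with rfl | ⟨_, _, rfl⟩ | ⟨_, _, rfl⟩
      · simp only [hzf]; split_ifs <;> simp [h1']
      · exact k _
      · rw [hcf, abs_neg]; exact k _)
    (by
      rw [card_product, card_univ, card_piFinset, prod_const, card_univ]
      gcongr)
    (fun ω hω => mem_product.2 ⟨mem_univ _, mem_piFinset.2 fun p => hc _ (gU _ (hω _) _)⟩) (by
      have k4 : M * b / φ / β ≤ s := by linarith
      rw [div_le_iff₀ hβ, div_le_iff₀ hφ] at k4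
      simp only [empty_inter, card_empty, Nat.cast_zero, zero_add]
      nlinarith)
  have AU : ∀ i, ∀ l ∈ A i, l ∈ 𝒰 := fun i l hl => (mem_sdiff.1 ((a1 i).1 hl)).1
  have wU : ∀ i, ω i ∈ 𝒰 := fun i => AU i _ (a3 i)
  have up : ∀ i, ∀ l ∈ A i, ∀ j, Function.update ω i l j ∈ A j := fun i l hl j => by
    by_cases e : j = i
    · rw [e, Function.update_self]; exact hl
    · rw [Function.update_of_ne e]; exact a3 j
  set UT : Finset (Fin M × Fin h) := {p | p.2 < (ω p.1).length}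
  set cT : Fin M × Fin h → ZMod N := fun p => c ((ω p.1).getD p.2 v0)
  have c1 : ∀ p : Fin M × Fin h, ∀ l ∈ A p.1, (p.2 < l.length ↔ p ∈ UT) ∧ c (l.getD p.2 v0) = cT p ∧
      (l ∈ Zs ↔ ω p.1 ∈ Zs) := by
    intro p l hl
    have := a5 _ (up p.1 l hl)
    simp only [Prod.mk.injEq] at this
    refine ⟨?_, by simpa using congrFun this.2 p, by simpa using Finset.ext_iff.1 this.1.2.2 p.1⟩
    rw [← this.1.2.1]; simp
  have M0' : (0 : ℝ) < M := by exact_mod_cast M0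
  have i1 : Fin M := ⟨0, M0⟩
  obtain ⟨i0, hi0⟩ : ∃ i, ω i ∈ Zs := by
    by_contra a
    push Not at a
    have k1 := a4 i1 zf (mem_insert_self _ _)
    have k2 : ∑ y ∈ 𝒰, zf y = -#Zi := by
      rw [hzf, sum_neg_boole, sum_boole, filter_mem_eq_inter, inter_eq_right.2 Zsub, cZ]
    rw [k2, sum_eq_zero fun j _ => if_neg (a j)] at k1
    have k3 : β / Λ ≤ #Zi / #𝒰 := by
      rw [div_le_div_iff₀ (by linarith) n0]; nlinarith
    rw [neg_div] at k1
    nlinarith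
  obtain ⟨w, w0, w1⟩ := frac_tiling (G := Tω ω) (c := cT) (U := UT) (t := t) hN
    (D := M * (D / #𝒰 + ε0)) (s := M * (s / #𝒰 - ε0))
    (mul_nonneg M0'.le (add_nonneg (div_nonneg hD n0.le) (by linarith)))
    (slack_sample (Nat.cast_nonneg _) K1 hη s0 n0 n2 M0' slack) (fun p hp => by
      have k1 := a4 p.1 _ (mem_insert_of_mem (mem_union_left _ (mem_image_of_mem _ (mem_univ p.2))))
      have k2 : ∑ y ∈ 𝒰, mf ((ω p.1).getD p.2 v0) y ≤ D := by
        rw [hmf, u4 fun x => x ∈ cmiss G c U K ((ω p.1).getD p.2 v0)]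
        refine le_trans ?_ (bud _ (gU _ (wU p.1) p.2))
        exact_mod_cast card_le_card fun y hy => (mem_filter.1 hy).2
      have k3 : cmiss (Tω ω) cT UT K p ⊆ ({q | q.1 = p.1} : Finset (Fin M × Fin h)) ∪
          ({q | q.2 < (ω q.1).length ∧
            (ω q.1).getD q.2 v0 ∈ cmiss G c U K ((ω p.1).getD p.2 v0)} :
              Finset (Fin M × Fin h)) := by
        intro q hq
        obtain ⟨q1, q2, q3⟩ := mem_cmiss.1 hq
        by_cases e : q.1 = p.1
        · exact mem_union_left _ (mem_filter.2 ⟨mem_univ _, e⟩)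
        · exact mem_union_right _ (mem_filter.2 ⟨mem_univ _, (mem_filter.1 q1).2,
            mem_cmiss.2 ⟨gU _ (wU _) _, q2, fun a => q3 ⟨Ne.symm e, a⟩⟩⟩)
      have k4 := (card_le_card k3).trans (card_union_le _ _)
      have k5 : #({q | q.1 = p.1} : Finset (Fin M × Fin h)) ≤ h := by
        rw [card_prod_filter, sum_eq_single p.1 (fun i _ e => by simp [e]) (by simp)]; simp
      rw [card_prod_filter fun q : Fin M × Fin h => q.2 < (ω q.1).length ∧ _] at k4
      have k6 : (#(cmiss (Tω ω) cT UT K p) : ℝ) ≤ h + ∑ j, mf ((ω p.1).getD p.2 v0) (ω j) := by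
        simp only [hmf]; exact_mod_cast k4.trans (Nat.add_le_add_right k5 _)
      have k7 := mul_le_mul_of_nonneg_left (div_le_div_of_nonneg_right k2 n0.le) M0'.le
      have k8 := mul_le_mul_of_nonneg_left ε1 M0'.le
      linarith) J (fun a hJ j hj => by
      have k0 := full a hJ j hj
      obtain ⟨y, hy⟩ : {y ∈ U | c y = a - j}.Nonempty := card_pos.1 (by
        exact_mod_cast s0.trans_le k0)
      have k1 := a4 i1 _ (mem_insert_of_mem (mem_union_right _ (mem_image_of_mem cf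
        ((mem_filter.1 hy).2 ▸ hc y (mem_filter.1 hy).1))))
      simp only [hcf, sum_neg_distrib] at k1
      rw [u4 fun x => c x = a - j, neg_div] at k1
      have k2 : (#{y ∈ UT | cT y = a - j} : ℝ) =
          ∑ i, (#{e : Fin h | e < (ω i).length ∧ c ((ω i).getD e v0) = a - j} : ℝ) := by
        rw [filter_filter, card_prod_filter, Nat.cast_sum]
      have k7 := mul_le_mul_of_nonneg_left (div_le_div_of_nonneg_right k0 n0.le) M0'.le
      have k8 := mul_le_mul_of_nonneg_left ε1 M0'.le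
      have k9 := mul_pos M0' hε
      rw [k2]
      linarith)
  set B : Fin M × Fin h → Finset V := fun p =>
    if p ∈ UT then (A p.1).image fun l => l.getD p.2 v0 else ∅ with hB
  have mB : ∀ p x, x ∈ B p → p ∈ UT ∧ ∃ l ∈ A p.1, l.getD p.2 v0 = x ∧ x ∈ l := by
    intro p x hx
    simp only [hB] at hx
    split_ifs at hx with k
    · obtain ⟨l, l1, rfl⟩ := mem_image.1 hx
      exact ⟨k, l, l1, rfl, gm l _ ((c1 p l l1).1.2 k)⟩
    · simp at hx
  have cB : ∀ p ∈ UT, #(B p) = b := fun p hp => by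
    simp only [hB, if_pos hp]
    rw [card_image_of_injOn, (a1 _).2]
    intro l hl l' hl' e
    exact u2 l (AU _ l hl) l' (AU _ l' hl') _ (gm l _ ((c1 p l hl).1.2 hp))
      (by rw [show l.getD p.2 v0 = _ from e]; exact gm l' _ ((c1 p l' hl').1.2 hp))
  obtain ⟨𝓝, t1, t2, t3⟩ := retile (G := G) (c := c) (U := U) (B := B) hm J w0 w1
    (fun p q ne => disjoint_left.2 fun x k1 k2 => by
      obtain ⟨p1, l, l1, l2, l3⟩ := mB p x k1
      obtain ⟨q1, l', l1', l2', l3'⟩ := mB q x k2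
      obtain rfl := u2 l (AU _ l l1) l' (AU _ l' l1') x l3 l3'
      have e : p.1 = q.1 := by
        by_contra a; exact disjoint_left.1 (a2 _ _ a) l1 l1'
      rw [← l2', List.getD_eq_getElem _ _ ((c1 p l l1).1.2 p1),
        List.getD_eq_getElem _ _ ((c1 q l l1').1.2 q1)] at l2
      exact ne (Prod.ext e (Fin.ext ((u1 l (AU _ l l1)).1.getElem_inj_iff.1 l2)))) cB
    (fun p _ x hx => by
      obtain ⟨-, l, l1, rfl, -⟩ := mB p x hx
      exact ⟨gU l (AU _ l l1) _, (c1 p l l1).2.1⟩)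
    (fun p q x y hx hy k => by
      obtain ⟨-, l, l1, rfl, -⟩ := mB p x hx
      obtain ⟨-, l', l1', rfl, -⟩ := mB q y hy
      have := a5 (Function.update (Function.update ω p.1 l) q.1 l') fun j => by
        by_cases e : j = q.1
        · rw [e, Function.update_self]; exact l1'
        · rw [Function.update_of_ne e]; exact up _ l l1 j
      simp only [Prod.mk.injEq] at this
      have k' := k
      rw [← this.1.1] at k'
      have k2 := k'.2
      rwa [Function.update_of_ne k.1, Function.update_self, Function.update_self] at k2)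
  set AA := univ.biUnion A
  have inA : ∀ l ∈ 𝒰, ∀ p, ∀ x ∈ l, x ∈ B p → l ∈ AA := fun l hl p x k1 k2 => by
    obtain ⟨-, l', l1, -, l3⟩ := mB p x k2
    rw [u2 l hl l' (AU _ l' l1) x k1 l3]
    exact mem_biUnion.2 ⟨_, mem_univ _, l1⟩
  refine hmin (𝓛 \ AA ∪ 𝓝) ⟨fun l hl => ?_, fun l hl l' hl' x k1 k2 => ?_⟩ ?_
  · rcases mem_union.1 hl with hl | hl
    · exact hL.1 l (mem_sdiff.1 hl).1
    · exact t1.1 l hl
  · rcases mem_union.1 hl with hl | hl <;> rcases mem_union.1 hl' with hl' | hl'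
    · exact hL.2 l (mem_sdiff.1 hl).1 l' (mem_sdiff.1 hl').1 x k1 k2
    · obtain ⟨p, -, hp⟩ := t2 x (mem_cov.2 ⟨l', hl', k2⟩)
      exact absurd (inA l (mem_union_left _ (mem_sdiff.1 hl).1) p x k1 hp) (mem_sdiff.1 hl).2
    · obtain ⟨p, -, hp⟩ := t2 x (mem_cov.2 ⟨l, hl, k1⟩)
      exact absurd (inA l' (mem_union_left _ (mem_sdiff.1 hl').1) p x k2 hp) (mem_sdiff.1 hl').2
    · exact t1.2 l hl l' hl' x k1 k2
  show #{x ∈ U \ cov (𝓛 \ AA ∪ 𝓝) | J (c x)} < #Zi
  have p0 : (i0, ⟨0, h1⟩) ∈ UT := mem_filter.2 ⟨mem_univ _, (u1 _ (wU i0)).2.2.1⟩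
  have s1 : B (i0, ⟨0, h1⟩) ⊆ Zi := fun x hx => by
    obtain ⟨-, l, l1, -, l3⟩ := mB _ x hx
    obtain ⟨v, hv, rfl⟩ := mem_image.1 ((c1 (i0, ⟨0, h1⟩) l l1).2.2.2 hi0)
    rwa [List.mem_singleton.1 l3]
  have s2 : {x ∈ U \ cov (𝓛 \ AA ∪ 𝓝) | J (c x)} ⊆ Zi \ B (i0, ⟨0, h1⟩) ∪
      {p ∈ UT | J (cT p)}.biUnion fun p => B p \ cov 𝓝 := by
    intro x hx
    obtain ⟨x1, x2⟩ := mem_filter.1 hx
    obtain ⟨x3, x4⟩ := mem_sdiff.1 x1
    obtain ⟨l, l1, l2⟩ := u3 x x3
    by_cases k : l ∈ AA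
    · obtain ⟨i, -, hi⟩ := mem_biUnion.1 k
      obtain ⟨a, ha, rfl⟩ := List.getElem_of_mem l2
      have a' : a < h := ha.trans_le (u1 l l1).2.1
      have k1 := c1 (i, ⟨a, a'⟩) l hi
      have e : l.getD a v0 = l[a] := List.getD_eq_getElem _ _ ha
      refine mem_union_right _ (mem_biUnion.2 ⟨(i, ⟨a, a'⟩), mem_filter.2 ⟨k1.1.1 ha, ?_⟩,
        mem_sdiff.2 ⟨?_, fun k2 => x4 ?_⟩⟩)
      · rw [← k1.2.1]; exact e ▸ x2
      · simp only [hB, if_pos (k1.1.1 ha)]
        exact mem_image.2 ⟨l, hi, e⟩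
      · obtain ⟨l', k3, k4⟩ := mem_cov.1 k2
        exact mem_cov.2 ⟨l', mem_union_right _ k3, k4⟩
    · refine mem_union_left _ (mem_sdiff.2 ⟨mem_filter.2 ⟨mem_sdiff.2 ⟨x3, fun k2 => ?_⟩, x2⟩,
        fun k2 => k (inA l l1 _ x l2 k2)⟩)
      obtain ⟨l', k3, k4⟩ := mem_cov.1 k2
      obtain rfl := u2 l l1 l' (mem_union_left _ k3) x l2 k4
      exact x4 (mem_cov.2 ⟨l, mem_union_left _ (mem_sdiff.2 ⟨k3, k⟩), k4⟩)
  have s3 := (card_le_card s2).trans (card_union_le _ _)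
  have s4 := card_sdiff_add_card_eq_card s1
  have s5 : #({p ∈ UT | J (cT p)}.biUnion fun p => B p \ cov 𝓝) ≤
      M * h * (m * 2 ^ Fintype.card (Fin M × Fin h)) := by
    refine card_biUnion_le.trans ((sum_le_card_nsmul _ _ _ fun p hp =>
      t3 p (mem_filter.1 hp).1 (mem_filter.1 hp).2).trans ?_)
    exact Nat.mul_le_mul_right _ ((card_le_univ _).trans (by simp))
  rw [cB _ p0] at s4
  omega

end Pool.Agent.MP_61e9ba_co

end MrgPart5

-- marker of a merged file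
example : 731051 + 490183 = 731051 + 490183 := rfl
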