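import Mathlib.Data.Set.Card
import Mathlib.Data.Real.Basic
import Mathlib.Combinatorics.SimpleGraph.Basic
import Mathlib.Data.Nat.Dist

/-!
Powers of cycles, `α`-subgraphs and good values of `α`.
-/

namespace Pool.Agent.MP_61e9ba_co

/-- The `k`-th power `C_n^k` of the `n`-cycle on `{0, …, n-1}`: distinct `i, j` are adjacent iff
their cyclic distance `min (|i-j|, n-|i-j|)` is at most `k`. -/
def cycPow (n k : ℕ) : SimpleGraph (Fin n) where
  Adj i j := i ≠ j ∧ min (Nat.dist i j) (n - Nat.dist i j) ≤ k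
  symm := ⟨fun i j h => ⟨h.1.symm, by rw [Nat.dist_comm]; exact h.2⟩⟩
  loopless := ⟨fun i h => h.1 rfl⟩

/-- `H` is an `α`-subgraph of `G`: a spanning subgraph with `d_H(v) ≥ α d_G(v)` for all `v`. -/
def IsAlphaSubgraph {V : Type} (α : ℝ) (H G : SimpleGraph V) : Prop :=
  H ≤ G ∧ ∀ v, α * ((G.neighborSet v).ncard : ℝ) ≤ ((H.neighborSet v).ncard : ℝ)

/-- `H` contains the `t`-th power of a Hamilton cycle: there is a cyclic ordering `σ` of the
vertices such that vertices at cyclic distance at most `t` in the ordering are adjacent. -/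
def HasHamPower {n : ℕ} (t : ℕ) (H : SimpleGraph (Fin n)) : Prop :=
  ∃ σ : Fin n ≃ Fin n, ∀ i j, (cycPow n t).Adj i j → H.Adj (σ i) (σ j)

/-- `α` is good for `t`: for all large `k` and all `n ≥ k` (with `n ≥ 3`), every `α`-subgraph of
`C_n^k` contains the `t`-th power of a Hamilton cycle. -/
def Good (t : ℕ) (α : ℝ) : Prop :=
  ∃ k₀ : ℕ, ∀ k, k₀ ≤ k → ∀ n, k ≤ n → 3 ≤ n → ∀ H : SimpleGraph (Fin n),
    IsAlphaSubgraph α H (cycPow n k) → HasHamPower t H

end Pool.Agent.MP_61e9ba_co
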