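import Pool.Agent.MP_61e9ba_co.Defs
import Pool.Agent.MP_61e9ba_co.Cover

-- ======== part 0: formerly Pool.Agent.MP_61e9ba_co.Lower
section MrgPart0

/-!
The lower bound: no `α ≤ 1 - 1/(2t)` is good for `t`.
-/

namespace Pool.Agent.MP_61e9ba_co

/-- a set that is independent in `C_n^t` has at most `n / (t+1)` elements. -/
theorem card_indep (n t : ℕ) (hn : t < n) (S : Finset (Fin n))
    (hS : ∀ i ∈ S, ∀ j ∈ S, ¬ (cycPow n t).Adj i j) : S.card * (t + 1) ≤ n := by
  have hn0 : 0 < n := by omega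
  have h := Finset.card_le_card_of_injOn (s := S ×ˢ Finset.range (t + 1)) (t := Finset.range n)
    (fun p => if p.1.val + p.2 < n then p.1.val + p.2 else p.1.val + p.2 - n) ?_ ?_
  · simpa using h
  · rintro ⟨i, a⟩ hp
    simp only [Finset.coe_product, Set.mem_prod, Finset.mem_coe,
      Finset.coe_range, Set.mem_Iio] at hp ⊢
    have := i.2
    split_ifs <;> omega
  · rintro ⟨i, a⟩ hp ⟨j, b⟩ hq heq
    simp only [Finset.coe_product, Set.mem_prod, Finset.mem_coe, Finset.coe_range,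
      Set.mem_Iio] at hp hq heq
    have hi := i.2
    have hj := j.2
    have hij : i = j := by
      by_contra hne
      apply hS i hp.1 j hq.1
      refine ⟨hne, ?_⟩
      have hne' : i.val ≠ j.val := fun h => hne (Fin.ext h)
      unfold Nat.dist
      split_ifs at heq <;> omega
    subst hij
    have : a = b := by split_ifs at heq <;> omega
    rw [this]

theorem two_k_le_deg (n k : ℕ) (hn : 2 * k + 1 ≤ n) (v : Fin n) :
    2 * k ≤ ((cycPow n k).neighborSet v).ncard := by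
  classical
  have hv := v.2
  let f : ℕ → Fin n := fun a =>
    if ha : a < k then ⟨(if v.val + (a + 1) < n then v.val + (a + 1) else v.val + (a + 1) - n),
      by split_ifs <;> omega⟩
    else ⟨(if (a % k + 1) ≤ v.val then v.val - (a % k + 1) else (v.val + n - (a % k + 1)) % n),
      by
        split_ifs
        · omega
        · exact Nat.mod_lt _ (by omega)⟩
  have hf : ∀ a, a < 2 * k → (f a).val =
      if a < k then (if v.val + (a + 1) < n then v.val + (a + 1) else v.val + (a + 1) - n)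
      else (if (a - k + 1) ≤ v.val then v.val - (a - k + 1) else v.val + n - (a - k + 1)) := by
    intro a ha
    simp only [f]
    by_cases h : a < k
    · rw [dif_pos h, if_pos h]
    · rw [dif_neg h, if_neg h]
      have e : a % k = a - k := by
        rw [Nat.mod_eq_sub_mod (by omega), Nat.mod_eq_of_lt (by omega)]
      simp only [e]
      split_ifs with h2
      · rfl
      · exact Nat.mod_eq_of_lt (by omega)
  have h1 : ((Finset.range (2 * k)).image f : Set (Fin n)) ⊆ (cycPow n k).neighborSet v := by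
    intro w hw
    simp only [Finset.coe_image, Finset.coe_range, Set.mem_image, Set.mem_Iio] at hw
    obtain ⟨a, ha, rfl⟩ := hw
    have := hf a ha
    refine ⟨fun h => ?_, ?_⟩
    · rw [← h] at this
      split_ifs at this <;> omega
    · unfold Nat.dist
      split_ifs at this <;> omega
  have h2 := Set.ncard_le_ncard h1 (Set.toFinite _)
  rw [Set.ncard_coe_finset, Finset.card_image_of_injOn, Finset.card_range] at h2
  · exact h2
  · intro a ha b hb hab
    simp only [Finset.coe_range, Set.mem_Iio] at ha hb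
    have e1 := hf a ha
    have e2 := hf b hb
    rw [hab] at e1
    rw [e1] at e2
    split_ifs at e2 <;> omega

theorem not_good (t : ℕ) (ht : 1 ≤ t) (α : ℝ) (hα : α ≤ 1 - 1 / (2 * (t : ℝ))) : ¬ Good t α := by
  classical
  rintro ⟨k₀, H⟩
  set m := k₀ + 1 with hm
  set k := t * m with hk
  set n := 2 * (k + m + 1) with hn
  have hkm : m ≤ k := by rw [hk]; exact Nat.le_mul_of_pos_left m ht
  have htk : t ≤ k := by rw [hk]; exact Nat.le_mul_of_pos_right t (by omega)
  let I : Fin n → Prop := fun v => v.val ≤ m ∨ (k + m + 1 ≤ v.val ∧ v.val ≤ k + 2 * m + 1)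
  let G : SimpleGraph (Fin n) :=
    { Adj := fun u v => (cycPow n k).Adj u v ∧ ¬ (I u ∧ I v)
      symm := ⟨fun u v h => ⟨h.1.symm, fun h' => h.2 ⟨h'.2, h'.1⟩⟩⟩
      loopless := ⟨fun u h => h.1.1 rfl⟩ }
  have hsub : IsAlphaSubgraph α G (cycPow n k) := by
    refine ⟨fun u v h => h.1, fun v => ?_⟩
    have hdeg := two_k_le_deg n k (by omega) v
    have hloss : ((cycPow n k).neighborSet v).ncard ≤ (G.neighborSet v).ncard + m := by
      let a := if v.val ≤ m then 0 else k + m + 1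
      let B : Finset (Fin n) :=
        if I v then (Finset.univ.filter (fun w : Fin n => a ≤ w.val ∧ w.val ≤ a + m)).erase v
        else ∅
      have hB : B.card ≤ m := by
        simp only [B]
        split_ifs with hI
        · have hv : v ∈ Finset.univ.filter (fun w : Fin n => a ≤ w.val ∧ w.val ≤ a + m) := by
            simp only [Finset.mem_filter, Finset.mem_univ, true_and, a]
            rcases hI with h | h <;> split_ifs <;> omega
          rw [Finset.card_erase_of_mem hv]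
          have : (Finset.univ.filter (fun w : Fin n => a ≤ w.val ∧ w.val ≤ a + m)).card ≤
              (Finset.Icc a (a + m)).card := by
            refine Finset.card_le_card_of_injOn (fun w => w.val) ?_ ?_
            · intro w hw
              simpa using hw
            · intro w _ w' _ h
              exact Fin.ext h
          rw [Nat.card_Icc] at this
          omega
        · simp
      have hs : (cycPow n k).neighborSet v ⊆ G.neighborSet v ∪ ↑B := by
        intro w hw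
        by_cases hb : I v ∧ I w
        · right
          have hw1 : v ≠ w := hw.1
          have hw2 : min (Nat.dist v w) (n - Nat.dist v w) ≤ k := hw.2
          simp only [B, if_pos hb.1, Finset.coe_erase, Set.mem_sdiff, Finset.coe_filter,
            Finset.mem_univ, true_and, Set.mem_ofPred_eq, Set.mem_singleton_iff, a]
          refine ⟨?_, hw1.symm⟩
          unfold Nat.dist at hw2
          obtain ⟨h1, h2⟩ := hb
          rcases h1 with h1 | h1 <;> rcases h2 with h2 | h2 <;> split_ifs <;> omega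
        · left
          exact ⟨hw, hb⟩
      calc _ ≤ (G.neighborSet v ∪ ↑B).ncard := Set.ncard_le_ncard hs (Set.toFinite _)
        _ ≤ (G.neighborSet v).ncard + (↑B : Set (Fin n)).ncard := Set.ncard_union_le _ _
        _ ≤ _ := by rw [Set.ncard_coe_finset]; omega
    have ht' : (0 : ℝ) < t := by exact_mod_cast ht
    have h1 : (2 * (t * m) : ℝ) ≤ ((cycPow n k).neighborSet v).ncard := by
      have : ((2 * k : ℕ) : ℝ) ≤ ((cycPow n k).neighborSet v).ncard := by exact_mod_cast hdeg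
      rw [hk] at this
      push_cast at this
      exact this
    have h2 : (((cycPow n k).neighborSet v).ncard : ℝ) ≤ (G.neighborSet v).ncard + m := by
      exact_mod_cast hloss
    set d : ℝ := (((cycPow n k).neighborSet v).ncard : ℝ)
    have hd0 : 0 ≤ d := Nat.cast_nonneg _
    have h3 : (m : ℝ) ≤ 1 / (2 * t) * d := by
      rw [one_div, inv_mul_eq_div, le_div_iff₀ (by positivity)]
      linarith
    nlinarith
  obtain ⟨σ, hσ⟩ := H k (by omega) n (by omega) (by omega) G hsub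
  have h1 := card_indep n t (by omega) (Finset.univ.filter (fun i => I (σ i))) (by
    intro i hi j hj hadj
    exact (hσ i j hadj).2 ⟨(Finset.mem_filter.mp hi).2, (Finset.mem_filter.mp hj).2⟩)
  have h2 : 2 * (m + 1) ≤ (Finset.univ.filter (fun i => I (σ i))).card := by
    have e : (Finset.univ.filter (fun i => I (σ i))).card =
        (Finset.univ.filter (fun v => I v)).card := by
      refine Finset.card_bij (fun i _ => σ i) ?_ ?_ ?_
      · intro i hi
        simpa using hi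
      · intro i _ j _ h
        exact σ.injective h
      · intro v hv
        exact ⟨σ.symm v, by simpa using hv, by simp⟩
    rw [e]
    have := Finset.card_le_card_of_injOn (s := Finset.range (2 * (m + 1)))
      (t := Finset.univ.filter (fun v => I v))
      (fun a => (⟨(if a ≤ m then a else a + k) % n, Nat.mod_lt _ (by omega)⟩ : Fin n)) ?_ ?_
    · simpa using this
    · intro a ha
      simp only [Finset.coe_range, Set.mem_Iio] at ha
      simp only [Finset.coe_filter, Finset.mem_univ, true_and, Set.mem_ofPred_eq, I]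
      rw [Nat.mod_eq_of_lt (by split_ifs <;> omega)]
      split_ifs <;> omega
    · intro a ha b hb hab
      simp only [Finset.coe_range, Set.mem_Iio] at ha hb
      have := congrArg Fin.val hab
      simp only at this
      rw [Nat.mod_eq_of_lt (by split_ifs <;> omega),
        Nat.mod_eq_of_lt (by split_ifs <;> omega)] at this
      split_ifs at this <;> omega
  have h3 : 2 * (m + 1) * (t + 1) ≤ n := (Nat.mul_le_mul_right _ h2).trans h1
  rw [hn, hk] at h3
  nlinarith

end Pool.Agent.MP_61e9ba_co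

end MrgPart0

-- ======== part 1: formerly Pool.Agent.MP_61e9ba_co.Global
section MrgPart1

/-!
Almost perfect tilings of an arbitrary cell system, with small leftover in every cell.
-/

namespace Pool.Agent.MP_61e9ba_co

open Finset

open scoped Classical

lemma one_bd {K : ℕ} (hK : 1 ≤ K) (r : ℕ) (w : ℤ) :
    #{i : Fin r | (w + K * i) % (K * r : ℕ) < K} ≤ 1 := by
  have key : ∀ i i' : Fin r, i < i' → (w + K * i) % (K * r : ℕ) < K →
      ¬ (w + K * i') % (K * r : ℕ) < K := by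
    intro i i' h h1 h2
    have h3 : (i : ℤ) + 1 ≤ i' := by exact_mod_cast h
    have h4 : (i' : ℤ) + 1 ≤ r := by exact_mod_cast i'.2
    have K0 : (0 : ℤ) < K := by exact_mod_cast hK
    have i0 : (0 : ℤ) ≤ i := by positivity
    have h5 := Int.emod_nonneg (w + K * i) (b := (K * r : ℕ)) (by push_cast; nlinarith)
    rw [show w + K * i' = (w + K * i) + K * (i' - i) by ring, ← Int.emod_add_emod,
      Int.emod_eq_of_lt (by nlinarith) (by push_cast at h1 ⊢; nlinarith)] at h2
    nlinarith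
  refine card_le_one.2 fun i hi i' hi' => ?_
  rcases lt_trichotomy i i' with h | h | h
  · exact absurd (mem_filter.1 hi').2 (key i i' h (mem_filter.1 hi).2)
  · exact h
  · exact absurd (mem_filter.1 hi).2 (key i' i h (mem_filter.1 hi').2)

lemma two_bd {K r N : ℕ} [NeZero N] (hK : 1 ≤ K) (hN : K * r ≤ N) (j : ZMod N) :
    #{i : Fin r | (j + (K * i : ℕ)).val % (K * r) < K} ≤ 2 := by
  refine le_trans (card_le_card fun i hi => ?_) ((card_union_le _ _).trans
    (add_le_add (one_bd hK r j.val) (one_bd hK r (j.val - N))))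
  have h1 := (mem_filter.1 hi).2
  have h2 : K * i < N := lt_of_lt_of_le (Nat.mul_lt_mul_of_pos_left i.2 hK) hN
  have h3 := ZMod.val_lt j
  rw [ZMod.val_add, ZMod.val_natCast, Nat.mod_eq_of_lt h2] at h1
  by_cases a : j.val + K * i < N
  · rw [Nat.mod_eq_of_lt a] at h1
    exact mem_union_left _ (mem_filter.2 ⟨mem_univ _, by exact_mod_cast h1⟩)
  · rw [Nat.mod_eq_sub_mod (not_lt.1 a), Nat.mod_eq_of_lt (a := _ - N) (by omega)] at h1
    refine mem_union_right _ (mem_filter.2 ⟨mem_univ _, ?_⟩)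
    rw [show (j.val : ℤ) - N + K * i = (j.val + K * i - N : ℕ) by
      rw [Nat.cast_sub (by omega)]; push_cast; ring]
    exact_mod_cast h1

lemma cmiss_mono {V : Type} {N : ℕ} {G : SimpleGraph V} {c : V → ZMod N} {U U' : Finset V} {K : ℕ}
    (h : U ⊆ U') (x : V) : (#(cmiss G c U K x) : ℝ) ≤ #(cmiss G c U' K x) := by
  exact_mod_cast card_le_card (filter_subset_filter _ h)

lemma card_le_cells {V : Type} {N : ℕ} {c : V → ZMod N} {U : Finset V} {Cs : Finset (ZMod N)}
    (h : ∀ x ∈ U, c x ∈ Cs) {τ : ℝ} (hτ : ∀ j, (#{x ∈ U | c x = j} : ℝ) ≤ τ) :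
    (#U : ℝ) ≤ #Cs * τ := by
  rw [card_eq_sum_card_fiberwise h, Nat.cast_sum, ← nsmul_eq_mul]
  exact sum_le_card_nsmul _ _ _ fun j _ => hτ j

theorem cover (t K Λ m : ℕ) (hK : 1 ≤ K) (hΛ : 1 ≤ Λ) (hm : 0 < m) {η β : ℝ} (hη : 0 < η)
    (hη1 : η ≤ 1) (hβ : 0 < β) : ∃ s0 : ℝ, ∀ (V : Type) [Fintype V] (N : ℕ) (G : SimpleGraph V)
      (c : V → ZMod N) (U : Finset V) (D s : ℝ), s0 ≤ s → 2 * K + 1 ≤ N → 0 ≤ D →
      t * D ≤ (1 - η) * K * s → (∀ x, (#(cmiss G c U K x) : ℝ) ≤ D) →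
      (∀ j, s ≤ #{y ∈ U | c y = j}) → (∀ j, (#{y | c y = j} : ℝ) ≤ Λ * s) →
      ∃ 𝓛, Tiling G c U t K (m * (t + 1)) 𝓛 ∧ ∀ j, (#{x ∈ U \ cov 𝓛 | c x = j} : ℝ) ≤ β * s := by
  obtain ⟨r, hr⟩ := exists_nat_gt (8 * Λ / β)
  have Λ1 : (1 : ℝ) ≤ Λ := by exact_mod_cast hΛ
  have K1 : (1 : ℝ) ≤ K := by exact_mod_cast hK
  have r0 : (0 : ℝ) < r := lt_trans (by positivity) hr
  have r1 : 0 < r := by exact_mod_cast r0
  have r1' : (1 : ℝ) ≤ r := by exact_mod_cast r1
  rw [div_lt_iff₀ hβ] at hr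
  set ε := η / (2 * r * (t * (2 * K + 1) + K))
  have e0 : (1 : ℝ) ≤ t * (2 * K + 1) + K := le_add_of_nonneg_of_le (by positivity) K1
  have hε : 0 < ε := by positivity
  have e1 : 2 * r * (t * (2 * K + 1) + K) * ε = η := mul_div_cancel₀ _ (by positivity)
  have e2 : 2 * r * ε ≤ 1 := by nlinarith [mul_pos r0 hε]
  obtain ⟨s1, H1⟩ := cover_loc t K (K * r * Λ) m hK (Nat.succ_le_of_lt (by positivity)) hm hη hη1 hβ
  obtain ⟨s2, H2⟩ := cover_loc t K (2 * r * (K * r * Λ)) m hK (Nat.succ_le_of_lt (by positivity))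
    hm (half_pos hη)
    (by linarith) (half_pos hβ)
  obtain ⟨s3, H3⟩ := split r K Λ r1 hΛ hε (by nlinarith)
  refine ⟨max (max s1 s3) (max (2 * r * s2) 0), fun V _ N G c U D s hs hN hD slack bud lo hi => ?_⟩
  simp only [max_le_iff] at hs
  obtain ⟨⟨hs1, hs3⟩, hs2, s0⟩ := hs
  have : NeZero N := ⟨by omega⟩
  have hiU : ∀ U' : Finset V, ∀ j, (#{y ∈ U' | c y = j} : ℝ) ≤ Λ * s := fun U' j =>
    le_trans (by exact_mod_cast card_le_card (filter_subset_filter _ (subset_univ _))) (hi j)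
  by_cases hNr : N < K * r
  · have cN : #(univ : Finset (ZMod N)) ≤ K * r := by rw [card_univ, ZMod.card]; omega
    obtain ⟨𝓛, l1, l2⟩ := H1 V N G c U D s (fun _ => True) univ hs1 hN hD slack (fun x _ => bud x)
      ((card_le_cells (fun _ _ => mem_univ _) (hiU U)).trans (by
        push_cast
        rw [mul_assoc _ (Λ : ℝ)]
        exact mul_le_mul_of_nonneg_right (by exact_mod_cast cN) (by positivity)))
      (cN.trans (Nat.le_mul_of_pos_right _ hΛ)) (fun _ _ => mem_univ _) fun a _ j _ => lo _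
    refine ⟨𝓛, l1, fun j => le_trans ?_ l2⟩
    exact Nat.cast_le.2 (card_le_card fun x hx => mem_filter.2 ⟨(mem_filter.1 hx).1, trivial⟩)
  obtain ⟨χ, hχ⟩ := H3 V N G c U s hs3 hi
  set pos : Fin r → ZMod N → ℕ := fun i j => (j + (K * i : ℕ)).val with hpos
  have Q0 : 0 < K * r := by positivity
  have sl : s / (2 * r) ≤ s / r - ε * s := by
    rw [div_le_iff₀ (by positivity), sub_mul, mul_comm 2, ← mul_assoc, div_mul_cancel₀ _ r0.ne']
    nlinarith
  have := fun (i : Fin r) (g : ℕ) => H2 V N G c {x ∈ {x ∈ U | χ x = i} | pos i (c x) / (K * r) = g}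
    (D / r + (2 * K + 1) * (ε * s)) (s / r - ε * s)
    (fun a => pos i a / (K * r) = g ∧ K ≤ pos i a % (K * r)) {j | pos i j / (K * r) = g}
    (le_trans (by rw [le_div_iff₀ (by positivity)]; linarith) sl) hN (by positivity) (by
      have k1 := div_le_div_of_nonneg_right slack r0.le
      have k2 : (t * (2 * K + 1) + K) * (ε * s) ≤ η / 2 * K * (s / r) := by
        rw [← e1]
        field_simp
        nlinarith [mul_nonneg hε.le s0, mul_nonneg (mul_nonneg hε.le s0) (sub_nonneg.2 K1),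
          mul_nonneg (mul_nonneg (mul_nonneg hε.le s0) (sub_nonneg.2 K1)) (zero_le_one.trans e0)]
      have k3 : 0 ≤ η / 2 * K * (ε * s) := by positivity
      rw [mul_div_assoc, mul_div_assoc] at k1
      nlinarith)
    (fun x _ => (cmiss_mono (filter_subset _ _) x).trans (((hχ i).2 x).trans (by
      gcongr; exact bud x)))
  have cC : ∀ i g, #({j | pos i j / (K * r) = g} : Finset (ZMod N)) ≤ K * r := by
    intro i g
    refine (card_le_card_of_injOn (fun j => pos i j % (K * r))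
      (fun j _ => mem_coe.2 (mem_range.2 (Nat.mod_lt _ Q0))) fun j hj j' hj' e => ?_).trans_eq
      (card_range _)
    have : pos i j = pos i j' := by
      rw [← Nat.div_add_mod (pos i j) (K * r), ← Nat.div_add_mod (pos i j') (K * r),
        (mem_filter.1 hj).2, (mem_filter.1 hj').2]
      exact congrArg _ e
    exact add_right_cancel (ZMod.val_injective _ this)
  replace := fun (i : Fin r) (g : ℕ) => this i g
    ((card_le_cells (Cs := {j | pos i j / (K * r) = g})
      (fun x hx => mem_filter.2 ⟨mem_univ _, (mem_filter.1 hx).2⟩) (hiU _)).trans (by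
        have k1 : (#({j | pos i j / (K * r) = g} : Finset (ZMod N)) : ℝ) ≤ K * r := by
          exact_mod_cast cC i g
        have k2 := mul_le_mul_of_nonneg_left sl (show (0 : ℝ) ≤ 2 * r * (K * r * Λ) by positivity)
        have k3 : 2 * r * (K * r * Λ) * (s / (2 * r)) = K * r * (Λ * s) := by field_simp
        have k4 := mul_le_mul_of_nonneg_right k1 (show 0 ≤ Λ * s by positivity)
        push_cast
        linarith))
    ((cC i g).trans ((Nat.le_mul_of_pos_right _ hΛ).trans (Nat.le_mul_of_pos_left _ (by omega))))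
    (fun x hx => mem_filter.2 ⟨mem_univ _, (mem_filter.1 hx).2⟩) (fun a ha j hj => by
      have k1 : pos i (a - j) / (K * r) = g := by
        have k2 := Nat.div_add_mod' (pos i a) (K * r)
        have k3 := Nat.mod_lt (pos i a) Q0
        have k4 : pos i (a - j) = pos i a - j := by
          have : (j : ZMod N).val = j := ZMod.val_natCast_of_lt (by omega)
          simp only [hpos] at k2 ha ⊢
          rw [sub_add_eq_add_sub, ZMod.val_sub (by omega), this]
        rw [k4]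
        rw [ha.1] at k2
        exact Nat.div_eq_of_lt_le (by omega) (by rw [add_mul]; omega)
      have k2 := (abs_le.1 ((hχ i).1 (a - j))).1
      have k3 := div_le_div_of_nonneg_right (lo (a - j)) r0.le
      have k4 : (#{x ∈ {x ∈ U | χ x = i} | c x = a - j} : ℝ) ≤
          #{y ∈ {x ∈ {x ∈ U | χ x = i} | pos i (c x) / (K * r) = g} | c y = a - j} := by
        refine Nat.cast_le.2 (card_le_card fun x hx => ?_)
        obtain ⟨x1, x2⟩ := mem_filter.1 hx
        exact mem_filter.2 ⟨mem_filter.2 ⟨x1, by rw [x2, k1]⟩, x2⟩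
      linarith)
  choose 𝓛 l1 l2 using this
  set 𝓐 := (univ ×ˢ range N).biUnion fun p : Fin r × ℕ => 𝓛 p.1 p.2
  refine ⟨𝓐, ⟨fun l hl => ?_, fun l hl l' hl' x k1 k2 => ?_⟩, fun j => ?_⟩
  · obtain ⟨p, -, hp⟩ := mem_biUnion.1 hl
    obtain ⟨a1, a2, a3, a4, a5⟩ := (l1 _ _).1 l hp
    exact ⟨a1, a2, a3, fun x hx => (mem_filter.1 (mem_filter.1 (a4 x hx)).1).1, a5⟩
  · obtain ⟨⟨i, g⟩, -, hp⟩ := mem_biUnion.1 hl
    obtain ⟨⟨i', g'⟩, -, hp'⟩ := mem_biUnion.1 hl'
    have a1 := mem_filter.1 (((l1 _ _).1 l hp).2.2.2.1 x k1)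
    have a2 := mem_filter.1 (((l1 _ _).1 l' hp').2.2.2.1 x k2)
    obtain rfl : i = i' := (mem_filter.1 a1.1).2.symm.trans (mem_filter.1 a2.1).2
    obtain rfl : g = g' := a1.2.symm.trans a2.2
    exact (l1 _ _).2 l hp l' hp' x k1 k2
  have sub : {x ∈ U \ cov 𝓐 | c x = j} ⊆ (univ.biUnion fun i =>
      {x ∈ {x ∈ {x ∈ U | χ x = i} | pos i (c x) / (K * r) = pos i j / (K * r)} \
        cov (𝓛 i (pos i j / (K * r))) | pos i (c x) / (K * r) = pos i j / (K * r) ∧
          K ≤ pos i (c x) % (K * r)}) ∪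
      ({i | pos i j % (K * r) < K} : Finset (Fin r)).biUnion
        fun i => {x ∈ {x ∈ U | χ x = i} | c x = j} := by
    intro x hx
    obtain ⟨x1, rfl⟩ := mem_filter.1 hx
    obtain ⟨x2, x3⟩ := mem_sdiff.1 x1
    by_cases a : pos (χ x) (c x) % (K * r) < K
    · exact mem_union_right _ (mem_biUnion.2 ⟨χ x, mem_filter.2 ⟨mem_univ _, a⟩,
        mem_filter.2 ⟨mem_filter.2 ⟨x2, rfl⟩, rfl⟩⟩)
    · refine mem_union_left _ (mem_biUnion.2 ⟨χ x, mem_univ _, mem_filter.2 ⟨mem_sdiff.2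
        ⟨mem_filter.2 ⟨mem_filter.2 ⟨x2, rfl⟩, rfl⟩, fun k => x3 ?_⟩, rfl, not_lt.1 a⟩⟩)
      obtain ⟨l, k1, k2⟩ := mem_cov.1 k
      exact mem_cov.2 ⟨l, mem_biUnion.2 ⟨(χ x, _), mem_product.2 ⟨mem_univ _, mem_range.2
        ((Nat.div_le_self _ _).trans_lt (ZMod.val_lt _))⟩, k1⟩, k2⟩
  have c1 := (card_le_card sub).trans ((card_union_le _ _).trans
    (add_le_add card_biUnion_le card_biUnion_le))
  have c2 := sum_le_card_nsmul univ _ _ fun i _ => l2 i (pos i j / (K * r))
  have c3 := sum_le_card_nsmul ({i | pos i j % (K * r) < K} : Finset (Fin r))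
    (fun i => (#{x ∈ {x ∈ U | χ x = i} | c x = j} : ℝ)) (Λ * s / r + ε * s) fun i _ => by
      have k2 := (abs_le.1 ((hχ i).1 j)).2
      have k3 := div_le_div_of_nonneg_right (hiU U j) r0.le
      linarith
  have c4 : (#({i | pos i j % (K * r) < K} : Finset (Fin r)) : ℝ) ≤ 2 := by
    exact_mod_cast two_bd hK (not_lt.1 hNr) j
  have c5 := mul_le_mul_of_nonneg_right c4 (show 0 ≤ Λ * s / r + ε * s by positivity)
  rw [card_univ, Fintype.card_fin, nsmul_eq_mul] at c2
  rw [nsmul_eq_mul] at c3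
  have c6 := (Nat.cast_le (α := ℝ)).2 c1
  rw [Nat.cast_add, Nat.cast_sum, Nat.cast_sum] at c6
  have c7 : r * (β / 2 * (s / r - ε * s)) ≤ β / 2 * s := by
    have : r * (s / r) = s := mul_div_cancel₀ _ r0.ne'
    have : 0 ≤ β / 2 * (r * (ε * s)) := by positivity
    nlinarith
  have c8 : Λ * s / r ≤ β / 8 * s := by rw [div_le_iff₀ r0]; nlinarith
  have c9 : ε ≤ β / 8 := by nlinarith
  have c10 := mul_le_mul_of_nonneg_right c9 s0
  refine c6.trans ((add_le_add c2 c3).trans ?_)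
  linarith

end Pool.Agent.MP_61e9ba_co

end MrgPart1

-- ======== part 2: formerly Pool.Agent.MP_61e9ba_co.Thread
section MrgPart2

/-!
Threading a long power path through a family of tasks.
-/

namespace Pool.Agent.MP_61e9ba_co

open Finset

open scoped Classical

variable {V : Type} {N : ℕ}

/-- An ordered clique of size `t` in the window at `a`. -/
def End (G : SimpleGraph V) (c : V → ZMod N) (t K : ℕ) (a : ZMod N) (Y : List V) : Prop :=
  Y.length = t ∧ PW G t Y ∧ ∀ x ∈ Y, InW K a (c x)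

/-- From any end close to `b` one can continue to an end at `b`, covering `O`, any part of `T` and
at most `C` further vertices of `U` outside a sparse forbidden set. -/
def Step (G : SimpleGraph V) (c : V → ZMod N) (U : Finset V) (t K r C : ℕ) (φ : ℝ) (b : ZMod N)
    (O T : Finset V) : Prop :=
  ∀ a, (a = b ∨ a + 1 = b) → ∀ Y, End G c t K a Y → ∀ F : Finset V,
    (∀ j, (#{x ∈ F ∩ U | c x = j} : ℝ) ≤ φ) → ∃ (S : Finset V) (Y' : List V), S ⊆ U \ F ∧ #S ≤ C ∧
      (∀ x ∈ S, Near r b (c x)) ∧ End G c t K b Y' ∧ ∀ T' ⊆ T, ∃ l : List V, l.Nodup ∧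
        (∀ x, x ∈ l ↔ x ∈ S ∨ x ∈ O ∨ x ∈ T') ∧ PW G t (Y ++ l) ∧ Y' <:+ Y ++ l

variable {G : SimpleGraph V} {c : V → ZMod N} {U : Finset V} {t K r C : ℕ} {φ : ℝ}

lemma thread {ι : Type} (loc : ι → ℕ) (O T : ι → Finset V) (F0 : Finset V) {a0 : ZMod N}
    (ha0 : a0 = 0 ∨ a0 + 1 = 0) {Y0 : List V} (hY0 : End G c t K a0 Y0) (𝒯 : Finset ι) :
    (∀ θ ∈ 𝒯, Step G c U t K r C φ (loc θ) (O θ) (T θ)) →
    (∀ θ ∈ 𝒯, loc θ = 0 ∨ ∃ θ' ∈ 𝒯, loc θ' + 1 = loc θ) →
    (∀ j, (#{x ∈ F0 ∩ U | c x = j} : ℝ) + C * #{θ ∈ 𝒯 | Near r j (loc θ)} ≤ φ) →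
    (∀ θ ∈ 𝒯, ∀ θ' ∈ 𝒯, ∀ x, x ∈ O θ ∨ x ∈ T θ → x ∈ O θ' ∨ x ∈ T θ' → θ = θ') →
    (∀ θ ∈ 𝒯, ∀ x, x ∈ O θ ∨ x ∈ T θ → x ∉ U) →
    ∃ (S : Finset V) (a : ZMod N) (Y : List V), S ⊆ U \ F0 ∧
      (∀ j, #{x ∈ S | c x = j} ≤ C * #{θ ∈ 𝒯 | Near r j (loc θ)}) ∧ End G c t K a Y ∧
      (𝒯 = ∅ → a = a0) ∧ (∀ θ ∈ 𝒯, (∀ θ' ∈ 𝒯, loc θ' ≤ loc θ) → a = loc θ) ∧
      ∀ T' : Finset V, (∀ x ∈ T', ∃ θ ∈ 𝒯, x ∈ T θ) → ∃ l : List V, l.Nodup ∧
        (∀ x, x ∈ l ↔ x ∈ S ∨ (∃ θ ∈ 𝒯, x ∈ O θ) ∨ x ∈ T') ∧ PW G t (Y0 ++ l) ∧ Y <:+ Y0 ++ l := by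
  induction 𝒯 using Finset.induction_on_max_value loc with
  | empty =>
    refine fun _ _ _ _ _ => ⟨∅, a0, Y0, by simp, by simp, hY0, by simp, by simp, fun T' h =>
      ⟨[], by simp, by simpa using h, by simpa using hY0.2.1, by simp⟩⟩
  | insert θ 𝒯 hθ hmax ih =>
    intro step gap use disj out
    have mono : ∀ j : ZMod N, #{θ' ∈ insert θ 𝒯 | Near r j (loc θ')} =
        #{θ' ∈ 𝒯 | Near r j (loc θ')} + if Near r j (loc θ) then 1 else 0 := by
      intro j
      rw [filter_insert]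
      split_ifs
      · rw [card_insert_of_notMem fun a => hθ (mem_filter.1 a).1]
      · rfl
    obtain ⟨S, a, Y, s1, s2, s3, s4, s5, s6⟩ := ih (fun θ' h => step θ' (mem_insert_of_mem h))
      (fun θ' h => (gap θ' (mem_insert_of_mem h)).imp_right fun ⟨θ'', k1, k2⟩ => ⟨θ'',
        (mem_insert.1 k1).resolve_left (by rintro rfl; have := hmax θ' h; omega), k2⟩)
      (fun j => le_trans (by rw [mono]; gcongr; omega) (use j))
      (fun θ1 h1 θ2 h2 => disj θ1 (mem_insert_of_mem h1) θ2 (mem_insert_of_mem h2))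
      fun θ' h => out θ' (mem_insert_of_mem h)
    obtain ⟨S', Y', u1, u2, u3, u4, u5⟩ := step θ (mem_insert_self _ _) a (by
      rcases 𝒯.eq_empty_or_nonempty with e | ne
      · have : loc θ = 0 := (gap θ (mem_insert_self _ _)).resolve_right fun ⟨θ', k1, k2⟩ => by
          rw [e, insert_empty, mem_singleton] at k1
          rw [k1] at k2; omega
        rw [s4 e, this, Nat.cast_zero]; exact ha0
      · obtain ⟨θ', k1, k2⟩ := exists_max_image 𝒯 loc ne
        rw [s5 θ' k1 k2]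
        have := hmax θ' k1
        rcases gap θ (mem_insert_self _ _) with k | ⟨θ'', k3, k4⟩
        · left; congr 1; omega
        · have := k2 θ'' ((mem_insert.1 k3).resolve_left (by rintro rfl; omega))
          by_cases e : loc θ' = loc θ
          · left; rw [e]
          · right; rw [← Nat.cast_add_one]; congr 1; omega) Y s3 (F0 ∪ S) (fun j => by
      refine le_trans ?_ (use j)
      have k1 : #{x ∈ (F0 ∪ S) ∩ U | c x = j} ≤ #{x ∈ F0 ∩ U | c x = j} + #{x ∈ S | c x = j} := by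
        rw [union_inter_distrib_right, filter_union]
        exact (card_union_le _ _).trans (Nat.add_le_add_left
          (card_le_card (filter_subset_filter _ inter_subset_left)) _)
      have k2 := s2 j
      have k3 : C * #{θ' ∈ 𝒯 | Near r j (loc θ')} ≤ C * #{θ' ∈ insert θ 𝒯 | Near r j (loc θ')} :=
        Nat.mul_le_mul_left _ (by rw [mono]; omega)
      exact_mod_cast (by omega))
    refine ⟨S ∪ S', loc θ, Y', union_subset s1 (u1.trans (sdiff_subset_sdiff Subset.rfl
      subset_union_left)), fun j => ?_, u4, by simp, fun θ' h1 h2 => ?_, fun T' hT => ?_⟩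
    · rw [filter_union, mono, mul_add]
      refine (card_union_le _ _).trans (add_le_add (s2 j) ?_)
      split_ifs with k
      · rw [mul_one]; exact (card_filter_le _ _).trans u2
      · rw [filter_eq_empty_iff.2 fun x hx (e : c x = j) => k (e ▸ (u3 x hx).symm)]; simp
    · congr 1
      refine le_antisymm (h2 θ (mem_insert_self _ _)) ?_
      rcases mem_insert.1 h1 with rfl | h1
      · exact le_rfl
      · exact hmax θ' h1
    obtain ⟨l1, p1, p2, p3, p4⟩ := s6 {x ∈ T' | x ∉ T θ} fun x hx => by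
      obtain ⟨θ', k1, k2⟩ := hT x (mem_filter.1 hx).1
      exact ⟨θ', (mem_insert.1 k1).resolve_left (by rintro rfl; exact (mem_filter.1 hx).2 k2), k2⟩
    obtain ⟨l2, q1, q2, q3, q4⟩ := u5 {x ∈ T' | x ∈ T θ} fun x hx => (mem_filter.1 hx).2
    refine ⟨l1 ++ l2, List.nodup_append.2 ⟨p1, q1, fun x h1 y h2 e => ?_⟩, fun x => ?_, ?_, ?_⟩
    · subst e
      have k1 : x ∈ S ∨ ∃ θ' ∈ 𝒯, x ∈ O θ' ∨ x ∈ T θ' := by
        rcases (p2 x).1 h1 with k | ⟨θ', k1, k2⟩ | k
        · exact .inl k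
        · exact .inr ⟨θ', k1, .inl k2⟩
        · obtain ⟨θ', k1, k2⟩ := hT x (mem_filter.1 k).1
          exact .inr ⟨θ', (mem_insert.1 k1).resolve_left
            (by rintro rfl; exact (mem_filter.1 k).2 k2), .inr k2⟩
      have k2 : x ∈ S' ∨ x ∈ O θ ∨ x ∈ T θ :=
        ((q2 x).1 h2).imp_right (Or.imp_right fun k => (mem_filter.1 k).2)
      rcases k1 with k1 | ⟨θ', k0, k1⟩ <;> rcases k2 with k2 | k2
      · exact (mem_sdiff.1 (u1 k2)).2 (mem_union_right _ k1)
      · exact out θ (mem_insert_self _ _) x k2 (mem_sdiff.1 (s1 k1)).1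
      · exact out θ' (mem_insert_of_mem k0) x k1 (mem_sdiff.1 (u1 k2)).1
      · exact hθ (disj θ' (mem_insert_of_mem k0) θ (mem_insert_self _ _) x k1 k2 ▸ k0)
    · simp only [List.mem_append, p2, q2, mem_filter, mem_union, exists_mem_insert]
      by_cases e : x ∈ T θ
      · simp only [e, not_true, and_false, and_true, or_false]
        exact ⟨fun h => by rcases h with (h | h) | h | h | h <;> simp [h],
          fun h => by rcases h with (h | h) | (h | h) | h <;> simp [h]⟩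
      · simp only [e, not_false_iff, and_false, and_true, or_false]
        exact ⟨fun h => by rcases h with (h | h | h) | h | h <;> simp [h],
          fun h => by rcases h with (h | h) | (h | h) | h <;> simp [h]⟩
    · rw [← List.append_assoc]; exact p3.glue_suffix p4 q3 s3.1.ge
    · rw [← List.append_assoc]
      obtain ⟨z, hz⟩ := p4
      exact q4.trans ⟨z, by rw [← hz, List.append_assoc]⟩

/-- One lap around the cycle. -/
lemma lap [NeZero N] {ι : Type} (loc : ι → ZMod N) (O T : ι → Finset V) (F0 : Finset V)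
    {a0 : ZMod N} (ha0 : a0 = 0 ∨ a0 + 1 = 0) {Y0 : List V} (hY0 : End G c t K a0 Y0)
    (𝒯 : Finset ι) (step : ∀ θ ∈ 𝒯, Step G c U t K r C φ (loc θ) (O θ) (T θ))
    (surj : ∀ j, ∃ θ ∈ 𝒯, loc θ = j) {τ : ℝ} (hτ : ∀ j, (#{θ ∈ 𝒯 | loc θ = j} : ℝ) ≤ τ)
    (use : ∀ j, (#{x ∈ F0 ∩ U | c x = j} : ℝ) + C * ((2 * r + 1) * τ) ≤ φ)
    (disj : ∀ θ ∈ 𝒯, ∀ θ' ∈ 𝒯, ∀ x, x ∈ O θ ∨ x ∈ T θ → x ∈ O θ' ∨ x ∈ T θ' → θ = θ')
    (out : ∀ θ ∈ 𝒯, ∀ x, x ∈ O θ ∨ x ∈ T θ → x ∉ U) :
    ∃ (S : Finset V) (a : ZMod N) (Y : List V), S ⊆ U \ F0 ∧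
      (∀ j, (#{x ∈ S | c x = j} : ℝ) ≤ C * ((2 * r + 1) * τ)) ∧ End G c t K a Y ∧ a + 1 = 0 ∧
      ∀ T' : Finset V, (∀ x ∈ T', ∃ θ ∈ 𝒯, x ∈ T θ) → ∃ l : List V, l.Nodup ∧
        (∀ x, x ∈ l ↔ x ∈ S ∨ (∃ θ ∈ 𝒯, x ∈ O θ) ∨ x ∈ T') ∧ PW G t (Y0 ++ l) ∧ Y <:+ Y0 ++ l := by
  have N0 := NeZero.pos N
  have nc : ∀ j, (C : ℝ) * #{θ ∈ 𝒯 | Near r j ((loc θ).val : ZMod N)} ≤ C * ((2 * r + 1) * τ) := by
    intro j
    simp only [ZMod.natCast_zmod_val]
    exact mul_le_mul_of_nonneg_left (near_card 𝒯 loc hτ r j) (Nat.cast_nonneg _)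
  obtain ⟨S, a, Y, s1, s2, s3, -, s5, s6⟩ := thread (U := U) (r := r) (C := C) (φ := φ)
    (fun θ => (loc θ).val) O T F0 ha0 hY0 𝒯
    (fun θ h => by simpa using step θ h) (fun θ _ => by
      rcases Nat.eq_zero_or_pos (loc θ).val with k | k
      · exact .inl k
      · obtain ⟨θ', k1, k2⟩ := surj ((loc θ).val - 1 : ℕ)
        have := ZMod.val_lt (loc θ)
        exact .inr ⟨θ', k1, by rw [k2, ZMod.val_natCast_of_lt (by omega)]; omega⟩)
    (fun j => le_trans (add_le_add_right (nc j) _) (use j)) disj out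
  refine ⟨S, a, Y, s1, fun j => le_trans (by exact_mod_cast s2 j) (nc j), s3, ?_, s6⟩
  obtain ⟨θ, k1, k2⟩ := surj (N - 1 : ℕ)
  have k3 : (loc θ).val = N - 1 := by rw [k2, ZMod.val_natCast_of_lt (by omega)]
  rw [s5 θ k1 fun θ' _ => by have := ZMod.val_lt (loc θ'); omega, k3, ← Nat.cast_add_one,
    Nat.sub_add_cancel N0, ZMod.natCast_self]

/-- The local connection property. -/
def Loc (G : SimpleGraph V) (c : V → ZMod N) (U : Finset V) (t K C : ℕ) (φ : ℝ) : Prop :=
  ∀ F : Finset V, (∀ j, (#{y ∈ F ∩ U | c y = j} : ℝ) ≤ φ) → ∀ (a a' : ZMod N) (Y Y' : List V) (v : V),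
    (a' = a ∨ a' + 1 = a) → End G c t K a' Y → End G c t K a Y' → InW K a (c v) →
    ∃ m1 m2 : List V, m1.Nodup ∧ m1.length ≤ C ∧
      (∀ x ∈ m1, x ∈ U ∧ x ∉ F ∧ Near (2 * K + 1) a (c x)) ∧ m2.Perm (v :: m1) ∧
      PW G t (Y ++ m1 ++ Y') ∧ PW G t (Y ++ m2 ++ Y')

lemma step_tile (h : Loc G c U t K (C := C) φ) {b : ZMod N} {l : List V} (hl : t + 1 ≤ l.length)
    (h1 : l.Nodup) (h2 : PW G t l) (h3 : ∀ x ∈ l, InW K b (c x)) (h4 : ∀ x ∈ l, x ∉ U) :
    Step G c U t K (2 * K + 1) (C + t) (φ - t) b l.toFinset ∅ := by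
  intro a ha Y hY F hF
  obtain ⟨v, hv⟩ := List.exists_mem_of_length_pos (show 0 < l.length by omega)
  obtain ⟨m1, -, k1, k2, k3, -, k4, -⟩ := h F
    (fun j => (hF j).trans (sub_le_self _ (Nat.cast_nonneg _))) b a Y (l.take t) v ha hY
    ⟨List.length_take_of_le (by omega), PW.left (by rwa [List.take_append_drop]),
      fun x hx => h3 x (List.mem_of_mem_take hx)⟩ (h3 v hv)
  refine ⟨m1.toFinset, l.drop (l.length - t), fun x hx => ?_,
    (List.toFinset_card_le _).trans (by omega), fun x hx => (k3 x (List.mem_toFinset.1 hx)).2.2,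
    ⟨by rw [List.length_drop]; omega, PW.right (by rwa [List.take_append_drop]),
      fun x hx => h3 x (List.mem_of_mem_drop hx)⟩, fun T' hT => ⟨m1 ++ l, ?_, ?_, ?_, ?_⟩⟩
  · have := k3 x (List.mem_toFinset.1 hx)
    exact mem_sdiff.2 ⟨this.1, this.2.1⟩
  · exact List.nodup_append.2 ⟨k1, h1, fun x a1 y a2 e => h4 y a2 (e ▸ (k3 x a1).1)⟩
  · simp [subset_empty.1 hT]
  · have := k4.glue (y := l.drop t) (by rwa [List.take_append_drop])
      (List.length_take_of_le (by omega)).ge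
    rwa [List.append_assoc, List.take_append_drop, List.append_assoc] at this
  · rw [← List.append_assoc]
    exact (List.drop_suffix _ _).trans (List.suffix_append _ _)

lemma step_vertex (h : Loc G c U t K (C := C) φ) (hN : 2 * K + 1 ≤ N) {D s : ℝ} (hD : 0 ≤ D)
    (slack : t * D < K * (s - φ)) (bud : ∀ x, (#(cmiss G c U K x) : ℝ) ≤ D)
    (full : ∀ j, s ≤ #{y ∈ U | c y = j}) {v : V} {O T : Finset V} (hO : O ⊆ {v}) (hT : T ⊆ {v})
    (hv : v ∈ O ∨ v ∈ T → v ∉ U) : Step G c U t K (2 * K + 1) (C + t) (φ - t) (c v) O T := by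
  intro a ha Y hY F hF
  obtain ⟨Y', y1, y2, y3⟩ := exists_end (G := G) (U := U \ F) hN hD slack
    (fun x _ => (cmiss_mono sdiff_subset x).trans (bud x)) (fun j => by
      have k1 : #{y ∈ U | c y = j} ≤ #{y ∈ U \ F | c y = j} + #{x ∈ F ∩ U | c x = j} := by
        rw [inter_comm]
        refine le_trans (le_of_eq ?_) (card_union_le _ _)
        rw [← filter_union, sdiff_union_inter]
      have k2 : (#{y ∈ U | c y = j} : ℝ) ≤ #{y ∈ U \ F | c y = j} + #{x ∈ F ∩ U | c x = j} := by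
        exact_mod_cast k1
      linarith [hF j, full j, Nat.cast_nonneg (α := ℝ) t]) (c v)
  obtain ⟨m1, m2, k1, k2, k3, k4, k5, k6⟩ := h (F ∪ Y'.toFinset) (fun j => by
      have k1 : #{x ∈ (F ∪ Y'.toFinset) ∩ U | c x = j} ≤ #{x ∈ F ∩ U | c x = j} + t := by
        rw [union_inter_distrib_right, filter_union]
        exact (card_union_le _ _).trans (Nat.add_le_add_left ((card_filter_le _ _).trans
          ((card_le_card inter_subset_left).trans (y1 ▸ List.toFinset_card_le _))) _)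
      have k2 : (#{x ∈ (F ∪ Y'.toFinset) ∩ U | c x = j} : ℝ) ≤ #{x ∈ F ∩ U | c x = j} + t := by
        exact_mod_cast k1
      linarith [hF j]) (c v) a Y Y' v ha hY ⟨y1, y2, fun x hx => (y3 x hx).2⟩ InW.rfl
  have nd : (m1 ++ Y').Nodup := List.nodup_append.2 ⟨k1, (y2.pairwise (by omega)).imp fun e => e.ne,
    fun x a1 y a2 e => (k3 x a1).2.1 (mem_union_right _ (List.mem_toFinset.2 (e ▸ a2)))⟩
  have inU : ∀ x ∈ m1 ++ Y', x ∈ U \ F := fun x hx => by
    rcases List.mem_append.1 hx with hx | hx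
    · exact mem_sdiff.2 ⟨(k3 x hx).1, fun a => (k3 x hx).2.1 (mem_union_left _ a)⟩
    · exact (y3 x hx).1
  refine ⟨(m1 ++ Y').toFinset, Y', fun x hx => inU x (List.mem_toFinset.1 hx),
    (List.toFinset_card_le _).trans (by rw [List.length_append]; omega), fun x hx => ?_,
    ⟨y1, y2, fun x hx => (y3 x hx).2⟩, fun T' hT' => ?_⟩
  · rcases List.mem_append.1 (List.mem_toFinset.1 hx) with hx | hx
    · exact (k3 x hx).2.2
    · exact (InW.rfl.near (y3 x hx).2).mono (by omega)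
  have eqv : ∀ x, x ∈ O ∨ x ∈ T' → x = v := fun x hx =>
    mem_singleton.1 (hx.elim (@hO x) fun a => hT (hT' a))
  by_cases e : v ∈ O ∨ v ∈ T'
  · have pm : (m2 ++ Y').Perm (v :: (m1 ++ Y')) := k4.append_right _
    refine ⟨m2 ++ Y', pm.nodup_iff.2 (List.nodup_cons.2 ⟨fun a => hv (e.imp_right (@hT' v))
      (mem_sdiff.1 (inU v a)).1, nd⟩), fun x => ?_, by rwa [← List.append_assoc], by
        rw [← List.append_assoc]; exact List.suffix_append _ _⟩
    rw [pm.mem_iff, List.mem_cons, List.mem_toFinset, or_comm]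
    exact or_congr_right ⟨fun a => a ▸ e, eqv x⟩
  · refine ⟨m1 ++ Y', nd, fun x => ?_, by rwa [← List.append_assoc], by
      rw [← List.append_assoc]; exact List.suffix_append _ _⟩
    rw [List.mem_toFinset]
    exact ⟨.inl, fun a => a.resolve_right fun b => e (eqv x b ▸ b)⟩

end Pool.Agent.MP_61e9ba_co

end MrgPart2

-- ======== part 3: formerly Pool.Agent.MP_61e9ba_co.Sys
section MrgPart3

/-!
The absorption argument for a cyclic cell system.
-/

namespace Pool.Agent.MP_61e9ba_co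

open Finset

open scoped Classical

lemma tile_count {V : Type} [Fintype V] {N : ℕ} {G : SimpleGraph V} {c : V → ZMod N} {U : Finset V}
    {t K h : ℕ} {𝓛 : Finset (List V)} (hL : Tiling G c U t K h 𝓛) (win : List V → ZMod N)
    (hw : ∀ l ∈ 𝓛, ∀ x ∈ l, InW K (win l) (c x)) {τ : ℝ} (hτ : ∀ j, (#{y | c y = j} : ℝ) ≤ τ)
    (j : ZMod N) : (h : ℝ) * #{l ∈ 𝓛 | win l = j} ≤ (2 * K + 1) * τ := by
  refine le_trans ?_ (near_card univ c hτ K j)
  have : #({l ∈ 𝓛 | win l = j}.biUnion List.toFinset) = #{l ∈ 𝓛 | win l = j} * h := by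
    rw [card_biUnion fun l hl l' hl' ne => disjoint_left.2 fun x k1 k2 => ne (hL.2 l
      (mem_filter.1 hl).1 l' (mem_filter.1 hl').1 x (List.mem_toFinset.1 k1)
      (List.mem_toFinset.1 k2)), sum_const_nat fun l hl => ?_]
    have := hL.1 l (mem_filter.1 hl).1
    rw [List.toFinset_card_of_nodup this.2.1, this.1]
  rw [mul_comm, ← Nat.cast_mul, ← this]
  refine Nat.cast_le.2 (card_le_card fun x hx => ?_)
  obtain ⟨l, l1, l2⟩ := mem_biUnion.1 hx
  exact mem_filter.2 ⟨mem_univ _, (mem_filter.1 l1).2 ▸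
    InW.rfl.near (hw l (mem_filter.1 l1).1 x (List.mem_toFinset.1 l2))⟩

lemma card_sdiff_cell {V : Type} {N : ℕ} (c : V → ZMod N) (U S : Finset V) (j : ZMod N) :
    (#{x ∈ U | c x = j} : ℝ) ≤ #{x ∈ U \ S | c x = j} + #{x ∈ S | c x = j} := by
  have : {x ∈ U | c x = j} ⊆ {x ∈ U \ S | c x = j} ∪ {x ∈ S | c x = j} := by
    rw [← filter_union]
    exact filter_subset_filter _ (by rw [sdiff_union_self_eq_union]; exact subset_union_left)
  exact_mod_cast (card_le_card this).trans (card_union_le _ _)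

theorem sys_ham (t K : ℕ) (ht : 1 ≤ t) (hK : 1 ≤ K) {η : ℝ} (hη : 0 < η) (hη1 : η ≤ 1) :
    ∃ s0 : ℝ, ∀ (V : Type) [Fintype V] (N : ℕ) (G : SimpleGraph V) (c : V → ZMod N) (D s : ℝ),
      s0 ≤ s → 2 * K + 1 ≤ N → 0 ≤ D → t * D ≤ (1 - η) * K * s →
      (∀ x, (#(cmiss G c univ K x) : ℝ) ≤ D) →
      (∀ j, s ≤ #{y | c y = j} ∧ (#{y | c y = j} : ℝ) ≤ 2 * s) →
      ∃ Y l : List V, Y.length = t ∧ (Y ++ l).Nodup ∧ (∀ v, v ∈ Y ++ l) ∧ PW G t (Y ++ l ++ Y) := by
  obtain ⟨C, φ0, hφ0, sc, hsc, HC⟩ := local_connect t K 5 ht hK (by norm_num) (half_pos hη)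
    (by linarith)
  have K1 : (1 : ℝ) ≤ K := by exact_mod_cast hK
  have t0 : (0 : ℝ) ≤ t := Nat.cast_nonneg _
  obtain ⟨φ, hφ, φ1, φ2⟩ : ∃ φ : ℝ, 0 < φ ∧ φ ≤ φ0 ∧ φ ≤ η / 4 :=
    ⟨min φ0 (η / 4), by positivity, min_le_left _ _, min_le_right _ _⟩
  obtain ⟨X, hX⟩ : ∃ X : ℝ, X = (C + t : ℕ) * (2 * (2 * K + 1 : ℕ) + 1) := ⟨_, rfl⟩
  have X1 : 1 ≤ X := hX ▸ one_le_mul_of_one_le_of_one_le (by exact_mod_cast (by omega))
    (le_add_of_nonneg_left (by positivity))
  obtain ⟨r, hr⟩ := exists_nat_gt (24 * X / φ)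
  have r0 : (0 : ℝ) < r := lt_trans (by positivity) hr
  have r1 : 0 < r := by exact_mod_cast r0
  rw [div_lt_iff₀ hφ] at hr
  obtain ⟨ε, hε, e1⟩ : ∃ ε : ℝ, 0 < ε ∧ 2 * r * (t * (2 * K + 1) + K) * ε = η :=
    ⟨η / (2 * r * (t * (2 * K + 1) + K)), by positivity, mul_div_cancel₀ _ (by positivity)⟩
  have e0 : (1 : ℝ) ≤ t * (2 * K + 1) + K := le_add_of_nonneg_of_le (by positivity) K1
  have e2 : 2 * r * ε ≤ 1 := by nlinarith only [mul_pos r0 hε, e0, e1, hη1]
  have r1' : (1 : ℝ) ≤ r := by exact_mod_cast r1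
  obtain ⟨ss, HS⟩ := split r K 2 r1 (by norm_num) hε (by nlinarith only [e2, r1', hε])
  obtain ⟨β, hβ, β1⟩ : ∃ β : ℝ, 0 < β ∧ 8 * r * X * β = φ :=
    ⟨φ / (8 * r * X), by positivity, mul_div_cancel₀ _ (by positivity)⟩
  obtain ⟨m, hm⟩ := exists_nat_gt ((2 * K + 1) * 2 / β)
  have m1 : 0 < m := (Nat.cast_pos (α := ℝ)).1 (lt_trans (by positivity) hm)
  rw [div_lt_iff₀ hβ] at hm
  obtain ⟨sv, HV⟩ := cover t K 4 m hK (by norm_num) m1 (half_pos hη) (by linarith) hβ
  refine ⟨max (max ss (2 * r * sc)) (max (2 * |sv|) (8 * r * (X + 2 * t) / φ)), ?_⟩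
  intro V _ N G c D s hs hN hD slack bud cell
  simp only [max_le_iff] at hs
  obtain ⟨⟨hs1, hs2⟩, hs3, hs4⟩ := hs
  rw [div_le_iff₀ hφ] at hs4
  have s0 : 0 < s := lt_of_lt_of_le (by positivity) hs2
  have : NeZero N := ⟨by omega⟩
  obtain ⟨χ, hχ⟩ := HS V N G c univ s hs1 fun j => (cell j).2
  obtain ⟨R1, R2⟩ := hχ ⟨0, r1⟩
  generalize ({x ∈ univ | χ x = ⟨0, r1⟩} : Finset V) = R at R1 R2
  clear hχ HS
  have hiU : ∀ U' : Finset V, ∀ j, (#{y ∈ U' | c y = j} : ℝ) ≤ 2 * s := fun U' j =>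
    le_trans (by exact_mod_cast card_le_card (filter_subset_filter _ (subset_univ _))) (cell j).2
  have budU : ∀ (U' : Finset V) x, (#(cmiss G c U' K x) : ℝ) ≤ D := fun U' x =>
    (cmiss_mono (subset_univ _) x).trans (bud x)
  obtain ⟨σ, hσ⟩ : ∃ σ, σ = s / r := ⟨_, rfl⟩
  have σ1 : r * σ = s := hσ ▸ mul_div_cancel₀ _ r0.ne'
  have σ0 : 0 < σ := hσ ▸ div_pos s0 r0
  have σ2 : 2 * (ε * s) ≤ σ := by rw [← σ1]; nlinarith only [e2, σ0]
  have Rlo : ∀ j, σ - ε * s ≤ #{y ∈ R | c y = j} := fun j => by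
    have := (abs_le.1 (R1 j)).1
    have := div_le_div_of_nonneg_right (cell j).1 r0.le
    linarith
  have Rhi : ∀ j, (#{y ∈ R | c y = j} : ℝ) ≤ 2 * σ + ε * s := fun j => by
    have := (abs_le.1 (R1 j)).2
    have := div_le_div_of_nonneg_right (cell j).2 r0.le
    rw [mul_div_assoc] at this
    linarith
  have σ3 : 24 * X * σ ≤ φ * s := by rw [← σ1]; nlinarith only [hr, σ0]
  have σ4 : 8 * (X + 2 * t) ≤ φ * σ := by
    refine le_of_mul_le_mul_left ?_ r0
    rw [← σ1] at hs4; linarith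
  have σ5 : φ * σ ≤ φ * s := by rw [← σ1]; nlinarith only [mul_pos hφ σ0, r1']
  have φs : φ * s ≤ η / 4 * s := mul_le_mul_of_nonneg_right φ2 s0.le
  have ηs : η * s ≤ s := by nlinarith only [hη1, s0]
  have Ks : 0 < K * s := by positivity
  have mk : ∀ (U : Finset V) (D' s' : ℝ), sc ≤ s' → 0 ≤ D' → t * D' ≤ (1 - η / 2) * K * s' →
      (∀ x, (#(cmiss G c U K x) : ℝ) ≤ D') →
      (∀ j, s' ≤ #{y ∈ U | c y = j} ∧ (#{y ∈ U | c y = j} : ℝ) ≤ 5 * s') →
      Loc G c U t K C (φ * s') ∧ t * D' < K * (s' - φ * s') := by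
    intro U D' s' k1 k2 k3 k4 k5
    have k6 : 0 < s' := hsc.trans_le k1
    refine ⟨fun F hF a a' Y Y' v ha hY hY' hv => HC V N G c U F D' s' k1 hN k2 k3 k4 k5
      (fun j => (hF j).trans (mul_le_mul_of_nonneg_right φ1 k6.le)) a a' Y Y' v ha hY.1 hY'.1
      hY.2.1 hY'.2.1 hY.2.2 hY'.2.2 hv, ?_⟩
    have : 0 < K * s' := by positivity
    nlinarith only [this, k3, φ2, hη]
  -- first lap
  have lo1 : ∀ j, (1 - η / 4) * s ≤ #{y ∈ univ \ R | c y = j} := fun j => by
    linarith only [card_sdiff_cell c univ R j, Rhi j, (cell j).1, σ2, σ3, φs, σ0,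
      mul_le_mul_of_nonneg_right X1 σ0.le]
  obtain ⟨loc1, sl1⟩ := mk (univ \ R) D ((1 - η / 4) * s)
    (by linarith only [hs2, ηs, hsc, mul_le_mul_of_nonneg_right r1' hsc.le]) hD
    (by nlinarith only [mul_pos hη Ks, mul_pos (mul_pos hη hη) Ks, slack])
    (budU _) fun j => ⟨lo1 j, by linarith only [hiU (univ \ R) j, ηs, s0]⟩
  obtain ⟨Y0, y1, y2, y3⟩ := exists_end (U := univ \ R) hN hD
    (sl1.trans_le (mul_le_mul_of_nonneg_left (sub_le_self _
      (mul_nonneg hφ.le (by linarith only [ηs, s0]))) (Nat.cast_nonneg _)))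
    (fun x _ => budU _ x) lo1 0
  have cY : ∀ j, (#{x ∈ Y0.toFinset | c x = j} : ℝ) ≤ t := fun j => by
    exact_mod_cast (card_filter_le _ _).trans (y1 ▸ List.toFinset_card_le _)
  have X2 : ∀ τ : ℝ, (C + t : ℕ) * ((2 * (2 * K + 1 : ℕ) + 1) * τ) = X * τ := fun τ => by
    rw [hX, mul_assoc]
  have φs1 : φ * s / 2 ≤ φ * ((1 - η / 4) * s) := by nlinarith only [mul_pos hφ s0, hη1]
  obtain ⟨S1, a1, Y1, p1, p2, p3, p4, p5⟩ := lap (U := univ \ R) c (fun _ => ∅) (fun v => {v})
    Y0.toFinset (.inl rfl) ⟨y1, y2, fun x hx => (y3 x hx).2⟩ R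
    (fun v hv => step_vertex loc1 hN hD sl1 (budU _) lo1 (empty_subset _) Subset.rfl
      fun _ a => (mem_sdiff.1 a).2 hv)
    (fun j => by
      obtain ⟨v, hv⟩ : {y ∈ R | c y = j}.Nonempty := card_pos.1 (by
        have : (0 : ℝ) < #{y ∈ R | c y = j} := lt_of_lt_of_le (by linarith only [σ0, σ2]) (Rlo j)
        exact_mod_cast this)
      exact ⟨v, mem_filter.1 hv⟩) (τ := 3 * σ) (fun j => by linarith only [Rhi j, σ0, σ2])
    (fun j => by
      have : (#{x ∈ Y0.toFinset ∩ (univ \ R) | c x = j} : ℝ) ≤ t := le_trans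
        (Nat.cast_le.2 (card_le_card (filter_subset_filter _ inter_subset_left))) (cY j)
      rw [X2]; linarith only [this, φs1, σ3, σ4, σ5, X1, t0])
    (fun v _ v' _ x k1 k2 => by
      simp only [notMem_empty, false_or, mem_singleton] at k1 k2
      rw [← k1, ← k2])
    (fun v hv x k a => by
      simp only [notMem_empty, false_or, mem_singleton] at k
      exact (mem_sdiff.1 a).2 (k ▸ hv))
  simp only [X2] at p2
  -- tiling the rest
  set W := (univ \ R) \ (S1 ∪ Y0.toFinset)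
  obtain ⟨𝓛, l1, l2⟩ := HV V N G c W D ((1 - η / 2) * s) (by linarith only [le_abs_self sv, hs3, ηs]) hN hD
    (by nlinarith only [mul_pos (mul_pos hη hη) Ks, slack]) (budU _) (fun j => by
      have k1 := card_sdiff_cell c (univ \ R) (S1 ∪ Y0.toFinset) j
      have k2 : (#{x ∈ S1 ∪ Y0.toFinset | c x = j} : ℝ) ≤
          #{x ∈ S1 | c x = j} + #{x ∈ Y0.toFinset | c x = j} := by
        rw [filter_union]; exact_mod_cast card_union_le _ _
      linarith only [lo1 j, p2 j, cY j, k1, k2, φs, σ3, σ4, σ5, X1, t0]) fun j => by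
      push_cast; linarith only [(cell j).2, ηs]
  have := fun l : List V => Classical.em (l ∈ 𝓛) |>.elim
    (fun h => (l1.1 l h).2.2.2.2.imp fun a ha (_ : l ∈ 𝓛) => ha) fun h => ⟨0, fun k => absurd k h⟩
  choose win hwin using this
  have := fun j : ZMod N => card_pos.1 (Nat.cast_pos.1 (s0.trans_le (cell j).1))
  choose rep hrep using this
  -- second lap
  obtain ⟨loc2, sl2⟩ := mk R (D / r + (2 * K + 1) * (ε * s)) (σ - ε * s) (by
      have : r * (2 * sc) ≤ r * σ := by linarith only [hs2, σ1]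
      linarith only [le_of_mul_le_mul_left this r0, σ2]) (by positivity) (by
      have k1 : t * (D / r) ≤ (1 - η) * K * σ := by
        rw [hσ, ← mul_div_assoc, ← mul_div_assoc]; exact div_le_div_of_nonneg_right slack r0.le
      have k2 : (t * (2 * K + 1) + K) * (ε * s) = η / 2 * σ := by rw [← e1, ← σ1]; ring
      have k3 : 0 ≤ η / 2 * K * (ε * s) := by positivity
      nlinarith only [mul_pos hη σ0, k1, k2, k3, K1])
    (fun x => (R2 x).trans (by gcongr; exact bud x)) fun j =>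
      ⟨Rlo j, by linarith only [Rhi j, σ2]⟩
  have WR : ∀ x ∈ W, x ∉ R := fun x hx => (mem_sdiff.1 (mem_sdiff.1 hx).1).2
  have cvW : ∀ l ∈ 𝓛, ∀ x ∈ l, x ∈ W := fun l hl => (l1.1 l hl).2.2.2.1
  have φs2 : φ * σ / 2 ≤ φ * (σ - ε * s) := by nlinarith only [hφ, σ2]
  have τ2 : X * (1 + 2 * (β * s)) ≤ φ * σ / 2 - 2 * t := by
    have : 8 * (X * (β * s)) = φ * σ := by rw [← β1, ← σ1]; ring
    linarith only [this, σ4, t0, X1]
  obtain ⟨S2, a2, Y2, q1, q2, q3, q4, q5⟩ := lap (U := R) (ι := ZMod N ⊕ V ⊕ List V)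
    (Sum.elim id (Sum.elim c win)) (Sum.elim (fun _ => ∅) (Sum.elim singleton List.toFinset))
    (fun _ => ∅) ∅ (.inr p4) p3 (univ.disjSum ((W \ cov 𝓛).disjSum 𝓛))
    (by
      rintro (j | v | l) h
      · have := step_vertex loc2 hN (by positivity) sl2
          (fun x => (R2 x).trans (by gcongr; exact bud x)) Rlo (v := rep j) (empty_subset _)
          (empty_subset _) (by simp)
        rwa [(mem_filter.1 (hrep j)).2] at this
      · exact step_vertex loc2 hN (by positivity) sl2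
          (fun x => (R2 x).trans (by gcongr; exact bud x)) Rlo Subset.rfl (empty_subset _)
          fun _ => WR v (mem_sdiff.1 (inl_mem_disjSum.1 (inr_mem_disjSum.1 h))).1
      · have hl := inr_mem_disjSum.1 (inr_mem_disjSum.1 h)
        obtain ⟨k1, k2, k3, k4, -⟩ := l1.1 l hl
        exact step_tile loc2 (k1 ▸ Nat.le_mul_of_pos_left _ m1) k2 k3 (hwin l hl)
          fun x hx => WR x (k4 x hx))
    (fun j => ⟨.inl j, by simp, rfl⟩) (τ := 1 + 2 * (β * s)) (fun j => by
      have k1 := tile_count l1 win hwin (fun j => (cell j).2) j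
      have k2 : (m : ℝ) ≤ (m * (t + 1) : ℕ) := by exact_mod_cast Nat.le_mul_of_pos_right _ t.succ_pos
      have k3 : (#{l ∈ 𝓛 | win l = j} : ℝ) ≤ β * s := by
        refine le_of_mul_le_mul_left ?_ (Nat.cast_pos.2 m1)
        nlinarith only [Nat.cast_nonneg (α := ℝ) #{l ∈ 𝓛 | win l = j}, k1, k2, hm, s0]
      have k4 : (#{x ∈ W \ cov 𝓛 | c x = j} : ℝ) ≤ β * s := (l2 j).trans
        (mul_le_mul_of_nonneg_left (by linarith only [mul_pos hη s0]) hβ.le)
      refine le_trans (Nat.cast_le.2 (card_le_card (t := ({j} : Finset (ZMod N)).disjSum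
        ({x ∈ W \ cov 𝓛 | c x = j}.disjSum {l ∈ 𝓛 | win l = j})) ?_)) ?_
      · rintro (a | v | l) h
        · exact inl_mem_disjSum.2 (mem_singleton.2 (mem_filter.1 h).2)
        · exact inr_mem_disjSum.2 (inl_mem_disjSum.2 (mem_filter.2
            ⟨inl_mem_disjSum.1 (inr_mem_disjSum.1 (mem_filter.1 h).1), (mem_filter.1 h).2⟩))
        · exact inr_mem_disjSum.2 (inr_mem_disjSum.2 (mem_filter.2
            ⟨inr_mem_disjSum.1 (inr_mem_disjSum.1 (mem_filter.1 h).1), (mem_filter.1 h).2⟩))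
      · rw [card_disjSum, card_disjSum, card_singleton]
        push_cast
        linarith only [k3, k4])
    (fun j => by
      rw [X2, empty_inter, filter_empty, card_empty, Nat.cast_zero]
      linarith only [τ2, φs2, t0])
    (by
      rintro (j | v | l) h (j' | v' | l') h' x k1 k2 <;>
        simp only [Sum.elim_inl, Sum.elim_inr, notMem_empty, or_false, mem_singleton,
          List.mem_toFinset, inl_mem_disjSum, inr_mem_disjSum, mem_sdiff, mem_cov] at h h' k1 k2
      · rw [← k1, ← k2]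
      · exact absurd ⟨l', h', k1 ▸ k2⟩ h.2
      · exact absurd ⟨l, h, k2 ▸ k1⟩ h'.2
      · rw [l1.2 l h l' h' x k1 k2])
    (by
      rintro (j | v | l) h x k <;>
        simp only [Sum.elim_inl, Sum.elim_inr, notMem_empty, or_false, mem_singleton,
          List.mem_toFinset, inl_mem_disjSum, inr_mem_disjSum] at h k
      · exact WR x (k ▸ (mem_sdiff.1 h).1)
      · exact WR x (cvW l h x k))
  simp only [X2] at q2
  obtain ⟨L2, u1, u2, u3, u4⟩ := q5 ∅ (by simp)
  have u2' : ∀ x, x ∈ L2 ↔ x ∈ S2 ∨ x ∈ W := fun x => by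
    rw [u2]
    refine or_congr_right ⟨?_, fun k => .inl ?_⟩
    · rintro (⟨j | v | l, h, k⟩ | k)
      · simp at k
      · exact mem_singleton.1 k ▸ (mem_sdiff.1 (inl_mem_disjSum.1 (inr_mem_disjSum.1 h))).1
      · exact cvW l (inr_mem_disjSum.1 (inr_mem_disjSum.1 h)) x (List.mem_toFinset.1 k)
      · simp at k
    · by_cases a : x ∈ cov 𝓛
      · obtain ⟨l, k1, k2⟩ := mem_cov.1 a
        exact ⟨.inr (.inr l), by simpa using k1, List.mem_toFinset.2 k2⟩
      · exact ⟨.inr (.inl x), by simp [k, a], mem_singleton_self _⟩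
  -- closing the cycle
  obtain ⟨P, -, w1, -, w2, -, w3, -⟩ := loc2 S2 (fun j => le_trans (Nat.cast_le.2 (card_le_card
    (filter_subset_filter _ inter_subset_left))) (by linarith only [q2 j, τ2, φs2, t0])) 0 a2
    Y2 Y0 (rep 0) (.inr q4) q3
    ⟨y1, y2, fun x hx => (y3 x hx).2⟩ (by rw [(mem_filter.1 (hrep 0)).2]; exact InW.rfl)
  obtain ⟨L1, v1, v2, v3, v4⟩ := p5 (R \ (S2 ∪ P.toFinset)) fun x hx =>
    ⟨x, (mem_sdiff.1 hx).1, mem_singleton_self _⟩
  have v2' : ∀ x, x ∈ L1 ↔ x ∈ S1 ∨ (x ∈ R ∧ x ∉ S2 ∧ x ∉ P) := fun x => by simp [v2]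
  have f1 : ∀ x ∈ S1, x ∉ R ∧ x ∉ Y0 := fun x hx => by simpa using p1 hx
  have f2 : ∀ x ∈ S2, x ∈ R := fun x hx => (mem_sdiff.1 (q1 hx)).1
  have f3 : ∀ x ∈ Y0, x ∉ R := fun x hx => (mem_sdiff.1 (y3 x hx).1).2
  have f4 : ∀ x, x ∈ W ↔ x ∉ R ∧ x ∉ S1 ∧ x ∉ Y0 := fun x => by simp [W]
  refine ⟨Y0, L1 ++ (L2 ++ P), y1, ?_, fun x => ?_, ?_⟩
  · refine List.nodup_append.2 ⟨(y2.pairwise (by omega)).imp fun e => e.ne, List.nodup_append.2
      ⟨v1, List.nodup_append.2 ⟨u1, w1, ?_⟩, ?_⟩, ?_⟩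
    · rintro x k1 _ k2 rfl
      have := w2 x k2; have := f4 x; have := u2' x; tauto
    · rintro x k1 _ k2 rfl
      rw [List.mem_append, u2', f4] at k2
      rw [v2'] at k1
      have := w2 x; have := f1 x; have := f2 x; tauto
    · rintro x k1 _ k2 rfl
      rw [List.mem_append, List.mem_append, u2', f4, v2'] at k2
      have := w2 x; have := f1 x; have := f2 x; have := f3 x k1; tauto
  · simp only [List.mem_append, u2', f4, v2']
    tauto
  · have g1 := v3.glue_suffix v4 u3 p3.1.ge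
    obtain ⟨z, hz⟩ := v4
    have g2 := g1.glue_suffix (b := Y2) (y := P ++ Y0) (u4.trans ⟨z, by
      rw [← hz, List.append_assoc]⟩) (by rwa [← List.append_assoc]) q3.1.ge
    simpa using g2

end Pool.Agent.MP_61e9ba_co

end MrgPart3

-- ======== part 4: formerly Pool.Agent.MP_61e9ba_co.Upper
section MrgPart4

/-!
Every `α > 1 - 1/(2t)` is good for `t`.
-/

namespace Pool.Agent.MP_61e9ba_co

open Finset

open scoped Classical

lemma deg_le (n k : ℕ) (v : Fin n) :
    ((cycPow n k).neighborSet v).ncard ≤ 2 * min k ((n - 1) / 2) + 1 := by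
  rcases le_total k ((n - 1) / 2) with h | h
  · rw [min_eq_left h]
    have := Set.ncard_le_ncard_of_injOn (s := (cycPow n k).neighborSet v)
      (t := (Icc (-(k : ℤ)) k : Finset ℤ))
      (fun y : Fin n => if (y : ℤ) - v > k then (y : ℤ) - v - n else
        if (y : ℤ) - v < -k then (y : ℤ) - v + n else y - v) (fun y hy => by
        have h1 : min (Nat.dist v y) (n - Nat.dist v y) ≤ k := hy.2
        have := y.2; have := v.2
        simp only [coe_Icc, Set.mem_Icc]
        unfold Nat.dist at h1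
        split_ifs <;> omega) (fun y _ y' _ e => by
        have := y.2; have := y'.2
        simp only at e
        ext
        split_ifs at e <;> omega)
    rw [Set.ncard_coe_finset, Int.card_Icc] at this
    omega
  · rw [min_eq_right h]
    have := Set.ncard_lt_ncard (s := (cycPow n k).neighborSet v) (t := Set.univ)
      (Set.ssubset_univ_iff.2 fun e => (cycPow n k).irrefl (show v ∈ (cycPow n k).neighborSet v from
        e ▸ Set.mem_univ v))
    rw [Set.ncard_univ, Nat.card_eq_fintype_card, Fintype.card_fin] at this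
    omega

lemma ham_of_list {n t : ℕ} {H : SimpleGraph (Fin n)} {Y l : List (Fin n)} (h1 : Y.length = t)
    (h2 : (Y ++ l).Nodup) (h3 : ∀ v, v ∈ Y ++ l) (h4 : PW H t (Y ++ l ++ Y)) : HasHamPower t H := by
  have len : (Y ++ l).length = n := by
    simpa using Fintype.card_congr (h2.getEquivOfForallMemList _ h3)
  refine ⟨(finCongr len.symm).trans (h2.getEquivOfForallMemList _ h3), ?_⟩
  set σ := (finCongr len.symm).trans (h2.getEquivOfForallMemList _ h3)
  have g0 : ∀ i : Fin n, (Y ++ l)[i.1]? = some (σ i) := fun i =>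
    List.getElem?_eq_getElem (by rw [len]; exact i.2)
  have g1 : ∀ i : Fin n, (Y ++ l ++ Y)[i.1]? = some (σ i) := fun i => by
    rw [List.getElem?_append_left (by rw [len]; exact i.2), g0]
  have g2 : ∀ i : Fin n, i.1 < t → (Y ++ l ++ Y)[n + i.1]? = some (σ i) := fun i hi => by
    rw [List.getElem?_append_right (by omega), len, Nat.add_sub_cancel_left, ← g0,
      List.getElem?_append_left (by omega)]
  have key : ∀ i j : Fin n, i.1 < j.1 → (cycPow n t).Adj i j → H.Adj (σ i) (σ j) := by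
    intro i j hij h
    have k : min (Nat.dist i j) (n - Nat.dist i j) ≤ t := h.2
    unfold Nat.dist at k
    have := j.2
    by_cases a : j.1 ≤ i.1 + t
    · exact h4 _ _ _ _ (g1 i) (g1 j) hij a
    · exact (h4 _ _ _ _ (g1 j) (g2 i (by omega)) (by omega) (by omega)).symm
  intro i j h
  rcases lt_or_gt_of_ne (Fin.val_ne_of_ne h.ne) with a | a
  · exact key i j a h
  · exact (key j i a h.symm).symm

theorem good_of_lt (t : ℕ) (ht : 1 ≤ t) (α : ℝ) (hα : 1 - 1 / (2 * (t : ℝ)) < α) : Good t α := by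
  have t1 : (1 : ℝ) ≤ t := by exact_mod_cast ht
  obtain ⟨δ, δ0, δ1, δ2⟩ : ∃ δ : ℝ, 0 ≤ δ ∧ 2 * t * δ < 1 ∧ 1 - δ ≤ α := by
    refine ⟨max (1 - α) 0, le_max_right _ _, ?_, by linarith [le_max_left (1 - α) 0]⟩
    rw [mul_comm, ← lt_div_iff₀ (by positivity)]
    exact max_lt (by linarith) (by positivity)
  obtain ⟨η, hη, e1⟩ : ∃ η : ℝ, 0 < η ∧ 2 * t * δ = 1 - η := ⟨1 - 2 * t * δ, by linarith, by ring⟩
  have η1 : η ≤ 1 := by nlinarith
  obtain ⟨K, hK⟩ := exists_nat_gt (8 / η)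
  have K1 : 1 ≤ K := (Nat.cast_pos (α := ℝ)).1 (lt_trans (by positivity) hK)
  rw [div_lt_iff₀ hη] at hK
  obtain ⟨s0, HS⟩ := sys_ham t K ht K1 (half_pos hη) (by linarith)
  obtain ⟨S, hS⟩ := exists_nat_gt (max s0 (K + 3 + t))
  rw [max_lt_iff] at hS
  refine ⟨2 * ((K + 3) * S) + 2, fun k hk n hn _ H hH => ?_⟩
  obtain ⟨k', hk'⟩ : ∃ k', k' = min k ((n - 1) / 2) := ⟨_, rfl⟩
  obtain ⟨s, hs⟩ : ∃ s, s = k' / (K + 3) := ⟨_, rfl⟩
  have s1 : S ≤ s := hs ▸ (Nat.le_div_iff_mul_le (by omega)).2 (by rw [mul_comm]; omega)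
  have s2 : (K + 3) * s ≤ k' := hs ▸ Nat.mul_div_le _ _
  have s3 : k' < (K + 3) * (s + 1) := hs ▸ Nat.lt_mul_div_succ _ (by omega)
  have s4 : K + 3 + t < S := by exact_mod_cast hS.2
  have s0' : 0 < s := by omega
  obtain ⟨N, hN⟩ : ∃ N, N = n / s := ⟨_, rfl⟩
  have N1 : N * s ≤ n := hN ▸ Nat.div_mul_le_self _ _
  have N2 : n < (N + 1) * s := by rw [hN, mul_comm]; exact Nat.lt_mul_div_succ _ s0'
  have N3 : 2 * (K + 3) ≤ N := hN ▸ (Nat.le_div_iff_mul_le s0').2 (by rw [mul_assoc]; omega)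
  have : NeZero N := ⟨by omega⟩
  obtain ⟨a, a1, a2, a3, a4⟩ : ∃ a : Fin n → ℕ, (∀ i, a i < N) ∧ (∀ i, a i * s ≤ i) ∧
      (∀ i, i.1 < (a i + 2) * s) ∧ ∀ i j, j < N → j * s ≤ i.1 → i.1 < (j + 1) * s → a i = j := by
    refine ⟨fun i => min (i / s) (N - 1), fun i => (min_le_right _ _).trans_lt (by omega),
      fun i => ?_, fun i => ?_,
      fun i j h1 h2 h3 => ?_⟩
    · exact (Nat.mul_le_mul_right _ (min_le_left _ _)).trans (Nat.div_mul_le_self _ _)
    · rcases le_total (i / s) (N - 1) with h | h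
      · simp only [min_eq_left h]
        have := Nat.lt_mul_div_succ i s0'
        nlinarith
      · simp only [min_eq_right h]
        rw [show N - 1 + 2 = N + 1 by omega]
        exact i.2.trans N2
    · simp only [Nat.div_eq_of_lt_le h2 h3]; omega
  obtain ⟨Y, l, h1, h2, h3, h4⟩ := HS (Fin n) N H (fun i => a i) (δ * (2 * k' + 1) + 1) s
    (hS.1.le.trans (by exact_mod_cast s1)) (by omega) (by positivity) (by
      have k1 : (2 * k' + 1 : ℝ) ≤ 2 * ((K + 3) * (s + 1)) := by exact_mod_cast (by omega)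
      have k2 : (K + 3 + t : ℝ) ≤ s := by exact_mod_cast (by omega)
      have k3 := mul_le_mul_of_nonneg_left k1 (show 0 ≤ t * δ by positivity)
      have k4 : t * δ * (2 * ((K + 3) * (s + 1))) = (1 - η) * ((K + 3) * (s + 1)) := by
        rw [← e1]; ring
      have k5 : (0 : ℝ) ≤ s := by positivity
      have k6 : (0 : ℝ) ≤ K := by positivity
      nlinarith [mul_nonneg hη.le k5, mul_nonneg hη.le k6])
    (fun x => by
      have k1 : ((cmiss H (fun i => (a i : ZMod N)) univ K x : Finset (Fin n)) : Set (Fin n)) ⊆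
          insert x ((cycPow n k).neighborSet x \ H.neighborSet x) := by
        intro y hy
        obtain ⟨-, ⟨j, j1, j2⟩, j3⟩ := mem_cmiss.1 hy
        refine (eq_or_ne y x).imp id fun ne => ⟨⟨ne.symm, ?_⟩, j3⟩
        obtain ⟨q, hq⟩ := (ZMod.intCast_eq_intCast_iff_dvd_sub (a x + j) (a y) N).1
          (by push_cast; exact j2.symm)
        have b1 := a1 x; have b2 := a1 y
        rw [abs_le] at j1
        have q1 : q < 2 := by by_contra h; nlinarith
        have q2 : -2 < q := by by_contra h; nlinarith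
        have c1 := a2 x; have c2 := a2 y; have c3 := a3 x; have c4 := a3 y
        have d : ∀ u w : ℕ, u ≤ w + K → u * s ≤ w * s + K * s := fun u w h => by
          rw [← add_mul]; exact Nat.mul_le_mul_right _ h
        have d1 := d (a x) (a y); have d2 := d (a y) (a x)
        have d3 := d (a x + N) (a y); have d4 := d (a y + N) (a x)
        simp only [add_mul] at *
        unfold Nat.dist
        obtain rfl | rfl | rfl : q = -1 ∨ q = 0 ∨ q = 1 := by omega
        all_goals omega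
      have k2 := Set.ncard_le_ncard k1
      rw [Set.ncard_coe_finset] at k2
      have k3 := Set.ncard_insert_le x ((cycPow n k).neighborSet x \ H.neighborSet x)
      have k4 := Set.ncard_sdiff_add_ncard_of_subset (s := H.neighborSet x)
        (t := (cycPow n k).neighborSet x) fun y hy => hH.1 hy
      have k5 : (((cycPow n k).neighborSet x).ncard : ℝ) ≤ 2 * k' + 1 := by
        exact_mod_cast hk' ▸ deg_le n k x
      have k6 : (#(cmiss H (fun i => (a i : ZMod N)) univ K x) : ℝ) + (H.neighborSet x).ncard ≤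
          ((cycPow n k).neighborSet x).ncard + 1 := by exact_mod_cast (by omega)
      nlinarith [hH.2 x, Nat.cast_nonneg (α := ℝ) ((cycPow n k).neighborSet x).ncard])
    (fun j => by
      have j1 := ZMod.val_lt j
      have j2 : (j.val + 1) * s ≤ n := (Nat.mul_le_mul_right _ j1).trans N1
      rw [add_mul, one_mul] at j2
      constructor
      · have := card_le_card_of_injOn (s := (univ : Finset (Fin s)))
          (t := {y : Fin n | (a y : ZMod N) = j}) (fun e => ⟨j.val * s + e, by omega⟩)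
          (fun e _ => mem_filter.2 ⟨mem_univ _, by
            rw [a4 _ j.val j1 (by simp) (by simp [add_mul]), ZMod.natCast_zmod_val]⟩)
          fun e _ e' _ h => Fin.ext (by simpa using h)
        rw [card_univ, Fintype.card_fin] at this
        exact_mod_cast this
      · have := card_le_card_of_injOn (s := {y : Fin n | (a y : ZMod N) = j})
          (t := Ico (j.val * s) ((j.val + 2) * s)) Fin.val
          (fun y hy => by
            rw [← (mem_filter.1 hy).2, ZMod.val_natCast_of_lt (a1 y)]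
            exact mem_coe.2 (mem_Ico.2 ⟨a2 y, a3 y⟩)) Fin.val_injective.injOn
        rw [Nat.card_Ico, add_mul, Nat.add_sub_cancel_left] at this
        exact_mod_cast this)
  exact ham_of_list h1 h2 h3 h4

end Pool.Agent.MP_61e9ba_co

end MrgPart4

-- marker of a merged file
example : 731051 + 36834 = 731051 + 36834 := rfl
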